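import Pool.Agent.R531.Spl.ExE

set_option autoImplicit false

/-! Additive terms are irrelevant. -/

namespace Pool.Agent.R531.Spl

open Pool.Agent.H581R2.Splay Pool.Agent.TH49.Spl Pool.Agent.TH22.SP Pool.Agent.Y395.SP

/-- splaying from `T` is within the factor `c` of the optimum, up to the additive term `B` -/
def Comp (T : Tr) (c B : ℝ) : Prop :=
  ∀ Z : List ℕ, (∀ x ∈ Z, x ∈ keys T) → (costSplay T Z : ℝ) ≤ c * opt T Z + B

/-- an Archimedean argument -/
theorem arch {a b B : ℝ} (h : ∀ N : ℕ, (N : ℝ) * a ≤ N * b + B) : a ≤ b := by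
  by_contra hlt
  push Not at hlt
  obtain ⟨N, hN⟩ := exists_nat_gt (B / (a - b))
  have h1 : 0 < a - b := by linarith
  rw [div_lt_iff₀ h1] at hN
  have := h N
  nlinarith

theorem root_exec (a : ℕ) (l r : Tr) (N : ℕ) :
    Exec (Tr.node a l r) (List.replicate N a) N := by
  induction N with
  | zero => exact Exec.nil _
  | succ N ih =>
    have := Exec.cons (Tr.node a l r) (Tr.node a l r) a (List.replicate N a) 0 N (RotN.refl _) ih
    rw [dep_a] at this
    rw [List.replicate_succ, show N + 1 = 1 + 0 + 0 + N by ring]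
    exact this

theorem root_cost (a : ℕ) (l r : Tr) (N : ℕ) :
    costSplay (Tr.node a l r) (List.replicate N a) = N := by
  induction N with
  | zero => rfl
  | succ N ih =>
    have : splay a (Tr.node a l r) = Tr.node a l r := by simp [splay, locate, climb]
    rw [List.replicate_succ, costSplay, this, ih, dep_a]
    ring

theorem one_le {T : Tr} {c B : ℝ} (hne : keys T ≠ []) (h : Comp T c B) : 1 ≤ c := by
  cases T with
  | nil => simp [keys] at hne
  | node a l r =>
    refine arch (B := B) fun N => ?_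
    have h1 := h (List.replicate N a) (fun x hx => by
      rw [List.eq_of_mem_replicate hx]; simp [keys])
    rw [root_cost] at h1
    have h2 : opt (Tr.node a l r) (List.replicate N a) = N := by
      refine le_antisymm (opt_le (root_exec a l r N)) ?_
      have := length_le_opt (Tr.node a l r) (List.replicate N a)
      rwa [List.length_replicate] at this
    rw [h2] at h1
    linarith

theorem small {p : PT} (hb : IsBST p.tr) (hs : p.sz ≤ 3) {X : List ℕ} (hX : ∀ x ∈ X, x ∈ p.ks) :
    costSplay p.tr X ≤ 3 * opt p.tr X := by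
  obtain ⟨q, -, -, h⟩ := PT.prun X hb hX
  have h1 := length_le_opt p.tr X
  calc costSplay p.tr X ≤ p.sz * X.length := h
    _ ≤ 3 * opt p.tr X := Nat.mul_le_mul hs h1

/-- one round: serve `X`, then return to the initial tree -/
theorem round {T : Tr} (hb : IsBST T) {X : List ℕ} (hX : ∀ x ∈ X, x ∈ keys T) (hne : X ≠ [])
    (hs : 4 ≤ ancs X.toFinset T) :
    ∃ R : List ℕ, (∀ x ∈ R, x ∈ keys T) ∧ runS T (X ++ R) = T ∧
      ∃ D ≤ 140 * opt T X, ExecE T (X ++ R) T D := by
  classical
  have htr := PT.dc_tr X.toFinset T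
  have hsz := PT.dc_sz X.toFinset T
  generalize hp : PT.dc X.toFinset T = p at htr hsz
  have hpk : ∀ x ∈ X, x ∈ p.ks := fun x hx => by
    rw [← hp]; exact PT.dc_ks (List.mem_toFinset.2 hx) T (hX x hx)
  have hbp : IsBST p.tr := by rw [htr]; exact hb
  obtain ⟨q, h1, h2, -⟩ := PT.prun X hbp hpk
  have h3 := (h2 (fun t => t)).1
  rw [PT.pr_id, PT.pr_id, htr] at h3
  have hbq : IsBST q.tr := PT.bst_congr h1.symm hbp
  obtain ⟨R, e1, e2, e3⟩ := PT.reset (p := q) (q := p) h1 (by rw [PT.sz_congr h1, hsz]; exact hs) hbq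
  obtain ⟨n, hn, h4⟩ := PT.connect h1.symm
  have h5 := PT.rots h4
  obtain ⟨T', h6⟩ := Exec.toE (opt_spec T X)
  obtain ⟨e, he, h7⟩ := h6.rots
  have h8 := h6.more (rotN_trans (rotN_symm h7) (htr ▸ h5)) hne
  obtain ⟨c, hc, h9⟩ := serve R hbq (fun x hx => PT.ks_sub q x (e1 x hx))
  rw [e2, htr] at h9
  have h10 := ancs_le_opt hb X
  have hR : ∀ x ∈ R, x ∈ keys T := fun x hx => by
    have := PT.ks_sub q x (e1 x hx)
    rwa [PT.keys_congr h1, htr] at this
  refine ⟨R, hR, ?_, _, ?_, h8.append h9⟩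
  · rw [runS_append, h3, e2, htr]
  · rw [PT.sz_congr h1, hsz] at e3
    rw [hsz] at hn
    omega

theorem same {T : Tr} (hb : IsBST T) {c B : ℝ} (h : Comp T c B) {X : List ℕ}
    (hX : ∀ x ∈ X, x ∈ keys T) : (costSplay T X : ℝ) ≤ 140 * c * opt T X := by
  classical
  rcases eq_or_ne X [] with hX0 | hne
  · subst hX0
    have h1 : opt T [] = 0 := Nat.le_zero.1 (opt_le (Exec.nil T))
    rw [h1]; simp [costSplay]
  have hk : keys T ≠ [] := by
    intro h0
    obtain ⟨x, Y, rfl⟩ := List.exists_cons_of_ne_nil hne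
    have := hX x (by simp)
    rw [h0] at this
    simp at this
  have hc := one_le hk h
  have ho : (0 : ℝ) ≤ opt T X := by positivity
  by_cases hs : 4 ≤ ancs X.toFinset T
  · obtain ⟨R, h1, h2, D, h3, h4⟩ := round hb hX hne hs
    have h5 : (costSplay T (X ++ R) : ℝ) ≤ c * D := by
      refine arch (B := B) fun N => ?_
      have h6 := h (List.replicate N (X ++ R)).flatten (fun x hx => by
        rw [List.mem_flatten] at hx
        obtain ⟨l, hl, hx⟩ := hx
        rw [List.eq_of_mem_replicate hl] at hx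
        rcases List.mem_append.1 hx with hx | hx
        · exact hX x hx
        · exact h1 x hx)
      rw [(runS_rep h2 N).2] at h6
      have h7 := opt_le ((h4.rep N).exec)
      have h8 : (opt T (List.replicate N (X ++ R)).flatten : ℝ) ≤ N * D := by exact_mod_cast h7
      push_cast at h6
      nlinarith
    have h6 : (costSplay T X : ℝ) ≤ costSplay T (X ++ R) := by
      rw [costSplay_append]; push_cast; linarith [(Nat.cast_nonneg (costSplay (runS T X) R) : (0:ℝ) ≤ _)]
    have h7 : (D : ℝ) ≤ 140 * opt T X := by exact_mod_cast h3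
    nlinarith
  · have h1 : costSplay T X ≤ 3 * opt T X := by
      have htr := PT.dc_tr X.toFinset T
      have := small (p := PT.dc X.toFinset T) (by rw [htr]; exact hb)
        (by rw [PT.dc_sz]; omega) (X := X) (fun x hx => PT.dc_ks (List.mem_toFinset.2 hx) T (hX x hx))
      rwa [htr] at this
    have h2 : (costSplay T X : ℝ) ≤ 3 * opt T X := by exact_mod_cast h1
    nlinarith

/-! ### lifting executions -/

namespace PT

theorem ks_pr (p : PT) : p.ks = keys (p.pr fun _ => Tr.nil) := by
  induction p with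
  | ext t => rfl
  | node a l r ihl ihr => simp [ks, pr, keys, ihl, ihr]

theorem rot_lift {S S' : Tr} {s : ℕ} (h : Rot S S' s) : ∀ p : PT, p.pr (fun _ => Tr.nil) = S →
    ∃ q : PT, q.pr (fun _ => Tr.nil) = S' ∧ q.fr = p.fr ∧ ∃ s', Rot p.tr q.tr s' := by
  induction h with
  | right a b A B C =>
    intro p hp
    cases p with
    | ext t => simp [pr] at hp
    | node a' l r =>
      simp only [pr, Tr.node.injEq] at hp
      obtain ⟨rfl, h2, h3⟩ := hp
      cases l with
      | ext t => simp [pr] at h2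
      | node b' l1 l2 =>
        simp only [pr, Tr.node.injEq] at h2
        obtain ⟨rfl, h4, h5⟩ := h2
        exact ⟨node b' l1 (node a' l2 r), by simp [pr, h3, h4, h5], by simp [fr],
          _, Rot.right a' b' l1.tr l2.tr r.tr⟩
  | left a b A B C =>
    intro p hp
    cases p with
    | ext t => simp [pr] at hp
    | node b' l r =>
      simp only [pr, Tr.node.injEq] at hp
      obtain ⟨rfl, h2, h3⟩ := hp
      cases r with
      | ext t => simp [pr] at h3
      | node a' r1 r2 =>
        simp only [pr, Tr.node.injEq] at h3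
        obtain ⟨rfl, h4, h5⟩ := h3
        exact ⟨node a' (node b' l r1) r2, by simp [pr, h2, h4, h5], by simp [fr],
          _, Rot.left a' b' l.tr r1.tr r2.tr⟩
  | inl a L L' R s _ ih =>
    intro p hp
    cases p with
    | ext t => simp [pr] at hp
    | node a' l r =>
      simp only [pr, Tr.node.injEq] at hp
      obtain ⟨rfl, h2, h3⟩ := hp
      obtain ⟨q, h4, h5, s', h6⟩ := ih l h2
      exact ⟨node a' q r, by simp [pr, h3, h4], by simp [fr, h5], _, Rot.inl a' _ _ _ s' h6⟩
  | inr a L R R' s _ ih =>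
    intro p hp
    cases p with
    | ext t => simp [pr] at hp
    | node a' l r =>
      simp only [pr, Tr.node.injEq] at hp
      obtain ⟨rfl, h2, h3⟩ := hp
      obtain ⟨q, h4, h5, s', h6⟩ := ih r h3
      exact ⟨node a' l q, by simp [pr, h2, h4], by simp [fr, h5], _, Rot.inr a' _ _ _ s' h6⟩

theorem rotN_lift {S S' : Tr} {e : ℕ} (h : RotN e S S') : ∀ p : PT,
    p.pr (fun _ => Tr.nil) = S →
    ∃ q : PT, q.pr (fun _ => Tr.nil) = S' ∧ q.fr = p.fr ∧ RotN e p.tr q.tr := by
  induction h with
  | refl T => intro p hp; exact ⟨p, hp, rfl, RotN.refl _⟩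
  | step e s T U V h1 _ ih =>
    intro p hp
    obtain ⟨q, h2, h3, s', h4⟩ := rot_lift h1 p hp
    obtain ⟨q', h5, h6, h7⟩ := ih q h2
    exact ⟨q', h5, h6.trans h3, RotN.step e s' _ _ _ h4 h7⟩

theorem exec_lift {S : Tr} {X : List ℕ} {c : ℕ} (h : Exec S X c) : ∀ p : PT,
    p.pr (fun _ => Tr.nil) = S → IsBST p.tr → (∀ x ∈ X, x ∈ p.ks) → Exec p.tr X c := by
  induction h with
  | nil T => intro p _ _ _; exact Exec.nil _
  | cons T T' x Y e c h1 _ ih =>
    intro p hp hb hX
    obtain ⟨q, h2, h3, h4⟩ := rotN_lift h1 p hp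
    have h5 := ih q h2 (bst_congr h3.symm hb) (fun y hy => by
      rw [ks_congr h3]; exact hX y (by simp [hy]))
    have h6 := (pdep hb (hX x (by simp)) (fun _ => Tr.nil)).1
    rw [hp] at h6
    rw [h6]
    exact Exec.cons p.tr q.tr x Y e c h4 h5

/-- a path -/
def lt : List ℕ → Tr
  | [] => Tr.nil
  | a :: L => Tr.node a Tr.nil (lt L)

theorem lt_keys (L : List ℕ) : keys (lt L) = L := by
  induction L with
  | nil => rfl
  | cons a L ih => simp [lt, keys, ih]

theorem fill : ∀ (S : Tr), IsBST S → ∀ L : List ℕ, L.Pairwise (· < ·) → (∀ x ∈ keys S, x ∈ L) →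
    ∃ p : PT, p.pr (fun _ => Tr.nil) = S ∧ keys p.tr = L := by
  intro S
  induction S with
  | nil => intro _ L _ _; exact ⟨ext (lt L), rfl, lt_keys L⟩
  | node a l r ihl ihr =>
    intro hb L hL hsub
    obtain ⟨b1, b2, b3, b4⟩ := bst_node hb
    obtain ⟨L1, L2, rfl⟩ := List.append_of_mem (hsub a (by simp [keys]))
    rw [List.pairwise_append, List.pairwise_cons] at hL
    obtain ⟨hL1, ⟨hL2, hL3⟩, hL4⟩ := hL
    obtain ⟨p, h1, h2⟩ := ihl b1 L1 hL1 (fun x hx => by
      have h3 := hsub x (by simp [keys, hx])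
      have h4 := b3 x hx
      rw [List.mem_append, List.mem_cons] at h3
      rcases h3 with h3 | h3 | h3
      · exact h3
      · omega
      · have := hL2 x h3; omega)
    obtain ⟨q, h3, h4⟩ := ihr b2 L2 hL3 (fun x hx => by
      have h3 := hsub x (by simp [keys, hx])
      have h4 := b4 x hx
      rw [List.mem_append, List.mem_cons] at h3
      rcases h3 with h3 | h3 | h3
      · have := hL4 x h3 a (by simp); omega
      · omega
      · exact h3)
    exact ⟨node a p q, by simp [pr, h1, h3], by simp [tr, keys, h2, h4]⟩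

end PT

theorem change {T T' : Tr} (hb : IsBST T) (hk : keys T = keys T') (hn : 4 ≤ (keys T).length)
    {c B : ℝ} (h : Comp T c B) : ∃ B' : ℝ, Comp T' c B' := by
  have hc : 1 ≤ c := one_le (by intro h0; rw [h0] at hn; simp at hn) h
  obtain ⟨R, h1, h2, h3⟩ := PT.reset (p := PT.full T) (q := PT.full T')
    (by rw [PT.full_fr, PT.full_fr, hk]) (by rw [PT.full_sz]; exact hn) (by rw [PT.full_tr]; exact hb)
  rw [PT.full_tr, PT.full_tr] at h2
  rw [PT.full_tr, PT.full_sz] at h3
  rw [PT.full_ks] at h1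
  refine ⟨c * (132 * (keys T).length) + B, fun Z hZ => ?_⟩
  have h4 := h (R ++ Z) (fun x hx => by
    rcases List.mem_append.1 hx with hx | hx
    · exact h1 x hx
    · rw [hk]; exact hZ x hx)
  rw [costSplay_append, h2] at h4
  obtain ⟨d, h5, h6⟩ := serve R hb h1
  rw [h2] at h6
  obtain ⟨U, h7⟩ := Exec.toE (opt_spec T' Z)
  have h8 := opt_le (h6.append h7).exec
  have h9 : (opt T (R ++ Z) : ℝ) ≤ 132 * (keys T).length + opt T' Z := by
    have : opt T (R ++ Z) ≤ 132 * (keys T).length + opt T' Z := by omega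
    exact_mod_cast this
  push_cast at h4
  have h10 : (0 : ℝ) ≤ costSplay T R := by positivity
  nlinarith

/-- the main theorem for sub-key-sets -/
theorem transferSub {T T' : Tr} (hb : IsBST T) (hb' : IsBST T') (hk : ∀ x ∈ keys T', x ∈ keys T)
    {c B : ℝ} (h : Comp T c B) {X : List ℕ} (hX : ∀ x ∈ X, x ∈ keys T') :
    (costSplay T' X : ℝ) ≤ 140 * c * opt T' X := by
  classical
  rcases eq_or_ne X [] with hX0 | hne
  · subst hX0
    have h1 : opt T' [] = 0 := Nat.le_zero.1 (opt_le (Exec.nil T'))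
    rw [h1]; simp [costSplay]
  have hkT : keys T ≠ [] := by
    intro h0
    obtain ⟨x, Y, rfl⟩ := List.exists_cons_of_ne_nil hne
    have := hk x (hX x (by simp))
    rw [h0] at this
    simp at this
  have hc := one_le hkT h
  have ho : (0 : ℝ) ≤ opt T' X := by positivity
  by_cases hn : 4 ≤ (keys T).length
  · obtain ⟨p, h1, h2⟩ := PT.fill T' hb' (keys T) hb hk
    obtain ⟨B', h3⟩ := change hb h2.symm hn h
    have hbp : IsBST p.tr := by unfold IsBST; rw [h2]; exact hb
    have hpk : ∀ x ∈ X, x ∈ p.ks := fun x hx => by rw [PT.ks_pr, h1]; exact hX x hx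
    have h4 := same hbp h3 (X := X) (fun x hx => by rw [h2]; exact hk x (hX x hx))
    obtain ⟨q, -, h5, -⟩ := PT.prun X hbp hpk
    have h6 := (h5 (fun _ => Tr.nil)).2
    rw [h1] at h6
    have h7 : opt p.tr X ≤ opt T' X := opt_le (PT.exec_lift (opt_spec T' X) p h1 hbp hpk)
    have h8 : (opt p.tr X : ℝ) ≤ opt T' X := by exact_mod_cast h7
    rw [h6]
    nlinarith
  · have h1 : (keys T').length ≤ 3 := by
      have h2 : (keys T').Nodup := List.Pairwise.imp (fun h => ne_of_lt h) hb'
      have h3 := (List.Nodup.subperm h2 hk).length_le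
      omega
    have h2 := small (p := PT.full T') (by rw [PT.full_tr]; exact hb') (by rw [PT.full_sz]; exact h1)
      (X := X) (by rw [PT.full_ks]; exact hX)
    rw [PT.full_tr] at h2
    have h3 : (costSplay T' X : ℝ) ≤ 3 * opt T' X := by exact_mod_cast h2
    nlinarith

end Pool.Agent.R531.Spl
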