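import Pool.Agent.R531.Spl.Sub

set_option autoImplicit false

/-! Equivalent forms of the dynamic optimality of splaying. -/

namespace Pool.Agent.R531.Spl

open Pool.Agent.H581R2.Splay Pool.Agent.TH49.Spl Pool.Agent.TH22.SP Pool.Agent.Y395.SP

theorem transferSubAdd {T T' : Tr} (hb : IsBST T) (hb' : IsBST T')
    (hk : ∀ x ∈ keys T', x ∈ keys T) (hn : 4 ≤ (keys T).length)
    {c B : ℝ} (h : Comp T c B) : ∃ B' : ℝ, Comp T' c B' := by
  have hc : 1 ≤ c := one_le (by intro h0; rw [h0] at hn; simp at hn) h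
  obtain ⟨p, h1, h2⟩ := PT.fill T' hb' (keys T) hb hk
  obtain ⟨B', h3⟩ := change hb h2.symm hn h
  have hbp : IsBST p.tr := by unfold IsBST; rw [h2]; exact hb
  refine ⟨B', fun X hX => ?_⟩
  have hpk : ∀ x ∈ X, x ∈ p.ks := fun x hx => by rw [PT.ks_pr, h1]; exact hX x hx
  have h4 := h3 X (fun x hx => by rw [h2]; exact hk x (hX x hx))
  obtain ⟨q, -, h5, -⟩ := PT.prun X hbp hpk
  have h6 := (h5 (fun _ => Tr.nil)).2
  rw [h1] at h6
  have h7 : opt p.tr X ≤ opt T' X := opt_le (PT.exec_lift (opt_spec T' X) p h1 hbp hpk)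
  have h8 : (opt p.tr X : ℝ) ≤ opt T' X := by exact_mod_cast h7
  rw [h6]
  nlinarith

/-- a strictly increasing relabelling of `K'` into `K` -/
theorem exists_relabel {K K' : List ℕ} (hK : K.Pairwise (· < ·)) (hk : K'.length ≤ K.length) :
    ∃ g : ℕ → ℕ, MonoS g K' ∧ ∀ k ∈ K', g k ∈ K := by
  have hgk : ∀ k ∈ K', ∃ hlt : rk K' k < K.length, K.getD (rk K' k) 0 = K[rk K' k] := by
    intro k hk'
    have h1 := rk_lt_length hk'
    exact ⟨by omega, by rw [List.getD_eq_getElem]⟩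
  refine ⟨fun k => K.getD (rk K' k) 0, ?_, ?_⟩
  · intro a ha b hb1 hab
    obtain ⟨h1, h2⟩ := hgk a ha
    obtain ⟨h3, h4⟩ := hgk b hb1
    show K.getD (rk K' a) 0 < K.getD (rk K' b) 0
    rw [h2, h4]
    exact (List.pairwise_iff_getElem.1 hK) _ _ h1 h3 (rk_lt ha hab)
  · intro k hk'
    obtain ⟨h1, h2⟩ := hgk k hk'
    show K.getD (rk K' k) 0 ∈ K
    rw [h2]
    exact List.getElem_mem h1

theorem transferAdd {T T' : Tr} (hb : IsBST T) (hb' : IsBST T')
    (hk : (keys T').length ≤ (keys T).length) (hn : 4 ≤ (keys T).length)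
    {c B : ℝ} (h : Comp T c B) : ∃ B' : ℝ, Comp T' c B' := by
  have hc : 1 ≤ c := one_le (by intro h0; rw [h0] at hn; simp at hn) h
  obtain ⟨g, h1, h2⟩ := exists_relabel hb hk
  obtain ⟨B', h3⟩ := transferSubAdd hb (map_bst hb' h1) (fun x hx => by
    rw [mp_keys, List.mem_map] at hx
    obtain ⟨k, hk', rfl⟩ := hx
    exact h2 k hk') hn h
  refine ⟨B', fun X hX => ?_⟩
  have h4 := h3 (X.map g) (fun x hx => by
    rw [List.mem_map] at hx
    obtain ⟨k, hk', rfl⟩ := hx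
    rw [mp_keys]
    exact List.mem_map_of_mem (hX k hk'))
  rw [cost_mp h1 X hb' (fun k h => h) hX] at h4
  have h5 := opt_le (exec_mp h1 (opt_spec T' X) (fun k h => h) hX)
  have h6 : (opt (mp g T') (X.map g) : ℝ) ≤ opt T' X := by exact_mod_cast h5
  nlinarith

/-- closed sequences suffice -/
theorem closed_comp {T : Tr} (hb : IsBST T) {c : ℕ}
    (h : ∀ (Z : List ℕ) (D : ℕ), (∀ z ∈ Z, z ∈ keys T) → runS T Z = T → ExecE T Z T D →
      costSplay T Z ≤ c * D) {X : List ℕ} (hX : ∀ x ∈ X, x ∈ keys T) :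
    costSplay T X ≤ (140 * c + 3) * opt T X := by
  classical
  rcases eq_or_ne X [] with hX0 | hne
  · subst hX0; simp [costSplay]
  by_cases hs : 4 ≤ ancs X.toFinset T
  · obtain ⟨R, h1, h2, D, h3, h4⟩ := round hb hX hne hs
    have h5 := h (X ++ R) D (fun x hx => by
      rcases List.mem_append.1 hx with hx | hx
      · exact hX x hx
      · exact h1 x hx) h2 h4
    rw [costSplay_append] at h5
    have h6 : c * D ≤ c * (140 * opt T X) := Nat.mul_le_mul_left c h3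
    nlinarith
  · have h1 : costSplay T X ≤ 3 * opt T X := by
      have htr := PT.dc_tr X.toFinset T
      have := small (p := PT.dc X.toFinset T) (by rw [htr]; exact hb)
        (by rw [PT.dc_sz]; omega) (X := X) (fun x hx => PT.dc_ks (List.mem_toFinset.2 hx) T (hX x hx))
      rwa [htr] at this
    nlinarith

/-- the optimum with free choice of the initial tree -/
theorem optAny_spec {T : Tr} (X : List ℕ) :
    ∃ U : Tr, keys U = keys T ∧ Exec U X (optAny (keys T) X) := by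
  have h : {c : ℕ | ∃ U : Tr, keys U = keys T ∧ Exec U X c}.Nonempty := by
    obtain ⟨c, hc⟩ := exec_exists X T
    exact ⟨c, T, rfl, hc⟩
  exact Nat.sInf_mem h

theorem optAny_le (T : Tr) (X : List ℕ) : optAny (keys T) X ≤ opt T X :=
  Nat.sInf_le (s := {c : ℕ | ∃ U : Tr, keys U = keys T ∧ Exec U X c}) ⟨T, rfl, opt_spec T X⟩

theorem opt_le_optAny {T : Tr} (hb : IsBST T) {X : List ℕ} (hX : ∀ x ∈ X, x ∈ keys T) :
    opt T X ≤ optAny (keys T) X + 7 * (keys T).length := by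
  obtain ⟨U, h1, h2⟩ := optAny_spec (T := T) X
  generalize optAny (keys T) X = d at h2 ⊢
  cases h2 with
  | nil => exact (opt_le (Exec.nil T)).trans (Nat.zero_le _)
  | cons _ V x Y e c h3 h4 =>
    obtain ⟨n, hn, h5⟩ := PT.connect (p := PT.full T) (q := PT.full U)
      (by rw [PT.full_fr, PT.full_fr, h1])
    have h6 := PT.rots h5
    rw [PT.full_tr, PT.full_tr] at h6
    rw [PT.full_sz] at hn
    have h7 := opt_le (Exec.cons T V x Y _ c (rotN_trans h6 h3) h4)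
    have h8 := (PT.pdep (p := PT.full T) (x := x) (by rw [PT.full_tr]; exact hb)
      (by rw [PT.full_ks]; exact hX x (by simp)) id).2
    rw [PT.full_tr, PT.full_sz] at h8
    omega

/-- dynamic optimality -/
def DynOpt : Prop := ∃ c : ℕ, ∀ T : Tr, IsBST T → ∀ X : List ℕ, (∀ x ∈ X, x ∈ keys T) →
  costSplay T X ≤ c * opt T X

/-- asymptotically, for one tree of each of infinitely many sizes -/
def WeakOpt : Prop := ∃ c : ℕ, ∀ N : ℕ, ∃ T : Tr, IsBST T ∧ N ≤ (keys T).length ∧ ∃ B : ℕ,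
  ∀ X : List ℕ, (∀ x ∈ X, x ∈ keys T) → costSplay T X ≤ c * opt T X + B

theorem weak_dyn (h : WeakOpt) : DynOpt := by
  obtain ⟨c, h⟩ := h
  refine ⟨140 * c, fun T' hb' X hX => ?_⟩
  obtain ⟨T, hb, hN, B, h1⟩ := h (keys T').length
  have h2 : Comp T c B := fun Z hZ => by exact_mod_cast h1 Z hZ
  have h3 := transfer hb hb' hN h2 hX
  exact_mod_cast h3

theorem range_tree (N : ℕ) : ∃ T : Tr, IsBST T ∧ N ≤ (keys T).length := by
  refine ⟨PT.lt (List.range N), ?_, ?_⟩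
  · unfold IsBST; rw [PT.lt_keys]; exact List.pairwise_lt_range
  · rw [PT.lt_keys, List.length_range]

/-- with the optimum over all initial trees -/
def TextOpt : Prop := ∃ c : ℕ, ∀ T : Tr, IsBST T → ∃ B : ℕ, ∀ X : List ℕ,
  (∀ x ∈ X, x ∈ keys T) → costSplay T X ≤ c * optAny (keys T) X + B

theorem dyn_text (h : DynOpt) : TextOpt := by
  obtain ⟨c, h⟩ := h
  refine ⟨c, fun T hb => ⟨c * (7 * (keys T).length), fun X hX => ?_⟩⟩
  have h1 := h T hb X hX
  have h2 := opt_le_optAny hb hX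
  calc costSplay T X ≤ c * opt T X := h1
    _ ≤ c * (optAny (keys T) X + 7 * (keys T).length) := Nat.mul_le_mul_left c h2
    _ = _ := by ring

theorem text_weak (h : TextOpt) : WeakOpt := by
  obtain ⟨c, h⟩ := h
  refine ⟨c, fun N => ?_⟩
  obtain ⟨T, hb, hN⟩ := range_tree N
  obtain ⟨B, h1⟩ := h T hb
  refine ⟨T, hb, hN, B, fun X hX => (h1 X hX).trans ?_⟩
  exact Nat.add_le_add_right (Nat.mul_le_mul_left c (optAny_le T X)) B

/-- for closed sequences and closed executions, for one tree of each of infinitely many sizes -/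
def ClosedOpt : Prop := ∃ c : ℕ, ∀ N : ℕ, ∃ T : Tr, IsBST T ∧ N ≤ (keys T).length ∧
  ∀ (Z : List ℕ) (D : ℕ), (∀ z ∈ Z, z ∈ keys T) → runS T Z = T → ExecE T Z T D →
    costSplay T Z ≤ c * D

theorem closed_weak (h : ClosedOpt) : WeakOpt := by
  obtain ⟨c, h⟩ := h
  refine ⟨140 * c + 3, fun N => ?_⟩
  obtain ⟨T, hb, hN, h1⟩ := h N
  exact ⟨T, hb, hN, 0, fun X hX => closed_comp hb h1 hX⟩

theorem dyn_closed (h : DynOpt) : ClosedOpt := by
  obtain ⟨c, h⟩ := h
  refine ⟨c, fun N => ?_⟩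
  obtain ⟨T, hb, hN⟩ := range_tree N
  exact ⟨T, hb, hN, fun Z D hZ _ hD =>
    (h T hb Z hZ).trans (Nat.mul_le_mul_left c (opt_le hD.exec))⟩

/-- the subsequence property, asymptotically, for one tree of each of infinitely many sizes -/
def WeakSub : Prop := ∃ c : ℕ, ∀ N : ℕ, ∃ T : Tr, IsBST T ∧ N ≤ (keys T).length ∧ ∃ B : ℕ,
  ∀ Z X : List ℕ, (∀ z ∈ Z, z ∈ keys T) → X.Sublist Z → costSplay T X ≤ c * costSplay T Z + B

theorem sub_weak (h : WeakSub) : WeakOpt := by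
  obtain ⟨c, h⟩ := h
  refine ⟨331 * c, fun N => ?_⟩
  obtain ⟨T, hb, hN, B, h1⟩ := h (N + 4)
  refine ⟨T, hb, by omega, B, fun X hX => ?_⟩
  obtain ⟨Z, h2, h3, h4⟩ := simulate hb (by omega) hX
  have h5 := h1 Z X h3 h2
  have h6 : c * costSplay T Z ≤ c * (331 * opt T X) := Nat.mul_le_mul_left c h4
  nlinarith

/-- the subsequence property -/
def SubOpt : Prop := ∃ c : ℕ, ∀ T : Tr, IsBST T → ∀ Z X : List ℕ, (∀ z ∈ Z, z ∈ keys T) →
  X.Sublist Z → costSplay T X ≤ c * costSplay T Z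

theorem dyn_sub (h : DynOpt) : SubOpt := by
  obtain ⟨c, h⟩ := h
  refine ⟨c * 4, fun T hb Z X hZ hX => ?_⟩
  have h1 := h T hb X (fun x hx => hZ x (hX.subset hx))
  have h2 := opt_sub hb hX
  obtain ⟨d, h3, h4⟩ := serve Z hb hZ
  have h5 := opt_le h4.exec
  calc costSplay T X ≤ c * opt T X := h1
    _ ≤ c * (4 * costSplay T Z) := Nat.mul_le_mul_left c (by omega)
    _ = _ := by ring

theorem sub_weakSub (h : SubOpt) : WeakSub := by
  obtain ⟨c, h⟩ := h
  refine ⟨c, fun N => ?_⟩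
  obtain ⟨T, hb, hN⟩ := range_tree N
  exact ⟨T, hb, hN, 0, fun Z X hZ hX => h T hb Z X hZ hX⟩

/-- the failure form -/
theorem failure (h : ¬ DynOpt) (c : ℕ) : ∃ N : ℕ, ∀ T : Tr, IsBST T → N ≤ (keys T).length →
    ∃ (Z : List ℕ) (s D : ℕ), (∀ z ∈ Z, z ∈ keys T) ∧ c * D < s ∧
      ∀ k : ℕ, costSplay T (List.replicate k Z).flatten = k * s ∧
        opt T (List.replicate k Z).flatten ≤ k * D := by
  by_contra hcon
  push Not at hcon
  refine h (weak_dyn (closed_weak ⟨c, fun N => ?_⟩))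
  obtain ⟨T, hb, hN, h1⟩ := hcon N
  refine ⟨T, hb, hN, fun Z D hZ hr hD => ?_⟩
  by_contra hlt
  push Not at hlt
  obtain ⟨k, hk⟩ := h1 Z (costSplay T Z) D hZ hlt
  have := hk (runS_rep hr k).2
  have h2 := opt_le (hD.rep k).exec
  omega

end Pool.Agent.R531.Spl
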