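import Pool.Agent.R531.Spl.PSplay

set_option autoImplicit false

/-! Executions with a given final tree. -/

namespace Pool.Agent.R531.Spl

open Pool.Agent.H581R2.Splay Pool.Agent.TH49.Spl

theorem rot_symm {T T' : Tr} {s : ℕ} (h : Rot T T' s) : ∃ s', Rot T' T s' := by
  induction h with
  | right a b A B C => exact ⟨_, Rot.left a b A B C⟩
  | left a b A B C => exact ⟨_, Rot.right a b A B C⟩
  | inl a L L' R s _ ih => obtain ⟨s', h'⟩ := ih; exact ⟨_, Rot.inl a _ _ R s' h'⟩
  | inr a L R R' s _ ih => obtain ⟨s', h'⟩ := ih; exact ⟨_, Rot.inr a L _ _ s' h'⟩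

theorem rotN_trans {e e' : ℕ} {T T' T'' : Tr} (h : RotN e T T') (h' : RotN e' T' T'') :
    RotN (e + e') T T'' := by
  induction h with
  | refl T => rwa [Nat.zero_add]
  | step e s T U V h1 _ ih =>
    rw [show e + 1 + e' = (e + e') + 1 by ring]
    exact RotN.step _ s _ _ _ h1 (ih h')

theorem rotN_symm {e : ℕ} {T T' : Tr} (h : RotN e T T') : RotN e T' T := by
  induction h with
  | refl T => exact RotN.refl T
  | step e s T U V h1 _ ih =>
    obtain ⟨s', h2⟩ := rot_symm h1
    exact rotN_trans ih (RotN.step 0 s' _ _ _ h2 (RotN.refl T))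

theorem rot_plug {T T' : Tr} {s : ℕ} (h : Rot T T' s) (fs : List Fr) :
    ∃ s', Rot (plug fs T) (plug fs T') s' := by
  induction fs generalizing T T' s with
  | nil => exact ⟨s, h⟩
  | cons f fs ih =>
    simp only [plug]
    cases f with
    | inL a r => exact ih (Rot.inl a _ _ r s h)
    | inR a l => exact ih (Rot.inr a l _ _ s h)

theorem rotN_plug {e : ℕ} {T T' : Tr} (h : RotN e T T') (fs : List Fr) :
    RotN e (plug fs T) (plug fs T') := by
  induction h with
  | refl T => exact RotN.refl _
  | step e s T U V h1 _ ih =>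
    obtain ⟨s', h2⟩ := rot_plug h1 fs
    exact RotN.step _ s' _ _ _ h2 ih

theorem rotN_one {T T' : Tr} {s : ℕ} (h : Rot T T' s) : RotN 1 T T' :=
  RotN.step 0 s _ _ _ h (RotN.refl T')

theorem rotN_two {T T' T'' : Tr} {s s' : ℕ} (h : Rot T T' s) (h' : Rot T' T'' s') : RotN 2 T T'' :=
  RotN.step 1 s _ _ _ h (rotN_one h')

open Tr in
theorem climb_rotN (x : ℕ) : ∀ (fs : List Fr) (l r : Tr),
    RotN fs.length (plug fs (node x l r)) (climb x fs l r) := by
  intro fs
  induction hn : fs.length using Nat.strong_induction_on generalizing fs with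
  | _ n ih =>
    intro l r
    match fs, hn with
    | [], hn => subst hn; exact RotN.refl _
    | [Fr.inL y c], hn => subst hn; exact rotN_one (Rot.right y x l r c)
    | [Fr.inR y c], hn => subst hn; exact rotN_one (Rot.left x y c l r)
    | Fr.inL y c :: Fr.inL z d :: fs, hn =>
      simp only [List.length_cons] at hn
      have h1 : RotN 2 (node z (node y (node x l r) c) d) (node x l (node y r (node z c d))) :=
        rotN_two (Rot.right z y (node x l r) c d) (Rot.right y x l r (node z c d))
      have h2 := rotN_trans (rotN_plug h1 fs) (ih fs.length (by omega) fs rfl l (node y r (node z c d)))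
      rw [show n = 2 + fs.length by omega]
      exact h2
    | Fr.inR y c :: Fr.inR z d :: fs, hn =>
      simp only [List.length_cons] at hn
      have h1 : RotN 2 (node z d (node y c (node x l r))) (node x (node y (node z d c) l) r) :=
        rotN_two (Rot.left y z d c (node x l r)) (Rot.left x y (node z d c) l r)
      have h2 := rotN_trans (rotN_plug h1 fs) (ih fs.length (by omega) fs rfl (node y (node z d c) l) r)
      rw [show n = 2 + fs.length by omega]
      exact h2
    | Fr.inL y c :: Fr.inR z d :: fs, hn =>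
      simp only [List.length_cons] at hn
      have h1 : RotN 2 (node z d (node y (node x l r) c)) (node x (node z d l) (node y r c)) :=
        rotN_two (Rot.inr z d _ _ _ (Rot.right y x l r c)) (Rot.left x z d l (node y r c))
      have h2 := rotN_trans (rotN_plug h1 fs) (ih fs.length (by omega) fs rfl (node z d l) (node y r c))
      rw [show n = 2 + fs.length by omega]
      exact h2
    | Fr.inR y c :: Fr.inL z d :: fs, hn =>
      simp only [List.length_cons] at hn
      have h1 : RotN 2 (node z (node y c (node x l r)) d) (node x (node y c l) (node z r d)) :=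
        rotN_two (Rot.inl z _ _ d _ (Rot.left x y c l r)) (Rot.right z x (node y c l) r d)
      have h2 := rotN_trans (rotN_plug h1 fs) (ih fs.length (by omega) fs rfl (node y c l) (node z r d))
      rw [show n = 2 + fs.length by omega]
      exact h2

theorem splay_rotN {x : ℕ} {T : Tr} (hb : IsBST T) (hx : x ∈ keys T) :
    RotN (dep x T) T (splay x T) := by
  obtain ⟨h1, h2⟩ := locate_spec x T [] hb hx
  have h3 := climb_rotN x (locate x T []).1 (locate x T []).2.1 (locate x T []).2.2
  rw [h1, h2] at h3
  simp only [List.length_nil, Nat.zero_add, plug] at h3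
  exact h3

/-- executions with a given final tree -/
inductive ExecE : Tr → List ℕ → Tr → ℕ → Prop
  | nil (T : Tr) : ExecE T [] T 0
  | cons (T T' T'' : Tr) (x : ℕ) (Y : List ℕ) (e c : ℕ) :
      RotN e T T' → ExecE T' Y T'' c → ExecE T (x :: Y) T'' (1 + e + dep x T + c)

theorem Exec.toE {T : Tr} {X : List ℕ} {c : ℕ} (h : Exec T X c) : ∃ T', ExecE T X T' c := by
  induction h with
  | nil T => exact ⟨T, ExecE.nil T⟩
  | cons T T' x Y e c h1 _ ih =>
    obtain ⟨T'', h2⟩ := ih
    exact ⟨T'', ExecE.cons T T' T'' x Y e c h1 h2⟩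

theorem ExecE.exec {T T' : Tr} {X : List ℕ} {c : ℕ} (h : ExecE T X T' c) : Exec T X c := by
  induction h with
  | nil T => exact Exec.nil T
  | cons T T' T'' x Y e c h1 _ ih => exact Exec.cons T T' x Y e c h1 ih

theorem ExecE.append {T T' T'' : Tr} {X Y : List ℕ} {c c' : ℕ} (h : ExecE T X T' c)
    (h' : ExecE T' Y T'' c') : ExecE T (X ++ Y) T'' (c + c') := by
  induction h with
  | nil T => simpa using h'
  | cons T T1 T2 x Z e c h1 _ ih =>
    have := ExecE.cons T T1 T'' x (Z ++ Y) e (c + c') h1 (ih h')
    rw [show 1 + e + dep x T + c + c' = 1 + e + dep x T + (c + c') by ring]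
    exact this

theorem ExecE.more {T T' T'' : Tr} {X : List ℕ} {c e' : ℕ} (h : ExecE T X T' c)
    (h' : RotN e' T' T'') : X ≠ [] → ExecE T X T'' (c + e') := by
  induction h with
  | nil T => intro h; exact absurd rfl h
  | cons T T1 T2 x Z e c h1 h2 ih =>
    intro _
    cases h2 with
    | nil =>
      have := ExecE.cons T T'' T'' x [] (e + e') 0 (rotN_trans h1 h') (ExecE.nil T'')
      rw [show 1 + e + dep x T + 0 + e' = 1 + (e + e') + dep x T + 0 by ring]
      exact this
    | cons T3 T4 T5 y W f d h3 h4 =>
      have h5 := ih h' (by simp)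
      have := ExecE.cons T T1 T'' x _ e _ h1 h5
      rw [show 1 + e + dep x T + (1 + f + dep y T1 + d) + e' =
        1 + e + dep x T + (1 + f + dep y T1 + d + e') by ring]
      exact this

theorem ExecE.rots {T T' : Tr} {X : List ℕ} {c : ℕ} (h : ExecE T X T' c) :
    ∃ e ≤ c, RotN e T T' := by
  induction h with
  | nil T => exact ⟨0, le_rfl, RotN.refl T⟩
  | cons T T1 T2 x Z e c h1 _ ih =>
    obtain ⟨e', h2, h3⟩ := ih
    exact ⟨e + e', by omega, rotN_trans h1 h3⟩

theorem ExecE.keys_eq {T T' : Tr} {X : List ℕ} {c : ℕ} (h : ExecE T X T' c) :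
    keys T' = keys T := by
  obtain ⟨e, _, h1⟩ := h.rots
  exact rotN_keys h1

theorem ExecE.rep {T : Tr} {X : List ℕ} {c : ℕ} (h : ExecE T X T c) (N : ℕ) :
    ExecE T (List.replicate N X).flatten T (N * c) := by
  induction N with
  | zero => simpa using ExecE.nil T
  | succ N ih =>
    rw [List.replicate_succ, List.flatten_cons]
    have := h.append ih
    rw [show (N + 1) * c = c + N * c by ring]
    exact this

theorem runS_rep {T : Tr} {X : List ℕ} (h : runS T X = T) (N : ℕ) :
    runS T (List.replicate N X).flatten = T ∧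
    costSplay T (List.replicate N X).flatten = N * costSplay T X := by
  induction N with
  | zero => simp [runS, costSplay]
  | succ N ih =>
    rw [List.replicate_succ, List.flatten_cons, runS_append, costSplay_append, h, ih.1, ih.2]
    exact ⟨rfl, by ring⟩

/-- splaying is an execution -/
theorem serve : ∀ (X : List ℕ) {T : Tr}, IsBST T → (∀ x ∈ X, x ∈ keys T) →
    ∃ c ≤ 2 * costSplay T X, ExecE T X (runS T X) c := by
  intro X
  induction X with
  | nil => intro T _ _; exact ⟨0, by simp, ExecE.nil T⟩
  | cons x X ih =>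
    intro T hb hX
    have hx := hX x (by simp)
    have hk := splay_keys hb hx
    have hb' : IsBST (splay x T) := by unfold IsBST; rw [hk]; exact hb
    obtain ⟨c, h1, h2⟩ := ih hb' (fun y hy => by rw [hk]; exact hX y (by simp [hy]))
    refine ⟨1 + dep x T + dep x T + c, ?_, ExecE.cons T _ _ x X _ c (splay_rotN hb hx) h2⟩
    simp only [costSplay]
    omega

theorem opt_le {T : Tr} {X : List ℕ} {c : ℕ} (h : Exec T X c) : Y395.SP.opt T X ≤ c :=
  Nat.sInf_le (s := {c : ℕ | Exec T X c}) h

end Pool.Agent.R531.Spl
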