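import Pool.Agent.TH22.SP.Clos
import Pool.Agent.Y395.SP.Stm

set_option autoImplicit false

/-! Every execution costs at least the number of nodes of the initial tree which lie on the search
paths of the requested keys. -/

namespace Pool.Agent.R531.Spl

open Pool.Agent.H581R2.Splay Tr Pool.Agent.TH49.Spl Pool.Agent.TH22.SP

theorem rot_keys {T T' : Tr} {s : ℕ} (h : Rot T T' s) : keys T' = keys T := by
  induction h with
  | right a b A B C => simp [keys]
  | left a b A B C => simp [keys]
  | inl a L L' R s _ ih => simp [keys, ih]
  | inr a L R R' s _ ih => simp [keys, ih]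

theorem rotN_keys {e : ℕ} {T T' : Tr} (h : RotN e T T') : keys T' = keys T := by
  induction h with
  | refl T => rfl
  | step e s T T' T'' h1 _ ih => rw [ih, rot_keys h1]

theorem ancs_node_congr {E : Finset ℕ} {a b : ℕ} {l r l' r' : Tr}
    (h : keys (node a l r) = keys (node b l' r')) (h1 : ancs E l + ancs E r ≤ ancs E l' + ancs E r' + 1) :
    ancs E (node a l r) ≤ ancs E (node b l' r') + 1 := by
  classical
  have hm := meets_congr (E := E) h
  by_cases h2 : Meets E (node a l r)
  · rw [ancs_of_meets h2, ancs_of_meets (hm.1 h2)]; omega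
  · rw [ancs_not_meets h2]; omega

theorem ancs_rot {E : Finset ℕ} {T T' : Tr} {s : ℕ} (h : Rot T T' s) :
    ancs E T ≤ ancs E T' + 1 := by
  induction h with
  | right a b A B C =>
    refine ancs_node_congr (by simp [keys]) ?_
    have h1 := ancs_le E b A B
    have h2 := le_ancs E a B C
    omega
  | left a b A B C =>
    refine ancs_node_congr (by simp [keys]) ?_
    have h1 := ancs_le E a B C
    have h2 := le_ancs E b A B
    omega
  | inl a L L' R s h ih => exact ancs_node_congr (by simp [keys, rot_keys h]) (by omega)
  | inr a L R R' s h ih => exact ancs_node_congr (by simp [keys, rot_keys h]) (by omega)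

theorem ancs_rotN {E : Finset ℕ} {e : ℕ} {T T' : Tr} (h : RotN e T T') :
    ancs E T ≤ ancs E T' + e := by
  induction h with
  | refl T => simp
  | step e s T T' T'' h1 _ ih =>
    have := ancs_rot (E := E) h1
    omega

theorem not_meets_single {x : ℕ} {t : Tr} (h : x ∉ keys t) : ¬ Meets {x} t := by
  rintro ⟨k, hk, hE⟩
  rw [Finset.mem_singleton] at hE
  exact h (hE ▸ hk)

theorem ancs_single {x : ℕ} : ∀ {t : Tr}, IsBST t → ancs {x} t ≤ 1 + dep x t := by
  intro t
  induction t with
  | nil => intro _; simp [ancs]
  | node a l r ihl ihr =>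
    intro hb
    obtain ⟨b1, b2, b3, b4⟩ := bst_node hb
    have h1 := ancs_le {x} a l r
    rcases lt_trichotomy x a with h | h | h
    · have h2 : x ∉ keys r := fun hx => by have := b4 x hx; omega
      rw [dep_l h]
      rw [ancs_not_meets (not_meets_single h2)] at h1
      have := ihl b1
      omega
    · have h2 : x ∉ keys r := fun hx => by have := b4 x hx; omega
      have h3 : x ∉ keys l := fun hx => by have := b3 x hx; omega
      rw [ancs_not_meets (not_meets_single h2), ancs_not_meets (not_meets_single h3)] at h1
      omega
    · have h2 : x ∉ keys l := fun hx => by have := b3 x hx; omega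
      rw [dep_r h]
      rw [ancs_not_meets (not_meets_single h2)] at h1
      have := ihr b2
      omega

theorem ancs_insert {E : Finset ℕ} {x : ℕ} : ∀ t : Tr, ancs (insert x E) t ≤ ancs {x} t + ancs E t := by
  classical
  intro t
  induction t with
  | nil => simp [ancs]
  | node a l r ihl ihr =>
    by_cases h : Meets (insert x E) (node a l r)
    · have h' : Meets {x} (node a l r) ∨ Meets E (node a l r) := by
        obtain ⟨k, hk, hE⟩ := h
        rw [Finset.mem_insert] at hE
        rcases hE with hE | hE
        · exact Or.inl ⟨k, hk, by rw [Finset.mem_singleton]; exact hE⟩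
        · exact Or.inr ⟨k, hk, hE⟩
      rw [ancs_of_meets h]
      rcases h' with h' | h'
      · rw [ancs_of_meets h']
        have := le_ancs E a l r
        omega
      · rw [ancs_of_meets h']
        have := le_ancs {x} a l r
        omega
    · rw [ancs_not_meets h]; omega

theorem ancs_empty (t : Tr) : ancs ∅ t = 0 :=
  ancs_not_meets (by rintro ⟨k, _, h⟩; simp at h)

/-- every execution costs at least the number of nodes on the search paths of the requested keys
in the initial tree -/
theorem ancs_le_exec {T : Tr} {X : List ℕ} {c : ℕ} (h : Exec T X c) : IsBST T →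
    ancs X.toFinset T ≤ c := by
  induction h with
  | nil T => intro _; simp [ancs_empty]
  | cons T T' x Y e c hr _ ih =>
    intro hb
    have hb' : IsBST T' := by unfold IsBST; rw [rotN_keys hr]; exact hb
    have h1 := ih hb'
    have h2 := ancs_rotN (E := Y.toFinset) hr
    have h3 := ancs_single (x := x) hb
    have h4 := ancs_insert (E := Y.toFinset) (x := x) T
    rw [List.toFinset_cons]
    omega

theorem exec_exists (X : List ℕ) (T : Tr) : ∃ c, Exec T X c := by
  induction X with
  | nil => exact ⟨0, Exec.nil T⟩
  | cons x X ih =>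
    obtain ⟨c, hc⟩ := ih
    exact ⟨_, Exec.cons T T x X 0 c (RotN.refl T) hc⟩

theorem length_le_exec {T : Tr} {X : List ℕ} {c : ℕ} (h : Exec T X c) : X.length ≤ c := by
  induction h with
  | nil T => simp
  | cons T T' x Y e c hr _ ih => simp only [List.length_cons]; omega

theorem opt_spec (T : Tr) (X : List ℕ) : Exec T X (Y395.SP.opt T X) :=
  Nat.sInf_mem (s := {c : ℕ | Exec T X c}) (exec_exists X T)

theorem ancs_le_opt {T : Tr} (hb : IsBST T) (X : List ℕ) : ancs X.toFinset T ≤ Y395.SP.opt T X :=
  ancs_le_exec (opt_spec T X) hb

theorem length_le_opt (T : Tr) (X : List ℕ) : X.length ≤ Y395.SP.opt T X :=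
  length_le_exec (opt_spec T X)

end Pool.Agent.R531.Spl
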