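import Pool.Agent.R531.Spl.WS
import Pool.Agent.R531.Spl.Low

set_option autoImplicit false

/-! Splaying without an additive term: assembly. -/

namespace Pool.Agent.R531.Spl

open Pool.Agent.H581R2.Splay Tr Pool.Agent.TH49.Spl Pool.Agent.Y395.SP Pool.Agent.TH22.SP

theorem wt_zero_of {w : ℕ → ℝ} {t : Tr} (h : ∀ a ∈ keys t, w a = 0) : wt w t = 0 := by
  induction t with
  | nil => simp [wt]
  | node a l r ihl ihr =>
    simp only [wt]
    rw [h a (by simp [keys]), ihl (fun b hb => h b (by simp [keys, hb])),
      ihr (fun b hb => h b (by simp [keys, hb]))]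
    ring

/-- the start-up potential is at most `2 + log W` for each node above a key of `E` -/
theorem P_le {w : ℕ → ℝ} (hw : W1 w) {E : Finset ℕ} (hE : ∀ a, a ∉ E → w a = 0) {W : ℝ}
    (hW : 1 ≤ W) : ∀ t : Tr, wt w t ≤ W → P w t ≤ ancs E t * (2 + Real.logb 2 W) := by
  classical
  intro t
  induction t with
  | nil => intro _; simp [P, ancs]
  | node a l r ihl ihr =>
    intro h
    have hl : wt w l ≤ W := by
      have := hw.nonneg a; have := wt_nn hw r; simp only [wt] at h; linarith
    have hr : wt w r ≤ W := by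
      have := hw.nonneg a; have := wt_nn hw l; simp only [wt] at h; linarith
    have h1 := ihl hl
    have h2 := ihr hr
    have hL := log_nn hW
    by_cases hm : Meets E (node a l r)
    · rw [ancs_of_meets hm]
      have h3 := g_le (wt_one hw (node a l r)) hW h
      simp only [P]
      push_cast
      nlinarith
    · have h0 : wt w (node a l r) = 0 := wt_zero_of (fun b hb => hE b (fun hc => hm ⟨b, hb, hc⟩))
      have h3 : (ancs E l : ℝ) + ancs E r ≤ ancs E (node a l r) := by
        exact_mod_cast le_ancs E a l r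
      simp only [P]
      rw [h0, g_zero]
      nlinarith

/-- the weight one for the keys of `E` -/
noncomputable def one (E : Finset ℕ) (a : ℕ) : ℝ := if a ∈ E then 1 else 0

theorem one_W1 (E : Finset ℕ) : W1 (one E) := by
  intro a; unfold one; split_ifs <;> simp

theorem wt_one_E {E : Finset ℕ} {T : Tr} (hb : IsBST T) : wt (one E) T ≤ E.card := by
  have nod : (keys T).Nodup := List.Pairwise.imp (fun {a b} h => by omega) hb
  rw [wt_eq, ← List.sum_toFinset _ nod]
  unfold one
  rw [Finset.sum_ite_mem, Finset.sum_const, nsmul_eq_mul, mul_one]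
  exact_mod_cast Finset.card_le_card Finset.inter_subset_right

theorem mem_le_wt {w : ℕ → ℝ} (hw : W1 w) {x : ℕ} {S : Tr} (hx : x ∈ keys S) : w x ≤ wt w S := by
  obtain ⟨s1, s2, hs⟩ := List.append_of_mem hx
  rw [wt_eq, hs, List.map_append, List.sum_append, List.map_cons, List.sum_cons]
  have q1 : 0 ≤ (s1.map w).sum := List.sum_nonneg (by
    intro y hy
    obtain ⟨z, -, rfl⟩ := List.mem_map.1 hy
    exact hw.nonneg z)
  have q2 : 0 ≤ (s2.map w).sum := List.sum_nonneg (by
    intro y hy
    obtain ⟨z, -, rfl⟩ := List.mem_map.1 hy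
    exact hw.nonneg z)
  linarith

/-- splaying costs at most `4 (1 + log₂ k)` times the optimum -/
theorem competitive {T : Tr} (hT : IsBST T) (X : List ℕ) (hX : ∀ x ∈ X, x ∈ keys T) :
    (costSplay T X : ℝ) ≤ 4 * (1 + Real.logb 2 X.toFinset.card) * Y395.SP.opt T X := by
  by_cases hne : X = []
  · subst hne
    simp [costSplay]
  obtain ⟨x0, hx0⟩ := List.exists_mem_of_ne_nil X hne
  set E := X.toFinset with hE
  have hk : (1 : ℝ) ≤ E.card := by
    have : 0 < E.card := Finset.card_pos.2 ⟨x0, by rw [hE, List.mem_toFinset]; exact hx0⟩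
    exact_mod_cast this
  have hL := log_nn hk
  have h1 := total (one_W1 E) X T hT (fun x hx => ⟨hX x hx, by
    unfold one; rw [if_pos (by rw [hE, List.mem_toFinset]; exact hx)]⟩)
  have h2 := P_le (one_W1 E) (E := E) (fun a ha => by unfold one; rw [if_neg ha]) hk T
    (wt_one_E hT)
  have h3 : (ancs E T : ℝ) ≤ Y395.SP.opt T X := by exact_mod_cast ancs_le_opt hT X
  have h4 : (X.length : ℝ) ≤ Y395.SP.opt T X := by exact_mod_cast length_le_opt T X
  have h5 : (X.map fun x => 2 + 3 * (Real.logb 2 (wt (one E) T) - Real.logb 2 (one E x))).sum ≤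
      X.length * (2 + 3 * Real.logb 2 E.card) := by
    have : ∀ y ∈ (X.map fun x => 2 + 3 * (Real.logb 2 (wt (one E) T) - Real.logb 2 (one E x))),
        y ≤ 2 + 3 * Real.logb 2 E.card := by
      intro y hy
      obtain ⟨x, hx, rfl⟩ := List.mem_map.1 hy
      have e1 : one E x = 1 := by
        unfold one; rw [if_pos (by rw [hE, List.mem_toFinset]; exact hx)]
      have e2 := mem_le_wt (one_W1 E) (hX x hx)
      rw [e1] at e2
      rw [e1, Real.logb_one]
      have e3 := logb_mono (by linarith) (wt_one_E (E := E) hT)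
      linarith
    have := List.sum_le_card_nsmul _ _ this
    rw [List.length_map, nsmul_eq_mul] at this
    exact this
  have h6 : (ancs E T : ℝ) * (2 + Real.logb 2 E.card) ≤
      Y395.SP.opt T X * (2 + Real.logb 2 E.card) :=
    mul_le_mul_of_nonneg_right h3 (by linarith)
  have h7 : (X.length : ℝ) * (2 + 3 * Real.logb 2 E.card) ≤
      Y395.SP.opt T X * (2 + 3 * Real.logb 2 E.card) :=
    mul_le_mul_of_nonneg_right h4 (by linarith)
  linarith

/-- the working set bound -/
theorem workingSet {T : Tr} (hT : IsBST T) (X : List ℕ) (hX : ∀ x ∈ X, x ∈ keys T) :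
    (costSplay T X : ℝ) ≤ 8 * X.length + 6 * wsum [] X +
      6 * X.toFinset.card * Real.logb 2 X.toFinset.card +
      (2 + Real.logb 2 X.toFinset.card) * ancs X.toFinset T := by
  by_cases hne : X = []
  · subst hne
    simp [costSplay, wsum, ancs_empty]
  obtain ⟨x0, hx0⟩ := List.exists_mem_of_ne_nil X hne
  set E := X.toFinset with hE
  have hEne : E.Nonempty := ⟨x0, by rw [hE, List.mem_toFinset]; exact hx0⟩
  have hk : (1 : ℝ) ≤ E.card := by exact_mod_cast hEne.card_pos
  have hL := log_nn hk
  have h1 := run hEne X T [] hT (by simp) (fun x hx => ⟨hX x hx, by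
    rw [hE, List.mem_toFinset]; exact hx⟩)
  have e1 : wk E [] = one E := by
    funext a; simp [wk, one]
  rw [e1, ← hE] at h1
  have h2 := P_le (one_W1 E) (E := E) (fun a ha => by unfold one; rw [if_neg ha]) hk T
    (wt_one_E hT)
  have h3 : Q (one E) T ≤ P (one E) T := by
    have hx := hX x0 hx0
    rw [P_eq hx]
    have := g_nn (wt_one (one_W1 E) T)
    linarith
  simp only [List.toFinset_nil, Finset.sdiff_empty] at h1
  linarith

end Pool.Agent.R531.Spl
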