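import Pool.Agent.R531.Spl.PT

set_option autoImplicit false
set_option linter.unusedSimpArgs false

/-! A move at the root is realised by splaying if there are at least four nodes. -/

namespace Pool.Agent.R531.Spl

open Pool.Agent.H581R2.Splay Pool.Agent.TH49.Spl

namespace PT

/-- `R` leads from `p` to `q` at cost at most `c` -/
def Gd (c : ℕ) (p q : PT) : Prop :=
  ∃ R : List ℕ, (∀ x ∈ R, x ∈ p.ks) ∧ runS p.tr R = q.tr ∧ costSplay p.tr R ≤ c

theorem gd_rr {a b : ℕ} {A B C : PT} (hb : IsBST (node a (node b A B) C).tr) :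
    Gd 2 (node a (node b A B) C) (node b A (node a B C)) := by
  simp only [tr] at hb
  obtain ⟨h1, h2, h3, h4⟩ := bst_node hb
  have h : b < a := h3 b (by simp [keys])
  refine ⟨[b], by simp [ks], ?_, ?_⟩
  · simp [runS, splay, locate, climb, tr, h, h.ne]
  · simp [costSplay, dep, tr, h, h.ne]

theorem gd_rl {a b : ℕ} {A B C : PT} (hb : IsBST (node b A (node a B C)).tr) :
    Gd 2 (node b A (node a B C)) (node a (node b A B) C) := by
  simp only [tr] at hb
  obtain ⟨h1, h2, h3, h4⟩ := bst_node hb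
  have h : b < a := h4 a (by simp [keys])
  refine ⟨[a], by simp [ks], ?_, ?_⟩
  · simp [runS, splay, locate, climb, tr, h.ne', h.not_gt]
  · simp [costSplay, dep, tr, h.ne', h.not_gt]

theorem gd_zf {x y z : ℕ} {A B C D : PT} (hb : IsBST (node x A (node y (node z B C) D)).tr) :
    Gd 5 (node x A (node y (node z B C) D)) (node x A (node z B (node y C D))) := by
  simp only [tr] at hb
  obtain ⟨h1, h2, h3, h4⟩ := bst_node hb
  obtain ⟨h5, h6, h7, h8⟩ := bst_node h2
  have hxz : x < z := h4 z (by simp [keys])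
  have hzy : z < y := h7 z (by simp [keys])
  refine ⟨[z, x], by simp [ks], ?_, ?_⟩
  · simp [runS, splay, locate, climb, tr, hxz, hxz.ne, hxz.ne', hxz.not_gt, hzy, hzy.ne]
  · simp [costSplay, splay, locate, climb, dep, tr, hxz, hxz.ne, hxz.ne', hxz.not_gt, hzy, hzy.ne]

theorem gd_zbA {w x y z : ℕ} {A1 A2 B C D : PT}
    (hb : IsBST (node x (node w A1 A2) (node z B (node y C D))).tr) :
    Gd 11 (node x (node w A1 A2) (node z B (node y C D)))
      (node x (node w A1 A2) (node y (node z B C) D)) := by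
  simp only [tr] at hb
  obtain ⟨h1, h2, h3, h4⟩ := bst_node hb
  obtain ⟨h5, h6, h7, h8⟩ := bst_node h2
  have hwx : w < x := h3 w (by simp [keys])
  have hxz : x < z := h4 z (by simp [keys])
  have hzy : z < y := h8 y (by simp [keys])
  have hwz := hwx.trans hxz
  have hwy := hwz.trans hzy
  have hxy := hxz.trans hzy
  refine ⟨[w, y, x], by simp [ks], ?_, ?_⟩
  · simp [runS, splay, locate, climb, tr, hwx, hwx.ne, hwx.ne', hwx.not_gt, hxz, hxz.ne, hxz.ne',
      hxz.not_gt, hzy, hzy.ne, hzy.ne', hzy.not_gt, hwz, hwz.ne, hwz.ne', hwz.not_gt, hwy, hwy.ne,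
      hwy.ne', hwy.not_gt, hxy, hxy.ne, hxy.ne', hxy.not_gt]
  · simp [costSplay, dep, splay, locate, climb, tr, hwx, hwx.ne, hwx.ne', hwx.not_gt, hxz, hxz.ne,
      hxz.ne', hxz.not_gt, hzy, hzy.ne, hzy.ne', hzy.not_gt, hwz, hwz.ne, hwz.ne', hwz.not_gt, hwy,
      hwy.ne, hwy.ne', hwy.not_gt, hxy, hxy.ne, hxy.ne', hxy.not_gt]

theorem gd_zbB {w x y z : ℕ} {A B1 B2 C D : PT}
    (hb : IsBST (node x A (node z (node w B1 B2) (node y C D))).tr) :
    Gd 11 (node x A (node z (node w B1 B2) (node y C D)))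
      (node x A (node y (node z (node w B1 B2) C) D)) := by
  simp only [tr] at hb
  obtain ⟨h1, h2, h3, h4⟩ := bst_node hb
  obtain ⟨h5, h6, h7, h8⟩ := bst_node h2
  have hxw : x < w := h4 w (by simp [keys])
  have hwz : w < z := h7 w (by simp [keys])
  have hzy : z < y := h8 y (by simp [keys])
  have hxz := hxw.trans hwz
  have hwy := hwz.trans hzy
  have hxy := hxz.trans hzy
  refine ⟨[w, x, y, x], by simp [ks], ?_, ?_⟩
  · simp [runS, splay, locate, climb, tr, hxw, hxw.ne, hxw.ne', hxw.not_gt, hxz, hxz.ne, hxz.ne',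
      hxz.not_gt, hzy, hzy.ne, hzy.ne', hzy.not_gt, hwz, hwz.ne, hwz.ne', hwz.not_gt, hwy, hwy.ne,
      hwy.ne', hwy.not_gt, hxy, hxy.ne, hxy.ne', hxy.not_gt]
  · simp [costSplay, dep, splay, locate, climb, tr, hxw, hxw.ne, hxw.ne', hxw.not_gt, hxz, hxz.ne,
      hxz.ne', hxz.not_gt, hzy, hzy.ne, hzy.ne', hzy.not_gt, hwz, hwz.ne, hwz.ne', hwz.not_gt, hwy,
      hwy.ne, hwy.ne', hwy.not_gt, hxy, hxy.ne, hxy.ne', hxy.not_gt]

theorem gd_zbC {w x y z : ℕ} {A B C1 C2 D : PT}
    (hb : IsBST (node x A (node z B (node y (node w C1 C2) D))).tr) :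
    Gd 11 (node x A (node z B (node y (node w C1 C2) D)))
      (node x A (node y (node z B (node w C1 C2)) D)) := by
  simp only [tr] at hb
  obtain ⟨h1, h2, h3, h4⟩ := bst_node hb
  obtain ⟨h5, h6, h7, h8⟩ := bst_node h2
  obtain ⟨h9, h10, h11, h12⟩ := bst_node h6
  have hxz : x < z := h4 z (by simp [keys])
  have hzw : z < w := h8 w (by simp [keys])
  have hwy : w < y := h11 w (by simp [keys])
  have hxw := hxz.trans hzw
  have hzy := hzw.trans hwy
  have hxy := hxz.trans hzy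
  refine ⟨[z, w, y, x], by simp [ks], ?_, ?_⟩
  · simp [runS, splay, locate, climb, tr, hxw, hxw.ne, hxw.ne', hxw.not_gt, hxz, hxz.ne, hxz.ne',
      hxz.not_gt, hzy, hzy.ne, hzy.ne', hzy.not_gt, hzw, hzw.ne, hzw.ne', hzw.not_gt, hwy, hwy.ne,
      hwy.ne', hwy.not_gt, hxy, hxy.ne, hxy.ne', hxy.not_gt]
  · simp [costSplay, dep, splay, locate, climb, tr, hxw, hxw.ne, hxw.ne', hxw.not_gt, hxz, hxz.ne,
      hxz.ne', hxz.not_gt, hzy, hzy.ne, hzy.ne', hzy.not_gt, hzw, hzw.ne, hzw.ne', hzw.not_gt, hwy,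
      hwy.ne, hwy.ne', hwy.not_gt, hxy, hxy.ne, hxy.ne', hxy.not_gt]

theorem gd_zbD {w x y z : ℕ} {A B C D1 D2 : PT}
    (hb : IsBST (node x A (node z B (node y C (node w D1 D2)))).tr) :
    Gd 11 (node x A (node z B (node y C (node w D1 D2))))
      (node x A (node y (node z B C) (node w D1 D2))) := by
  simp only [tr] at hb
  obtain ⟨h1, h2, h3, h4⟩ := bst_node hb
  obtain ⟨h5, h6, h7, h8⟩ := bst_node h2
  obtain ⟨h9, h10, h11, h12⟩ := bst_node h6
  have hxz : x < z := h4 z (by simp [keys])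
  have hzy : z < y := h8 y (by simp [keys])
  have hyw : y < w := h12 w (by simp [keys])
  have hxy := hxz.trans hzy
  have hzw := hzy.trans hyw
  have hxw := hxz.trans hzw
  refine ⟨[w, y, x], by simp [ks], ?_, ?_⟩
  · simp [runS, splay, locate, climb, tr, hxw, hxw.ne, hxw.ne', hxw.not_gt, hxz, hxz.ne, hxz.ne',
      hxz.not_gt, hzy, hzy.ne, hzy.ne', hzy.not_gt, hzw, hzw.ne, hzw.ne', hzw.not_gt, hyw, hyw.ne,
      hyw.ne', hyw.not_gt, hxy, hxy.ne, hxy.ne', hxy.not_gt]
  · simp [costSplay, dep, splay, locate, climb, tr, hxw, hxw.ne, hxw.ne', hxw.not_gt, hxz, hxz.ne,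
      hxz.ne', hxz.not_gt, hzy, hzy.ne, hzy.ne', hzy.not_gt, hzw, hzw.ne, hzw.ne', hzw.not_gt, hyw,
      hyw.ne, hyw.ne', hyw.not_gt, hxy, hxy.ne, hxy.ne', hxy.not_gt]

theorem Gd.mono {c c' : ℕ} {p q : PT} (h : Gd c p q) (hc : c ≤ c') : Gd c' p q := by
  obtain ⟨R, h1, h2, h3⟩ := h
  exact ⟨R, h1, h2, h3.trans hc⟩

theorem gad {p q : PT} (h : Mv p q) (hs : 4 ≤ p.sz) (hb : IsBST p.tr) : Gd 11 p q := by
  cases h with
  | rr a b A B C => exact (gd_rr hb).mono (by omega)
  | rl a b A B C => exact (gd_rl hb).mono (by omega)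
  | zf x y z A B C D => exact (gd_zf hb).mono (by omega)
  | zb x y z A B C D =>
    cases A with
    | node w A1 A2 => exact gd_zbA hb
    | ext tA =>
      cases B with
      | node w B1 B2 => exact gd_zbB hb
      | ext tB =>
        cases C with
        | node w C1 C2 => exact gd_zbC hb
        | ext tC =>
          cases D with
          | node w D1 D2 => exact gd_zbD hb
          | ext tD => simp [sz] at hs

theorem gads {n : ℕ} {p q : PT} (h : Mvs n p q) : 4 ≤ p.sz → IsBST p.tr → Gd (11 * n) p q := by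
  induction h with
  | refl p => intro _ _; exact ⟨[], by simp, rfl, by simp [costSplay]⟩
  | step n p q r h1 _ ih =>
    intro hs hb
    obtain ⟨R, e1, e2, e3⟩ := gad h1 hs hb
    have hf := h1.fr
    obtain ⟨R', f1, f2, f3⟩ := ih (by rw [sz_congr hf]; exact hs) (bst_congr hf.symm hb)
    refine ⟨R ++ R', ?_, ?_, ?_⟩
    · intro x hx
      rcases List.mem_append.1 hx with h2 | h2
      · exact e1 x h2
      · rw [← ks_congr hf]; exact f1 x h2
    · rw [runS_append, e2, f2]
    · rw [costSplay_append, e2]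
      omega

theorem rots {n : ℕ} {p q : PT} (h : Mvs n p q) : RotN n p.tr q.tr := by
  induction h with
  | refl p => exact RotN.refl _
  | step n p q r h1 _ ih =>
    obtain ⟨s, hs⟩ := h1.rot
    exact RotN.step n s _ _ _ hs ih

end PT

end Pool.Agent.R531.Spl
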