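import Pool.Agent.R531.Spl.Gad
import Pool.Agent.R531.Spl.Low

set_option autoImplicit false

/-! Splaying a key of the top part. -/

namespace Pool.Agent.R531.Spl

open Pool.Agent.H581R2.Splay Pool.Agent.TH49.Spl Pool.Agent.TH22.SP

namespace PT

/-- the tree with changed external subtrees -/
def pr (φ : Tr → Tr) : PT → Tr
  | ext t => φ t
  | node a l r => Tr.node a (l.pr φ) (r.pr φ)

theorem pr_id (p : PT) : p.pr (fun t => t) = p.tr := by
  induction p with
  | ext t => rfl
  | node a l r ihl ihr => simp [pr, tr, ihl, ihr]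

/-- frames -/
inductive PFr : Type
  | inL (a : ℕ) (r : PT) : PFr
  | inR (a : ℕ) (l : PT) : PFr

/-- the frame of the tree -/
def PFr.to (φ : Tr → Tr) : PFr → Fr
  | .inL a r => Fr.inL a (r.pr φ)
  | .inR a l => Fr.inR a (l.pr φ)

/-- put back -/
def pplug : List PFr → PT → PT
  | [], t => t
  | .inL a r :: fs, t => pplug fs (node a t r)
  | .inR a l :: fs, t => pplug fs (node a l t)

theorem pplug_fr : ∀ (fs : List PFr) {p q : PT}, p.fr = q.fr → (pplug fs p).fr = (pplug fs q).fr := by
  intro fs
  induction fs with
  | nil => intro p q h; exact h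
  | cons f fs ih =>
    intro p q h
    cases f with
    | inL a r => simp only [pplug]; exact ih (by simp [fr, h])
    | inR a l => simp only [pplug]; exact ih (by simp [fr, h])

/-- the steps of splaying -/
def pclimb (x : ℕ) : List PFr → PT → PT → PT
  | [], l, r => node x l r
  | [.inL y c], l, r => node x l (node y r c)
  | [.inR y c], l, r => node x (node y c l) r
  | .inL y c :: .inL z d :: fs, l, r => pclimb x fs l (node y r (node z c d))
  | .inR y c :: .inR z d :: fs, l, r => pclimb x fs (node y (node z d c) l) r
  | .inL y c :: .inR z d :: fs, l, r => pclimb x fs (node z d l) (node y r c)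
  | .inR y c :: .inL z d :: fs, l, r => pclimb x fs (node y c l) (node z r d)

theorem pclimb_pr (φ : Tr → Tr) (x : ℕ) : ∀ (fs : List PFr) (l r : PT),
    (pclimb x fs l r).pr φ = climb x (fs.map (PFr.to φ)) (l.pr φ) (r.pr φ) := by
  intro fs
  induction hn : fs.length using Nat.strong_induction_on generalizing fs with
  | _ n ih =>
    intro l r
    match fs, hn with
    | [], hn => simp [pclimb, climb, pr]
    | [.inL y c], hn => simp [pclimb, climb, pr, PFr.to]
    | [.inR y c], hn => simp [pclimb, climb, pr, PFr.to]
    | .inL y c :: .inL z d :: fs, hn =>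
      simp only [pclimb, climb, List.map_cons, PFr.to]
      rw [ih fs.length (by simp only [List.length_cons] at hn; omega) fs rfl]
      simp [pr]
    | .inR y c :: .inR z d :: fs, hn =>
      simp only [pclimb, climb, List.map_cons, PFr.to]
      rw [ih fs.length (by simp only [List.length_cons] at hn; omega) fs rfl]
      simp [pr]
    | .inL y c :: .inR z d :: fs, hn =>
      simp only [pclimb, climb, List.map_cons, PFr.to]
      rw [ih fs.length (by simp only [List.length_cons] at hn; omega) fs rfl]
      simp [pr]
    | .inR y c :: .inL z d :: fs, hn =>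
      simp only [pclimb, climb, List.map_cons, PFr.to]
      rw [ih fs.length (by simp only [List.length_cons] at hn; omega) fs rfl]
      simp [pr]

theorem pclimb_fr (x : ℕ) : ∀ (fs : List PFr) (l r : PT),
    (pclimb x fs l r).fr = (pplug fs (node x l r)).fr := by
  intro fs
  induction hn : fs.length using Nat.strong_induction_on generalizing fs with
  | _ n ih =>
    intro l r
    match fs, hn with
    | [], hn => simp [pclimb, pplug]
    | [.inL y c], hn => simp [pclimb, pplug, fr]
    | [.inR y c], hn => simp [pclimb, pplug, fr]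
    | .inL y c :: .inL z d :: fs, hn =>
      simp only [pclimb, pplug]
      rw [ih fs.length (by simp only [List.length_cons] at hn; omega) fs rfl]
      exact pplug_fr fs (by simp [fr])
    | .inR y c :: .inR z d :: fs, hn =>
      simp only [pclimb, pplug]
      rw [ih fs.length (by simp only [List.length_cons] at hn; omega) fs rfl]
      exact pplug_fr fs (by simp [fr])
    | .inL y c :: .inR z d :: fs, hn =>
      simp only [pclimb, pplug]
      rw [ih fs.length (by simp only [List.length_cons] at hn; omega) fs rfl]
      exact pplug_fr fs (by simp [fr])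
    | .inR y c :: .inL z d :: fs, hn =>
      simp only [pclimb, pplug]
      rw [ih fs.length (by simp only [List.length_cons] at hn; omega) fs rfl]
      exact pplug_fr fs (by simp [fr])

theorem plocate (x : ℕ) : ∀ (p : PT), IsBST p.tr → x ∈ p.ks → ∀ gs : List PFr,
    ∃ (fs : List PFr) (l r : PT), pplug fs (node x l r) = pplug gs p ∧
      ∀ φ : Tr → Tr, locate x (p.pr φ) (gs.map (PFr.to φ)) =
        (fs.map (PFr.to φ), l.pr φ, r.pr φ) := by
  intro p
  induction p with
  | ext t => intro _ hx; simp [ks] at hx
  | node a l r ihl ihr =>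
    intro hb hx gs
    simp only [tr] at hb
    obtain ⟨b1, b2, b3, b4⟩ := bst_node hb
    simp only [ks, List.mem_append, List.mem_cons] at hx
    rcases lt_trichotomy x a with h | h | h
    · have hx' : x ∈ l.ks := by
        rcases hx with hx | hx | hx
        · exact hx
        · omega
        · have := b4 x (ks_sub r x hx); omega
      obtain ⟨fs, l', r', h1, h2⟩ := ihl b1 hx' (.inL a r :: gs)
      refine ⟨fs, l', r', h1, fun φ => ?_⟩
      have := h2 φ
      simp only [pr, locate, h, h.ne, if_true, if_false]
      simpa [PFr.to] using this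
    · subst h
      exact ⟨gs, l, r, rfl, fun φ => by simp [pr, locate]⟩
    · have hx' : x ∈ r.ks := by
        rcases hx with hx | hx | hx
        · have := b3 x (ks_sub l x hx); omega
        · omega
        · exact hx
      obtain ⟨fs, l', r', h1, h2⟩ := ihr b2 hx' (.inR a l :: gs)
      refine ⟨fs, l', r', h1, fun φ => ?_⟩
      have := h2 φ
      simp only [pr, locate, h.not_gt, h.ne', if_false]
      simpa [PFr.to] using this

/-- splaying a key of the top part only changes the top part -/
theorem psplay {x : ℕ} {p : PT} (hb : IsBST p.tr) (hx : x ∈ p.ks) :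
    ∃ q : PT, q.fr = p.fr ∧ ∀ φ : Tr → Tr, splay x (p.pr φ) = q.pr φ := by
  obtain ⟨fs, l, r, h1, h2⟩ := plocate x p hb hx []
  refine ⟨pclimb x fs l r, ?_, fun φ => ?_⟩
  · rw [pclimb_fr, h1]; rfl
  · have := h2 φ
    rw [List.map_nil] at this
    rw [splay, this, pclimb_pr]

theorem pdep {x : ℕ} : ∀ {p : PT}, IsBST p.tr → x ∈ p.ks →
    ∀ φ : Tr → Tr, dep x (p.pr φ) = dep x p.tr ∧ dep x p.tr + 1 ≤ p.sz := by
  intro p
  induction p with
  | ext t => intro _ hx; simp [ks] at hx
  | node a l r ihl ihr =>
    intro hb hx φ
    simp only [tr] at hb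
    obtain ⟨b1, b2, b3, b4⟩ := bst_node hb
    simp only [ks, List.mem_append, List.mem_cons] at hx
    rcases lt_trichotomy x a with h | h | h
    · have hx' : x ∈ l.ks := by
        rcases hx with hx | hx | hx
        · exact hx
        · omega
        · have := b4 x (ks_sub r x hx); omega
      obtain ⟨h1, h2⟩ := ihl b1 hx' φ
      simp only [pr, tr, sz]
      rw [dep_l h, dep_l h, h1]
      exact ⟨rfl, by omega⟩
    · subst h
      simp only [pr, tr, sz]
      rw [dep_a, dep_a]
      exact ⟨rfl, by omega⟩
    · have hx' : x ∈ r.ks := by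
        rcases hx with hx | hx | hx
        · have := b3 x (ks_sub l x hx); omega
        · omega
        · exact hx
      obtain ⟨h1, h2⟩ := ihr b2 hx' φ
      simp only [pr, tr, sz]
      rw [dep_r h, dep_r h, h1]
      exact ⟨rfl, by omega⟩

/-- splaying a sequence of keys of the top part -/
theorem prun : ∀ (X : List ℕ) {p : PT}, IsBST p.tr → (∀ x ∈ X, x ∈ p.ks) →
    ∃ q : PT, q.fr = p.fr ∧ (∀ φ : Tr → Tr, runS (p.pr φ) X = q.pr φ ∧
      costSplay (p.pr φ) X = costSplay p.tr X) ∧ costSplay p.tr X ≤ p.sz * X.length := by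
  intro X
  induction X with
  | nil => intro p _ _; exact ⟨p, rfl, fun φ => ⟨rfl, by simp [costSplay]⟩, by simp [costSplay]⟩
  | cons x X ih =>
    intro p hb hX
    obtain ⟨q, h1, h2⟩ := psplay hb (hX x (by simp))
    have h2' := h2 (fun t => t)
    rw [pr_id, pr_id] at h2'
    obtain ⟨q', h3, h4, h5⟩ := ih (p := q) (bst_congr h1.symm hb)
      (fun y hy => by rw [ks_congr h1]; exact hX y (by simp [hy]))
    refine ⟨q', h3.trans h1, fun φ => ⟨?_, ?_⟩, ?_⟩
    · simp only [runS]; rw [h2 φ, (h4 φ).1]
    · simp only [costSplay]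
      rw [h2 φ, (h4 φ).2, (pdep hb (hX x (by simp)) φ).1, h2']
    · simp only [costSplay, List.length_cons]
      rw [h2']
      have h6 := (pdep hb (hX x (by simp)) id).2
      rw [sz_congr h1] at h5
      calc 1 + dep x p.tr + costSplay q.tr X ≤ p.sz + p.sz * X.length := by omega
        _ = p.sz * (X.length + 1) := by ring

/-- from any arrangement of the top part to any other one by splaying -/
theorem reset {p q : PT} (h : p.fr = q.fr) (hs : 4 ≤ p.sz) (hb : IsBST p.tr) :
    ∃ R : List ℕ, (∀ x ∈ R, x ∈ p.ks) ∧ runS p.tr R = q.tr ∧ costSplay p.tr R ≤ 66 * p.sz := by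
  obtain ⟨n, hn, h1⟩ := connect h
  obtain ⟨R, e1, e2, e3⟩ := gads h1 hs hb
  exact ⟨R, e1, e2, by omega⟩

/-- the decomposition of a tree: the top part consists of the nodes with a key of `E` below them -/
noncomputable def dc (E : Finset ℕ) : Tr → PT
  | Tr.nil => ext Tr.nil
  | Tr.node a l r =>
      open Classical in
      if Meets E (Tr.node a l r) then node a (dc E l) (dc E r) else ext (Tr.node a l r)

theorem dc_meets {E : Finset ℕ} {a : ℕ} {l r : Tr} (h : Meets E (Tr.node a l r)) :
    dc E (Tr.node a l r) = node a (dc E l) (dc E r) := by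
  simp [dc, h]

theorem dc_not {E : Finset ℕ} {a : ℕ} {l r : Tr} (h : ¬ Meets E (Tr.node a l r)) :
    dc E (Tr.node a l r) = ext (Tr.node a l r) := by
  simp [dc, h]

theorem dc_tr (E : Finset ℕ) (t : Tr) : (dc E t).tr = t := by
  induction t with
  | nil => rfl
  | node a l r ihl ihr =>
    by_cases h : Meets E (Tr.node a l r)
    · rw [dc_meets h]; simp [tr, ihl, ihr]
    · rw [dc_not h]; rfl

theorem dc_sz (E : Finset ℕ) (t : Tr) : (dc E t).sz = ancs E t := by
  induction t with
  | nil => rfl
  | node a l r ihl ihr =>
    by_cases h : Meets E (Tr.node a l r)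
    · rw [dc_meets h, ancs_of_meets h]; simp only [sz, ihl, ihr]; omega
    · rw [dc_not h, ancs_not_meets h]; rfl

theorem dc_ks {E : Finset ℕ} {x : ℕ} (hE : x ∈ E) (t : Tr) (hx : x ∈ keys t) :
    x ∈ (dc E t).ks := by
  induction t with
  | nil => simp [keys] at hx
  | node a l r ihl ihr =>
    rw [dc_meets ⟨x, hx, hE⟩]
    simp only [keys, List.mem_append, List.mem_cons] at hx
    simp only [ks, List.mem_append, List.mem_cons]
    rcases hx with hx | hx | hx
    · exact Or.inl (ihl hx)
    · exact Or.inr (Or.inl hx)
    · exact Or.inr (Or.inr (ihr hx))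

/-- the top part is the whole tree -/
def full : Tr → PT
  | Tr.nil => ext Tr.nil
  | Tr.node a l r => node a (full l) (full r)

theorem full_tr (t : Tr) : (full t).tr = t := by
  induction t with
  | nil => rfl
  | node a l r ihl ihr => simp [full, tr, ihl, ihr]

theorem full_ks (t : Tr) : (full t).ks = keys t := by
  induction t with
  | nil => rfl
  | node a l r ihl ihr => simp [full, ks, keys, ihl, ihr]

theorem full_fr (t : Tr) : (full t).fr = (Tr.nil, (keys t).map fun k => (k, Tr.nil)) := by
  induction t with
  | nil => rfl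
  | node a l r ihl ihr => simp [full, fr, keys, ihl, ihr]

theorem full_sz (t : Tr) : (full t).sz = (keys t).length := by
  rw [sz_eq, full_fr]; simp

end PT

end Pool.Agent.R531.Spl
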