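import Pool.Agent.TH49.Spl.Win
import Pool.Agent.H581R2.SplayMTR

set_option autoImplicit false

/-! Trees with external subtrees; moves at the root; flattening. -/

namespace Pool.Agent.R531.Spl

open Pool.Agent.H581R2.Splay Pool.Agent.TH49.Spl

/-- a top part of a search tree, with external subtrees -/
inductive PT : Type
  | ext (t : Tr) : PT
  | node (a : ℕ) (l r : PT) : PT

namespace PT

/-- the tree -/
def tr : PT → Tr
  | ext t => t
  | node a l r => Tr.node a l.tr r.tr

/-- the number of nodes of the top part -/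
def sz : PT → ℕ
  | ext _ => 0
  | node _ l r => l.sz + r.sz + 1

/-- the keys of the top part -/
def ks : PT → List ℕ
  | ext _ => []
  | node a l r => l.ks ++ a :: r.ks

/-- keys of the top part and external subtrees in symmetric order -/
def fr : PT → Tr × List (ℕ × Tr)
  | ext t => (t, [])
  | node a l r => (l.fr.1, l.fr.2 ++ (a, r.fr.1) :: r.fr.2)

theorem sz_eq (p : PT) : p.sz = p.fr.2.length := by
  induction p with
  | ext t => rfl
  | node a l r ihl ihr => simp [sz, fr, ihl, ihr]; omega

theorem ks_eq (p : PT) : p.ks = p.fr.2.map Prod.fst := by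
  induction p with
  | ext t => rfl
  | node a l r ihl ihr => simp [ks, fr, ihl, ihr]

theorem sz_congr {p q : PT} (h : p.fr = q.fr) : p.sz = q.sz := by rw [sz_eq, sz_eq, h]

theorem ks_congr {p q : PT} (h : p.fr = q.fr) : p.ks = q.ks := by rw [ks_eq, ks_eq, h]

theorem keys_eq (p : PT) : keys p.tr = keys p.fr.1 ++ p.fr.2.flatMap fun x => x.1 :: keys x.2 := by
  induction p with
  | ext t => simp [tr, fr]
  | node a l r ihl ihr => simp [tr, fr, keys, ihl, ihr]

theorem keys_congr {p q : PT} (h : p.fr = q.fr) : keys p.tr = keys q.tr := by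
  rw [keys_eq, keys_eq, h]

theorem bst_congr {p q : PT} (h : p.fr = q.fr) (hb : IsBST p.tr) : IsBST q.tr := by
  unfold IsBST; rw [← keys_congr h]; exact hb

theorem ks_sub (p : PT) : ∀ x ∈ p.ks, x ∈ keys p.tr := by
  induction p with
  | ext t => intro x hx; simp [ks] at hx
  | node a l r ihl ihr =>
    intro x hx
    simp only [ks, List.mem_append, List.mem_cons] at hx
    simp only [tr, keys, List.mem_append, List.mem_cons]
    rcases hx with hx | hx | hx
    · exact Or.inl (ihl x hx)
    · exact Or.inr (Or.inl hx)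
    · exact Or.inr (Or.inr (ihr x hx))

/-- moves at the root -/
inductive Mv : PT → PT → Prop
  | rr (a b : ℕ) (A B C : PT) : Mv (node a (node b A B) C) (node b A (node a B C))
  | rl (a b : ℕ) (A B C : PT) : Mv (node b A (node a B C)) (node a (node b A B) C)
  | zf (x y z : ℕ) (A B C D : PT) :
      Mv (node x A (node y (node z B C) D)) (node x A (node z B (node y C D)))
  | zb (x y z : ℕ) (A B C D : PT) :
      Mv (node x A (node z B (node y C D))) (node x A (node y (node z B C) D))

theorem Mv.symm {p q : PT} (h : Mv p q) : Mv q p := by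
  cases h with
  | rr a b A B C => exact Mv.rl a b A B C
  | rl a b A B C => exact Mv.rr a b A B C
  | zf x y z A B C D => exact Mv.zb x y z A B C D
  | zb x y z A B C D => exact Mv.zf x y z A B C D

theorem Mv.fr {p q : PT} (h : Mv p q) : q.fr = p.fr := by
  cases h <;> simp [PT.fr]

theorem Mv.rot {p q : PT} (h : Mv p q) : ∃ s, Rot p.tr q.tr s := by
  cases h with
  | rr a b A B C => exact ⟨_, Rot.right a b A.tr B.tr C.tr⟩
  | rl a b A B C => exact ⟨_, Rot.left a b A.tr B.tr C.tr⟩
  | zf x y z A B C D => exact ⟨_, Rot.inr x A.tr _ _ _ (Rot.right y z B.tr C.tr D.tr)⟩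
  | zb x y z A B C D => exact ⟨_, Rot.inr x A.tr _ _ _ (Rot.left y z B.tr C.tr D.tr)⟩

/-- `n` moves -/
inductive Mvs : ℕ → PT → PT → Prop
  | refl (p : PT) : Mvs 0 p p
  | step (n : ℕ) (p q r : PT) : Mv p q → Mvs n q r → Mvs (n + 1) p r

theorem Mvs.trans {n m : ℕ} {p q r : PT} (h1 : Mvs n p q) (h2 : Mvs m q r) : Mvs (n + m) p r := by
  induction h1 with
  | refl p => rwa [Nat.zero_add]
  | step n p q r' h _ ih =>
    have := ih h2
    rw [show n + 1 + m = (n + m) + 1 by ring]
    exact Mvs.step _ _ _ _ h this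

theorem Mvs.symm {n : ℕ} {p q : PT} (h : Mvs n p q) : Mvs n q p := by
  induction h with
  | refl p => exact Mvs.refl p
  | step n p q r h _ ih => exact ih.trans (Mvs.step 0 q p p h.symm (Mvs.refl p))

/-- add a node above -/
def st (acc : PT) (x : ℕ × Tr) : PT := node x.1 acc (ext x.2)

/-- potential -/
def Ph : PT → ℕ
  | ext _ => 0
  | node _ L D => 2 * L.sz + 1 + Ph D

theorem Ph_le (p : PT) : Ph p ≤ 2 * p.sz := by
  induction p with
  | ext t => simp [Ph]
  | node a l r _ ihr => simp only [Ph, sz]; omega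

theorem phase2 : ∀ (k : ℕ) (R : PT), Ph R = k → ∀ (x : ℕ) (A : PT),
    Mvs k (node x A R) (R.fr.2.foldl st (node x A (ext R.fr.1))) := by
  intro k
  induction k with
  | zero =>
    intro R hR x A
    cases R with
    | ext t => exact Mvs.refl _
    | node a l r => simp only [Ph] at hR; omega
  | succ k ih =>
    intro R hR x A
    cases R with
    | ext t => simp [Ph] at hR
    | node y L D =>
      cases L with
      | ext t =>
        have h1 : Ph D = k := by simp only [Ph, sz] at hR; omega
        have h2 := ih D h1 y (node x A (ext t))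
        refine Mvs.step _ _ (node y (node x A (ext t)) D) _ (Mv.rl y x A (ext t) D) ?_
        exact h2
      | node z B C =>
        have h1 : Ph (node z B (node y C D)) = k := by
          simp only [Ph, sz] at hR ⊢; omega
        have h2 := ih (node z B (node y C D)) h1 x A
        have h3 : (node z B (node y C D)).fr = (node y (node z B C) D).fr := by simp [fr]
        rw [h3] at h2
        exact Mvs.step _ _ _ _ (Mv.zf x y z A B C D) h2

theorem phase1 : ∀ (L : PT) (a : ℕ) (C : PT), ∃ n ≤ L.sz, ∃ (a' : ℕ) (t : Tr) (R' : PT),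
    Mvs n (node a L C) (node a' (ext t) R') ∧ (node a' (ext t) R').fr = (node a L C).fr := by
  intro L
  induction L with
  | ext t => intro a C; exact ⟨0, le_rfl, a, t, C, Mvs.refl _, rfl⟩
  | node b A B ihA _ =>
    intro a C
    obtain ⟨n, hn, a', t, R', h1, h2⟩ := ihA b (node a B C)
    refine ⟨n + 1, by simp only [sz]; omega, a', t, R',
      Mvs.step _ _ _ _ (Mv.rr a b A B C) h1, ?_⟩
    rw [h2]
    simp [fr]

/-- the path with given frontier -/
def lp (f : Tr × List (ℕ × Tr)) : PT := f.2.foldl st (ext f.1)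

theorem flatten (p : PT) : ∃ n ≤ 3 * p.sz, Mvs n p (lp p.fr) := by
  cases p with
  | ext t => exact ⟨0, by simp, Mvs.refl _⟩
  | node a L C =>
    obtain ⟨n, hn, a', t, R', h1, h2⟩ := phase1 L a C
    have h3 := phase2 (Ph R') R' rfl a' (ext t)
    have h4 := Ph_le R'
    have h5 := sz_congr h2
    refine ⟨n + Ph R', ?_, ?_⟩
    · simp only [sz] at h5 ⊢
      omega
    · refine h1.trans ?_
      rw [← h2]
      exact h3

theorem connect {p q : PT} (h : p.fr = q.fr) : ∃ n ≤ 6 * p.sz, Mvs n p q := by
  obtain ⟨n, hn, h1⟩ := flatten p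
  obtain ⟨m, hm, h2⟩ := flatten q
  refine ⟨n + m, ?_, ?_⟩
  · have := sz_congr h
    omega
  · rw [h] at h1
    exact h1.trans h2.symm

end PT

end Pool.Agent.R531.Spl
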