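import Pool.Agent.R531.Spl.Eqv

set_option autoImplicit false

/-! Potential functions. -/

namespace Pool.Agent.R531.Spl

open Pool.Agent.H581R2.Splay Pool.Agent.TH49.Spl Pool.Agent.TH22.SP Pool.Agent.Y395.SP

/-- a potential function of any kind, on the search trees of one key set of each of infinitely many
sizes -/
def PotWeak : Prop := ∃ c : ℕ, ∀ N : ℕ, ∃ K : List ℕ, K.Pairwise (· < ·) ∧ N ≤ K.length ∧
  ∃ Φ : Tr → Tr → ℝ, (∀ S O, 0 ≤ Φ S O) ∧
    ∀ (S O O' : Tr) (x e : ℕ), keys S = K → keys O = K → x ∈ K → RotN e O O' →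
      (1 + dep x S : ℝ) + Φ (splay x S) O' ≤ c * (1 + e + dep x O) + Φ S O

/-- a potential function with all good properties -/
def PotStrong : Prop := ∃ c : ℕ, ∃ Φ : Tr → Tr → ℕ,
  (∀ T, IsBST T → Φ T T = 0) ∧
  (∀ (S O O' : Tr) (x e : ℕ), IsBST S → keys O = keys S → x ∈ keys S → RotN e O O' →
      1 + dep x S + Φ (splay x S) O' ≤ c * (1 + e + dep x O) + Φ S O) ∧
  ∀ C C' : Ctx, fl C = fl C' → IsBST (erase C) → 4 ≤ msize C →
    Φ (erase C) (erase C') ≤ 138 * c * msize C

theorem potWeak_weak (h : PotWeak) : WeakOpt := by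
  obtain ⟨c, h⟩ := h
  refine ⟨c, fun N => ?_⟩
  obtain ⟨K, hK, hN, Φ, h0, h1⟩ := h N
  have hb : ∀ {S : Tr}, keys S = K → IsBST S := fun {S} hS => by unfold IsBST; rw [hS]; exact hK
  have key : ∀ {O : Tr} {X : List ℕ} {d : ℕ}, Exec O X d → keys O = K → ∀ S : Tr, keys S = K →
      (∀ x ∈ X, x ∈ K) → (costSplay S X : ℝ) ≤ c * d + Φ S O := by
    intro O X d hE
    induction hE with
    | nil T => intro _ S _ _; have := h0 S T; simp [costSplay]; exact this
    | cons T T' x Y e d hr _ ih =>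
      intro hT S hS hX
      have hx := hX x (by simp)
      have h2 := ih (by rw [rotN_keys hr]; exact hT) (splay x S)
        (by rw [splay_keys (hb hS) (by rw [hS]; exact hx)]; exact hS)
        (fun y hy => hX y (by simp [hy]))
      have h3 := h1 S T T' x e hS hT hx hr
      simp only [costSplay]
      push_cast
      linarith
  have hT := PT.lt_keys K
  refine ⟨PT.lt K, hb hT, by rw [hT]; exact hN, ⌈Φ (PT.lt K) (PT.lt K)⌉₊, fun X hX => ?_⟩
  have h2 := key (opt_spec (PT.lt K) X) hT (PT.lt K) hT (by rw [← hT]; exact hX)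
  have h3 := Nat.le_ceil (Φ (PT.lt K) (PT.lt K))
  have h4 : (costSplay (PT.lt K) X : ℝ) ≤
      c * opt (PT.lt K) X + (⌈Φ (PT.lt K) (PT.lt K)⌉₊ : ℝ) := by linarith
  exact_mod_cast h4

theorem potStrong_weak (h : PotStrong) : PotWeak := by
  obtain ⟨c, Φ, h1, h2, h3⟩ := h
  refine ⟨c, fun N => ⟨List.range N, List.pairwise_lt_range, by simp, fun S O => (Φ S O : ℝ),
    fun S O => Nat.cast_nonneg _, ?_⟩⟩
  intro S O O' x e hS hO hx hr
  have := h2 S O O' x e (by unfold IsBST; rw [hS]; exact List.pairwise_lt_range) (by rw [hS, hO])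
    (by rw [hS]; exact hx) hr
  show (1 + dep x S : ℝ) + (Φ (splay x S) O' : ℝ) ≤ c * (1 + e + dep x O) + (Φ S O : ℝ)
  exact_mod_cast this

/-- the excess of splaying from `S` over the executions from `O` -/
def Exc (c : ℕ) (S O : Tr) : Set ℕ :=
  {k | ∃ (X : List ℕ) (d : ℕ), (∀ x ∈ X, x ∈ keys S) ∧ Exec O X d ∧ k + c * d ≤ costSplay S X}

theorem exc_zero (c : ℕ) (S O : Tr) : 0 ∈ Exc c S O :=
  ⟨[], 0, by simp, Exec.nil O, by simp⟩

theorem exc_local {c : ℕ} (h : ∀ T : Tr, IsBST T → ∀ X : List ℕ, (∀ x ∈ X, x ∈ keys T) →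
    costSplay T X ≤ c * opt T X) {p q : PT} (hf : p.fr = q.fr) (hb : IsBST p.tr) (hs : 4 ≤ p.sz)
    {k : ℕ} (hk : k ∈ Exc c p.tr q.tr) : k ≤ 138 * c * p.sz := by
  obtain ⟨X, d, h1, h2, h3⟩ := hk
  have hbq := PT.bst_congr hf hb
  have hkk := PT.keys_congr hf
  obtain ⟨R, e1, e2, e3⟩ := PT.reset hf.symm (by rw [← PT.sz_congr hf]; exact hs) hbq
  have hR : ∀ x ∈ R, x ∈ keys q.tr := fun x hx => PT.ks_sub q x (e1 x hx)
  obtain ⟨c1, e4, e5⟩ := serve R hbq hR
  rw [e2] at e5
  obtain ⟨n, hn, e6⟩ := PT.connect hf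
  have e7 := PT.rots e6
  have hszq := PT.sz_congr hf
  obtain ⟨c2, e8, e9⟩ : ∃ c2 ≤ 138 * p.sz, ExecE q.tr R q.tr c2 := by
    rcases eq_or_ne R [] with h0 | hne
    · subst h0
      exact ⟨0, Nat.zero_le _, ExecE.nil _⟩
    · exact ⟨c1 + n, by omega, e5.more e7 hne⟩
  obtain ⟨U, e10⟩ := Exec.toE h2
  have e11 := opt_le (e9.append e10).exec
  have e12 := h q.tr hbq (R ++ X) (fun x hx => by
    rcases List.mem_append.1 hx with hx | hx
    · exact hR x hx
    · rw [← hkk]; exact h1 x hx)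
  rw [costSplay_append, e2] at e12
  have e13 : c * opt q.tr (R ++ X) ≤ c * (138 * p.sz + d) := Nat.mul_le_mul_left c (by omega)
  have e14 : c * (138 * p.sz + d) = 138 * c * p.sz + c * d := by ring
  omega

theorem exc_bdd {c : ℕ} (hc : 3 ≤ c) (h : ∀ T : Tr, IsBST T → ∀ X : List ℕ,
    (∀ x ∈ X, x ∈ keys T) → costSplay T X ≤ c * opt T X) {S O : Tr} (hb : IsBST S)
    (hk : keys O = keys S) : BddAbove (Exc c S O) := by
  by_cases hn : 4 ≤ (keys S).length
  · refine ⟨138 * c * (keys S).length, fun k hk' => ?_⟩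
    have h1 := exc_local h (p := PT.full S) (q := PT.full O)
      (by rw [PT.full_fr, PT.full_fr, hk]) (by rw [PT.full_tr]; exact hb)
      (by rw [PT.full_sz]; exact hn) (k := k) (by rw [PT.full_tr, PT.full_tr]; exact hk')
    rwa [PT.full_sz] at h1
  · refine ⟨0, ?_⟩
    rintro k ⟨X, d, h1, h2, h3⟩
    obtain ⟨q, -, -, h4⟩ := PT.prun X (p := PT.full S) (by rw [PT.full_tr]; exact hb)
      (by rw [PT.full_ks]; exact h1)
    rw [PT.full_tr, PT.full_sz] at h4
    have h5 := length_le_exec h2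
    have h6 : (keys S).length * X.length ≤ c * d := Nat.mul_le_mul (by omega) h5
    omega

theorem dyn_potStrong (h : DynOpt) : PotStrong := by
  obtain ⟨c0, h0⟩ := h
  set c := max c0 3 with hcdef
  have hc : 3 ≤ c := le_max_right _ _
  have h : ∀ T : Tr, IsBST T → ∀ X : List ℕ, (∀ x ∈ X, x ∈ keys T) →
      costSplay T X ≤ c * opt T X := fun T hb X hX =>
    (h0 T hb X hX).trans (Nat.mul_le_mul_right _ (le_max_left _ _))
  refine ⟨c, fun S O => sSup (Exc c S O), ?_, ?_, ?_⟩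
  · intro T hb
    show sSup (Exc c T T) = 0
    have h1 : Exc c T T = {0} := by
      ext k
      constructor
      · rintro ⟨X, d, h1, h2, h3⟩
        have h4 := h T hb X h1
        have h5 : c * opt T X ≤ c * d := Nat.mul_le_mul_left c (opt_le h2)
        rw [Set.mem_singleton_iff]
        omega
      · rintro rfl
        exact exc_zero c T T
    rw [h1, csSup_singleton]
  · intro S O O' x e hb hk hx hr
    show 1 + dep x S + sSup (Exc c (splay x S) O') ≤ c * (1 + e + dep x O) + sSup (Exc c S O)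
    have hk1 := splay_keys hb hx
    have hb1 : IsBST (splay x S) := by unfold IsBST; rw [hk1]; exact hb
    have hbd := exc_bdd hc h hb hk
    have hbd' := exc_bdd hc h hb1 (O := O') (by rw [rotN_keys hr, hk1, hk])
    obtain ⟨X, d, h1, h2, h3⟩ := Nat.sSup_mem ⟨0, exc_zero c (splay x S) O'⟩ hbd'
    set k := sSup (Exc c (splay x S) O')
    by_cases h4 : 1 + dep x S + k ≤ c * (1 + e + dep x O)
    · omega
    · push Not at h4
      have h5 : (1 + dep x S + k - c * (1 + e + dep x O)) ∈ Exc c S O := by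
        refine ⟨x :: X, _, ?_, Exec.cons O O' x X e d hr h2, ?_⟩
        · intro y hy
          rcases List.mem_cons.1 hy with rfl | hy
          · exact hx
          · rw [← hk1]; exact h1 y hy
        · simp only [costSplay]
          have : c * (1 + e + dep x O + d) = c * (1 + e + dep x O) + c * d := by ring
          omega
      have h6 := le_csSup hbd h5
      omega
  · intro C C' hf hb hs
    show sSup (Exc c (erase C) (erase C')) ≤ 138 * c * msize C
    rw [← PT.ofC_tr] at hb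
    rw [← PT.ofC_sz] at hs ⊢
    rw [← PT.ofC_tr, ← PT.ofC_tr]
    rw [PT.fl_eq, PT.fl_eq] at hf
    exact csSup_le ⟨0, exc_zero _ _ _⟩ fun k hk => exc_local h (PT.un_inj hf) hb hs hk

theorem tfae : List.TFAE [DynOpt, WeakOpt, TextOpt, SubOpt, WeakSub, ClosedOpt, PotWeak,
    PotStrong] := by
  tfae_have 1 → 3 := dyn_text
  tfae_have 3 → 2 := text_weak
  tfae_have 2 → 1 := weak_dyn
  tfae_have 1 → 4 := dyn_sub
  tfae_have 4 → 5 := sub_weakSub
  tfae_have 5 → 2 := sub_weak
  tfae_have 1 → 6 := dyn_closed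
  tfae_have 6 → 2 := closed_weak
  tfae_have 1 → 8 := dyn_potStrong
  tfae_have 8 → 7 := potStrong_weak
  tfae_have 7 → 2 := potWeak_weak
  tfae_finish

end Pool.Agent.R531.Spl
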