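import Pool.Agent.H581R2.SplayAccess
import Pool.Agent.TH49.Spl.Pot

set_option autoImplicit false

/-! An access lemma for splaying in which the nodes without a key of positive weight below them have
no potential; the weights are zero or at least one. -/

namespace Pool.Agent.R531.Spl

open Pool.Agent.H581R2.Splay Tr Pool.Agent.TH49.Spl

/-- potential of a node whose subtree has weight `s` -/
noncomputable def g (s : ℝ) : ℝ := if 0 < s then 2 + Real.logb 2 s else 0

/-- the potential: the nodes with positive weight in their subtree count `2 + log₂ (weight)` -/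
noncomputable def P (w : ℕ → ℝ) : Tr → ℝ
  | nil => 0
  | node a l r => g (wt w (node a l r)) + P w l + P w r

/-- weights which are zero or at least one -/
def W1 (w : ℕ → ℝ) : Prop := ∀ a, w a = 0 ∨ 1 ≤ w a

theorem W1.nonneg {w : ℕ → ℝ} (hw : W1 w) (a : ℕ) : 0 ≤ w a := by
  rcases hw a with h | h <;> linarith

theorem wt_nn {w : ℕ → ℝ} (hw : W1 w) (t : Tr) : 0 ≤ wt w t := by
  induction t with
  | nil => simp [wt]
  | node a l r ihl ihr => simp only [wt]; have := hw.nonneg a; linarith

theorem wt_one {w : ℕ → ℝ} (hw : W1 w) (t : Tr) : wt w t = 0 ∨ 1 ≤ wt w t := by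
  induction t with
  | nil => simp [wt]
  | node a l r ihl ihr =>
    simp only [wt]
    rcases hw a with h | h <;> rcases ihl with h1 | h1 <;> rcases ihr with h2 | h2
    · left; linarith
    all_goals right; linarith

theorem g_zero : g 0 = 0 := by simp [g]

theorem g_pos {s : ℝ} (h : 1 ≤ s) : g s = 2 + Real.logb 2 s := by
  unfold g; rw [if_pos (by linarith)]

theorem log_nn {s : ℝ} (h : 1 ≤ s) : 0 ≤ Real.logb 2 s := Real.logb_nonneg (by norm_num) h

theorem g_nn {s : ℝ} (h : s = 0 ∨ 1 ≤ s) : 0 ≤ g s := by
  rcases h with h | h
  · rw [h, g_zero]
  · rw [g_pos h]; have := log_nn h; linarith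

/-- `g s ≤ 2 + log z` for `s ≤ z`, `z ≥ 1` -/
theorem g_le {s z : ℝ} (h : s = 0 ∨ 1 ≤ s) (hz : 1 ≤ z) (hsz : s ≤ z) :
    g s ≤ 2 + Real.logb 2 z := by
  rcases h with h | h
  · rw [h, g_zero]; have := log_nn hz; linarith
  · rw [g_pos h]; have := logb_mono (by linarith) hsz; linarith

theorem P_nn {w : ℕ → ℝ} (hw : W1 w) (t : Tr) : 0 ≤ P w t := by
  induction t with
  | nil => simp [P]
  | node a l r ihl ihr =>
    have := g_nn (wt_one hw (node a l r))
    simp only [P]
    linarith

/-- the zig-zig step -/
theorem zz' {x y z y' z' : ℝ} (hx : 1 ≤ x) (hxy : x ≤ y) (hyz : y ≤ z) (hy' : y' = 0 ∨ 1 ≤ y')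
    (hy'z : y' ≤ z) (hz' : z' = 0 ∨ 1 ≤ z') (hxz : x + z' ≤ z) :
    2 + (g z + g y' + g z') ≤ (g x + g y + g z) + 3 * (Real.logb 2 z - Real.logb 2 x) := by
  have hz : 1 ≤ z := by linarith
  have h1 := g_le hy' hz hy'z
  have h2 : Real.logb 2 x ≤ Real.logb 2 y := logb_mono (by linarith) hxy
  have h3 : Real.logb 2 x ≤ Real.logb 2 z := logb_mono (by linarith) (by linarith)
  have h4 := log_nn hx
  rw [g_pos hx, g_pos (by linarith : (1 : ℝ) ≤ y), g_pos hz]
  rcases hz' with h | h
  · rw [h, g_zero]
    linarith
  · have h5 := log_ineq (a := x) (b := z') (c := z) (by linarith) (by linarith) hxz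
    rw [g_pos h]
    linarith

/-- the zig-zag step -/
theorem zg' {x y z y' z' : ℝ} (hx : 1 ≤ x) (hxy : x ≤ y) (hyz : y ≤ z) (hy' : y' = 0 ∨ 1 ≤ y')
    (hz' : z' = 0 ∨ 1 ≤ z') (h : y' + z' ≤ z) :
    2 + (g z + g y' + g z') ≤ (g x + g y + g z) + 3 * (Real.logb 2 z - Real.logb 2 x) := by
  have hz : 1 ≤ z := by linarith
  have h2 : Real.logb 2 x ≤ Real.logb 2 y := logb_mono (by linarith) hxy
  have h3 : Real.logb 2 x ≤ Real.logb 2 z := logb_mono (by linarith) (by linarith)
  have h4 := log_nn hx
  have h7 := log_nn hz
  rw [g_pos hx, g_pos (by linarith : (1 : ℝ) ≤ y), g_pos hz]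
  rcases hy' with hy | hy <;> rcases hz' with hz0 | hz0
  · rw [hy, hz0, g_zero]; linarith
  · have h5 := logb_mono (a := z') (b := z) (by linarith) (by rw [hy] at h; linarith)
    rw [hy, g_zero, g_pos hz0]; linarith
  · have h5 := logb_mono (a := y') (b := z) (by linarith) (by rw [hz0] at h; linarith)
    rw [hz0, g_zero, g_pos hy]; linarith
  · have h5 := log_ineq (a := y') (b := z') (c := z) (by linarith) (by linarith) h
    rw [g_pos hy, g_pos hz0]
    linarith

theorem P_plug_congr {w : ℕ → ℝ} (fs : List Fr) (t t' : Tr) (h : wt w t = wt w t') :
    P w (plug fs t) - P w t = P w (plug fs t') - P w t' ∧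
      wt w (plug fs t) = wt w (plug fs t') := by
  induction fs generalizing t t' with
  | nil => simp [plug, h]
  | cons f fs ih =>
    cases f with
    | inL a r =>
      have := ih (plug1 (Fr.inL a r) t) (plug1 (Fr.inL a r) t') (by simp only [plug1, wt, h])
      refine ⟨?_, this.2⟩
      have h1 := this.1
      simp only [plug]
      simp only [plug1, P, wt, h] at h1 ⊢
      linarith
    | inR a l =>
      have := ih (plug1 (Fr.inR a l) t) (plug1 (Fr.inR a l) t') (by simp only [plug1, wt, h])
      refine ⟨?_, this.2⟩
      have h1 := this.1
      simp only [plug]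
      simp only [plug1, P, wt, h] at h1 ⊢
      linarith

theorem climb_P {w : ℕ → ℝ} (hw : W1 w) (x : ℕ) (hx : 1 ≤ w x) : ∀ (fs : List Fr) (l r : Tr),
    keys (climb x fs l r) = keys (plug fs (node x l r)) ∧
    wt w (climb x fs l r) = wt w (plug fs (node x l r)) ∧
    (fs.length : ℝ) + P w (climb x fs l r) ≤
      P w (plug fs (node x l r)) +
        3 * (Real.logb 2 (wt w (plug fs (node x l r))) - Real.logb 2 (wt w (node x l r))) + 1 := by
  intro fs
  induction hn : fs.length using Nat.strong_induction_on generalizing fs with
  | _ n ih =>
    intro l r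
    have hx1 : 1 ≤ wt w (node x l r) := by
      have := wt_nn hw l; have := wt_nn hw r; simp only [wt]; linarith
    match fs, hn with
    | [], hn =>
      subst hn
      simp [climb, plug]
    | [Fr.inL y c], hn =>
      subst hn
      have e : wt w (node x l (node y r c)) = wt w (node y (node x l r) c) := by
        simp only [wt]; ring
      refine ⟨by simp [climb, plug, plug1, keys], ?_, ?_⟩
      · simp only [climb, plug, plug1]; exact e
      simp only [climb, plug, plug1, List.length_singleton]
      have hle : wt w (node x l r) ≤ wt w (node y (node x l r) c) := by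
        have := hw.nonneg y; have := wt_nn hw c; simp only [wt]; linarith
      have a1 := logb_mono (by linarith) hle
      have a2 := g_le (wt_one hw (node y r c)) (z := wt w (node y (node x l r) c)) (by linarith)
        (by rw [← e]; have := hw.nonneg x; have := wt_nn hw l; simp only [wt]; linarith)
      have a3 := g_pos hx1
      simp only [P]
      rw [e]
      push_cast
      linarith
    | [Fr.inR y c], hn =>
      subst hn
      have e : wt w (node x (node y c l) r) = wt w (node y c (node x l r)) := by
        simp only [wt]; ring
      refine ⟨by simp [climb, plug, plug1, keys], ?_, ?_⟩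
      · simp only [climb, plug, plug1]; exact e
      simp only [climb, plug, plug1, List.length_singleton]
      have hle : wt w (node x l r) ≤ wt w (node y c (node x l r)) := by
        have := hw.nonneg y; have := wt_nn hw c; simp only [wt]; linarith
      have a1 := logb_mono (by linarith) hle
      have a2 := g_le (wt_one hw (node y c l)) (z := wt w (node y c (node x l r))) (by linarith)
        (by rw [← e]; have := hw.nonneg x; have := wt_nn hw r; simp only [wt]; linarith)
      have a3 := g_pos hx1
      simp only [P]
      rw [e]
      push_cast
      linarith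
    | Fr.inL y c :: Fr.inL z d :: fs, hn =>
      simp only [List.length_cons] at hn
      have hp : plug (Fr.inL y c :: Fr.inL z d :: fs) (node x l r) =
          plug fs (node z (node y (node x l r) c) d) := rfl
      have hw2 : wt w (node x l (node y r (node z c d))) =
          wt w (node z (node y (node x l r) c) d) := by simp only [wt]; ring
      have hk : keys (node x l (node y r (node z c d))) =
          keys (node z (node y (node x l r) c) d) := by simp [keys]
      obtain ⟨i1, i2, i3⟩ := ih fs.length (by omega) fs rfl l (node y r (node z c d))
      obtain ⟨p1, p2⟩ := P_plug_congr (w := w) fs _ _ hw2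
      rw [hp]
      simp only [climb]
      refine ⟨by rw [i1, keys_plug, keys_plug, hk], by rw [i2, p2], ?_⟩
      have st := zz' (x := wt w (node x l r)) (y := wt w (node y (node x l r) c))
        (z := wt w (node x l (node y r (node z c d)))) (y' := wt w (node y r (node z c d)))
        (z' := wt w (node z c d)) hx1
        (by have := hw.nonneg y; have := wt_nn hw c; simp only [wt]; linarith)
        (by have := hw.nonneg z; have := wt_nn hw d; rw [hw2]; simp only [wt]; linarith)
        (wt_one hw _)
        (by have := hw.nonneg x; have := wt_nn hw l; simp only [wt]; linarith)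
        (wt_one hw _)
        (by have := hw.nonneg y; simp only [wt]; linarith)
      have q1 : P w (node x l (node y r (node z c d))) =
          g (wt w (node x l (node y r (node z c d)))) + P w l +
          (g (wt w (node y r (node z c d))) + P w r +
            (g (wt w (node z c d)) + P w c + P w d)) := rfl
      have q2 : P w (node z (node y (node x l r) c) d) =
          g (wt w (node z (node y (node x l r) c) d)) +
          (g (wt w (node y (node x l r) c)) +
            (g (wt w (node x l r)) + P w l + P w r) + P w c) + P w d := rfl
      rw [p2] at i3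
      rw [hw2] at i3 st q1
      rw [q1, q2] at p1
      rw [← hn]
      push_cast
      linarith
    | Fr.inR y c :: Fr.inR z d :: fs, hn =>
      simp only [List.length_cons] at hn
      have hp : plug (Fr.inR y c :: Fr.inR z d :: fs) (node x l r) =
          plug fs (node z d (node y c (node x l r))) := rfl
      have hw2 : wt w (node x (node y (node z d c) l) r) =
          wt w (node z d (node y c (node x l r))) := by simp only [wt]; ring
      have hk : keys (node x (node y (node z d c) l) r) =
          keys (node z d (node y c (node x l r))) := by simp [keys]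
      obtain ⟨i1, i2, i3⟩ := ih fs.length (by omega) fs rfl (node y (node z d c) l) r
      obtain ⟨p1, p2⟩ := P_plug_congr (w := w) fs _ _ hw2
      rw [hp]
      simp only [climb]
      refine ⟨by rw [i1, keys_plug, keys_plug, hk], by rw [i2, p2], ?_⟩
      have st := zz' (x := wt w (node x l r)) (y := wt w (node y c (node x l r)))
        (z := wt w (node x (node y (node z d c) l) r)) (y' := wt w (node y (node z d c) l))
        (z' := wt w (node z d c)) hx1
        (by have := hw.nonneg y; have := wt_nn hw c; simp only [wt]; linarith)
        (by have := hw.nonneg z; have := wt_nn hw d; rw [hw2]; simp only [wt]; linarith)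
        (wt_one hw _)
        (by have := hw.nonneg x; have := wt_nn hw r; simp only [wt]; linarith)
        (wt_one hw _)
        (by have := hw.nonneg y; simp only [wt]; linarith)
      have q1 : P w (node x (node y (node z d c) l) r) =
          g (wt w (node x (node y (node z d c) l) r)) +
          (g (wt w (node y (node z d c) l)) +
            (g (wt w (node z d c)) + P w d + P w c) + P w l) + P w r := rfl
      have q2 : P w (node z d (node y c (node x l r))) =
          g (wt w (node z d (node y c (node x l r)))) + P w d +
          (g (wt w (node y c (node x l r))) + P w c +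
            (g (wt w (node x l r)) + P w l + P w r)) := rfl
      rw [p2] at i3
      rw [hw2] at i3 st q1
      rw [q1, q2] at p1
      rw [← hn]
      push_cast
      linarith
    | Fr.inL y c :: Fr.inR z d :: fs, hn =>
      simp only [List.length_cons] at hn
      have hp : plug (Fr.inL y c :: Fr.inR z d :: fs) (node x l r) =
          plug fs (node z d (node y (node x l r) c)) := rfl
      have hw2 : wt w (node x (node z d l) (node y r c)) =
          wt w (node z d (node y (node x l r) c)) := by simp only [wt]; ring
      have hk : keys (node x (node z d l) (node y r c)) =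
          keys (node z d (node y (node x l r) c)) := by simp [keys]
      obtain ⟨i1, i2, i3⟩ := ih fs.length (by omega) fs rfl (node z d l) (node y r c)
      obtain ⟨p1, p2⟩ := P_plug_congr (w := w) fs _ _ hw2
      rw [hp]
      simp only [climb]
      refine ⟨by rw [i1, keys_plug, keys_plug, hk], by rw [i2, p2], ?_⟩
      have st := zg' (x := wt w (node x l r)) (y := wt w (node y (node x l r) c))
        (z := wt w (node x (node z d l) (node y r c))) (y' := wt w (node z d l))
        (z' := wt w (node y r c)) hx1
        (by have := hw.nonneg y; have := wt_nn hw c; simp only [wt]; linarith)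
        (by have := hw.nonneg z; have := wt_nn hw d; rw [hw2]; simp only [wt]; linarith)
        (wt_one hw _) (wt_one hw _)
        (by have := hw.nonneg x; simp only [wt]; linarith)
      have q1 : P w (node x (node z d l) (node y r c)) =
          g (wt w (node x (node z d l) (node y r c))) +
          (g (wt w (node z d l)) + P w d + P w l) +
          (g (wt w (node y r c)) + P w r + P w c) := rfl
      have q2 : P w (node z d (node y (node x l r) c)) =
          g (wt w (node z d (node y (node x l r) c))) + P w d +
          (g (wt w (node y (node x l r) c)) +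
            (g (wt w (node x l r)) + P w l + P w r) + P w c) := rfl
      rw [p2] at i3
      rw [hw2] at i3 st q1
      rw [q1, q2] at p1
      rw [← hn]
      push_cast
      linarith
    | Fr.inR y c :: Fr.inL z d :: fs, hn =>
      simp only [List.length_cons] at hn
      have hp : plug (Fr.inR y c :: Fr.inL z d :: fs) (node x l r) =
          plug fs (node z (node y c (node x l r)) d) := rfl
      have hw2 : wt w (node x (node y c l) (node z r d)) =
          wt w (node z (node y c (node x l r)) d) := by simp only [wt]; ring
      have hk : keys (node x (node y c l) (node z r d)) =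
          keys (node z (node y c (node x l r)) d) := by simp [keys]
      obtain ⟨i1, i2, i3⟩ := ih fs.length (by omega) fs rfl (node y c l) (node z r d)
      obtain ⟨p1, p2⟩ := P_plug_congr (w := w) fs _ _ hw2
      rw [hp]
      simp only [climb]
      refine ⟨by rw [i1, keys_plug, keys_plug, hk], by rw [i2, p2], ?_⟩
      have st := zg' (x := wt w (node x l r)) (y := wt w (node y c (node x l r)))
        (z := wt w (node x (node y c l) (node z r d))) (y' := wt w (node y c l))
        (z' := wt w (node z r d)) hx1
        (by have := hw.nonneg y; have := wt_nn hw c; simp only [wt]; linarith)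
        (by have := hw.nonneg z; have := wt_nn hw d; rw [hw2]; simp only [wt]; linarith)
        (wt_one hw _) (wt_one hw _)
        (by have := hw.nonneg x; simp only [wt]; linarith)
      have q1 : P w (node x (node y c l) (node z r d)) =
          g (wt w (node x (node y c l) (node z r d))) +
          (g (wt w (node y c l)) + P w c + P w l) +
          (g (wt w (node z r d)) + P w r + P w d) := rfl
      have q2 : P w (node z (node y c (node x l r)) d) =
          g (wt w (node z (node y c (node x l r)) d)) +
          (g (wt w (node y c (node x l r))) + P w c +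
            (g (wt w (node x l r)) + P w l + P w r)) + P w d := rfl
      rw [p2] at i3
      rw [hw2] at i3 st q1
      rw [q1, q2] at p1
      rw [← hn]
      push_cast
      linarith

/-- the access lemma -/
theorem access {w : ℕ → ℝ} (hw : W1 w) {x : ℕ} (hxw : 1 ≤ w x) {t : Tr} (hb : IsBST t)
    (hx : x ∈ keys t) :
    keys (splay x t) = keys t ∧ wt w (splay x t) = wt w t ∧
    (dep x t : ℝ) + P w (splay x t) ≤
      P w t + 3 * (Real.logb 2 (wt w t) - Real.logb 2 (w x)) + 1 := by
  obtain ⟨h1, h2⟩ := locate_spec x t [] hb hx
  have h1' : plug (locate x t []).1 (node x (locate x t []).2.1 (locate x t []).2.2) = t := h1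
  have h2' : (locate x t []).1.length = dep x t := by simpa using h2
  obtain ⟨c1, c2, c3⟩ := climb_P hw x hxw (locate x t []).1 (locate x t []).2.1
    (locate x t []).2.2
  rw [h1'] at c1 c2 c3
  rw [h2'] at c3
  refine ⟨c1, c2, ?_⟩
  have m := logb_mono (show 0 < w x by linarith)
    (show w x ≤ wt w (node x (locate x t []).2.1 (locate x t []).2.2) by
      have := wt_nn hw (locate x t []).2.1; have := wt_nn hw (locate x t []).2.2
      simp only [wt]; linarith)
  unfold splay
  linarith

/-- the total cost -/
theorem total {w : ℕ → ℝ} (hw : W1 w) : ∀ (X : List ℕ) (T : Tr), IsBST T →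
    (∀ x ∈ X, x ∈ keys T ∧ 1 ≤ w x) →
    (costSplay T X : ℝ) ≤ P w T +
      (X.map fun x => 2 + 3 * (Real.logb 2 (wt w T) - Real.logb 2 (w x))).sum := by
  intro X
  induction X with
  | nil =>
    intro T _ _
    simp only [costSplay, List.map_nil, List.sum_nil]
    have := P_nn hw T
    push_cast
    linarith
  | cons x X ih =>
    intro T hb hX
    obtain ⟨h1, h2, h3⟩ := access hw (hX x (by simp)).2 hb (hX x (by simp)).1
    have hb' : IsBST (splay x T) := by unfold IsBST; rw [h1]; exact hb
    have h4 := ih (splay x T) hb' (fun y hy => by rw [h1]; exact hX y (by simp [hy]))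
    rw [h2] at h4
    simp only [costSplay, List.map_cons, List.sum_cons]
    push_cast
    linarith

end Pool.Agent.R531.Spl
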