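import Pool.Agent.R531.Spl.Walk
import Pool.Agent.H581R2.SplayItin

set_option autoImplicit false

/-! Walks in the rotation graph and the dynamic optimality of splaying. -/

namespace Pool.Agent.R531.Spl

open Pool.Agent.H581R2.Splay Pool.Agent.TH49.Spl Pool.Agent.TH22.SP
open Pool.Agent.Y395.SP (opt Lazy)

theorem walk1_itin {T : Tr} {Y : List ℕ} (h : Walk 1 T Y) : ∀ (u : ℕ) (l r : Tr),
    T = Tr.node u l r → Itin [] l u r Y := by
  induction h with
  | nil T => intro u l r _; exact Itin.nil [] l u r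
  | stay y l r Y _ ih =>
    intro u l' r' h
    simp only [Tr.node.injEq] at h
    obtain ⟨rfl, rfl, rfl⟩ := h
    exact Itin.stay _ _ _ _ _ (ih _ _ _ rfl)
  | rot T y l r Y hr _ ih =>
    intro u l' r' h
    have h1 := ih y l r rfl
    cases hr with
    | right d a b A B C =>
      simp only [Tr.node.injEq] at h
      obtain ⟨rfl, rfl, rfl⟩ := h
      exact Itin.downLRot [] _ _ _ _ _ _ h1
    | left d a b A B C =>
      simp only [Tr.node.injEq] at h
      obtain ⟨rfl, rfl, rfl⟩ := h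
      exact Itin.downRRot [] _ _ _ _ _ _ h1
    | inl d a L L' R h2 => cases h2
    | inr d a L R R' h2 => cases h2

/-- walks which only rotate at the root -/
theorem walk1 {T : Tr} (hb : IsBST T) {Y : List ℕ} (h : Walk 1 T Y) :
    costSplay T Y ≤ 24 * Y.length := by
  cases T with
  | nil =>
    cases h with
    | nil => simp [costSplay]
    | rot _ y l r Y hr _ => cases hr
  | node u l r => exact splay_itin hb (walk1_itin h u l r rfl)

/-- every request sequence is the root sequence of a walk, up to repetitions -/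
theorem exists_walk {ρ : ℕ} {l r : Tr} (hb : IsBST (Tr.node ρ l r)) {X : List ℕ}
    (hX : ∀ x ∈ X, x ∈ keys (Tr.node ρ l r)) :
    ∃ Y : List ℕ, Walk 3 (Tr.node ρ l r) Y ∧ Rp ρ X Y ∧
      Y.length ≤ 12 + 25 * opt (Tr.node ρ l r) X := by
  obtain ⟨w, h1, h2⟩ := Y388.SP.main Y562.SP.PULL.main X 0 (opt (Tr.node ρ l r) X) _ _ hb
    (RotN.refl _) (opt_spec _ X) hX
  obtain ⟨Y, h3, h4, h5⟩ := lazy_walk h2 hb ρ (PT.ext l) (PT.ext r)
    (PT.node ρ (PT.ext l) (PT.ext r)) rfl rfl
  refine ⟨Y, h3, h4, ?_⟩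
  simp only [PT.sz] at h5
  omega

theorem Rp.sub {ρ : ℕ} {X Y : List ℕ} (h : Rp ρ X Y) : X.Sublist Y := by
  induction h with
  | nil ρ => exact List.Sublist.refl _
  | rep ρ X Y _ ih => exact ih.cons ρ
  | step ρ x X Y _ ih => exact ih.cons_cons x

/-- walks are executions -/
theorem opt_le_walk {d : ℕ} {T : Tr} (hb : IsBST T) {X Y : List ℕ} (h : Walk d T Y)
    (hs : X.Sublist Y) : opt T X ≤ 6 * Y.length := by
  obtain ⟨_, c, h1, h2⟩ := h.exec hb
  have h3 := opt_le h2
  have h4 := opt_sub hb hs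
  omega

theorem walk_comp {T : Tr} (hb : IsBST T) {c B : ℝ} (hc : 0 ≤ c)
    (h : ∀ Y : List ℕ, Walk 3 T Y → (costSplay T Y : ℝ) ≤ c * Y.length + B) :
    Comp T (25 * c) (12 * c + B) := by
  intro X hX
  have hB : 0 ≤ B := by
    have := h [] (Walk.nil T)
    simpa [costSplay] using this
  cases T with
  | nil =>
    have h1 : X = [] := by
      rcases X with _ | ⟨x, X⟩
      · rfl
      · have := hX x (by simp); simp [keys] at this
    subst h1
    simp only [costSplay, Nat.cast_zero]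
    positivity
  | node ρ l r =>
    obtain ⟨Y, h1, h2, h3⟩ := exists_walk hb hX
    have h4 := h Y h1
    have h5 := h2.cost l r
    have h6 : X.length ≤ Y.length := h2.sub.length_le
    have h7 : (costSplay (Tr.node ρ l r) X : ℝ) ≤ costSplay (Tr.node ρ l r) Y := by
      have : costSplay (Tr.node ρ l r) X ≤ costSplay (Tr.node ρ l r) Y := by omega
      exact_mod_cast this
    have h8 : (Y.length : ℝ) ≤ 12 + 25 * opt (Tr.node ρ l r) X := by exact_mod_cast h3
    nlinarith

/-- splaying the roots of all walks is linear -/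
def RootWalk : Prop := ∃ c : ℕ, ∀ (d : ℕ) (T : Tr), IsBST T → ∀ Y : List ℕ, Walk d T Y →
  costSplay T Y ≤ c * Y.length

/-- splaying the roots of the walks with rotations of depth at most 3, for one initial tree of each of
infinitely many sizes, up to additive terms -/
def RootWalkWeak : Prop := ∃ c : ℕ, ∀ N : ℕ, ∃ T : Tr, IsBST T ∧ N ≤ (keys T).length ∧ ∃ B : ℕ,
  ∀ Y : List ℕ, Walk 3 T Y → costSplay T Y ≤ c * Y.length + B

theorem dyn_rootWalk (h : DynOpt) : RootWalk := by
  obtain ⟨c, h⟩ := h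
  refine ⟨c * 3, fun d T hb Y hY => ?_⟩
  obtain ⟨h1, c', h2, h3⟩ := hY.exec hb
  calc costSplay T Y ≤ c * opt T Y := h T hb Y h1
    _ ≤ c * (3 * Y.length) := Nat.mul_le_mul_left c ((opt_le h3).trans h2)
    _ = _ := by ring

theorem rootWalk_weak (h : RootWalk) : RootWalkWeak := by
  obtain ⟨c, h⟩ := h
  refine ⟨c, fun N => ?_⟩
  obtain ⟨T, hb, hN⟩ := range_tree N
  exact ⟨T, hb, hN, 0, fun Y hY => h 3 T hb Y hY⟩

theorem rootWalkWeak_weak (h : RootWalkWeak) : WeakOpt := by
  obtain ⟨c, h⟩ := h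
  refine ⟨25 * c, fun N => ?_⟩
  obtain ⟨T, hb, hN, B, h1⟩ := h N
  refine ⟨T, hb, hN, 12 * c + B, fun X hX => ?_⟩
  have h2 := walk_comp hb (c := c) (B := B) (Nat.cast_nonneg c)
    (fun Y hY => by exact_mod_cast h1 Y hY) X hX
  exact_mod_cast h2

theorem tfaeW : List.TFAE [DynOpt, RootWalk, RootWalkWeak] := by
  tfae_have 1 → 2 := dyn_rootWalk
  tfae_have 2 → 3 := rootWalk_weak
  tfae_have 3 → 1 := fun h => weak_dyn (rootWalkWeak_weak h)
  tfae_finish

theorem transferW {T T' : Tr} (hb : IsBST T) (hb' : IsBST T')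
    (hk : (keys T').length ≤ (keys T).length) {c B : ℝ} (hc : 0 ≤ c)
    (h : ∀ Y : List ℕ, Walk 3 T Y → (costSplay T Y : ℝ) ≤ c * Y.length + B) {X : List ℕ}
    (hX : ∀ x ∈ X, x ∈ keys T') : (costSplay T' X : ℝ) ≤ 3500 * c * opt T' X := by
  have := transfer hb hb' hk (walk_comp hb hc h) hX
  linarith

end Pool.Agent.R531.Spl
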