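import Pool.Agent.R531.Spl.Add

set_option autoImplicit false

/-! Relabelling the keys. -/

namespace Pool.Agent.R531.Spl

open Pool.Agent.H581R2.Splay Pool.Agent.TH49.Spl Pool.Agent.TH22.SP Pool.Agent.Y395.SP

/-- relabelled tree -/
def mp (f : ℕ → ℕ) : Tr → Tr
  | Tr.nil => Tr.nil
  | Tr.node a l r => Tr.node (f a) (mp f l) (mp f r)

/-- relabelled frame -/
def frm (f : ℕ → ℕ) : Fr → Fr
  | Fr.inL a r => Fr.inL (f a) (mp f r)
  | Fr.inR a l => Fr.inR (f a) (mp f l)

theorem mp_keys (f : ℕ → ℕ) (t : Tr) : keys (mp f t) = (keys t).map f := by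
  induction t with
  | nil => rfl
  | node a l r ihl ihr => simp [mp, keys, ihl, ihr]

theorem climb_mp (f : ℕ → ℕ) (x : ℕ) : ∀ (fs : List Fr) (l r : Tr),
    climb (f x) (fs.map (frm f)) (mp f l) (mp f r) = mp f (climb x fs l r) := by
  intro fs
  induction hn : fs.length using Nat.strong_induction_on generalizing fs with
  | _ n ih =>
    intro l r
    match fs, hn with
    | [], hn => simp [climb, mp]
    | [.inL y c], hn => simp [climb, mp, frm]
    | [.inR y c], hn => simp [climb, mp, frm]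
    | .inL y c :: .inL z d :: fs, hn =>
      simp only [climb, List.map_cons, frm]
      rw [← ih fs.length (by simp only [List.length_cons] at hn; omega) fs rfl]
      simp [mp]
    | .inR y c :: .inR z d :: fs, hn =>
      simp only [climb, List.map_cons, frm]
      rw [← ih fs.length (by simp only [List.length_cons] at hn; omega) fs rfl]
      simp [mp]
    | .inL y c :: .inR z d :: fs, hn =>
      simp only [climb, List.map_cons, frm]
      rw [← ih fs.length (by simp only [List.length_cons] at hn; omega) fs rfl]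
      simp [mp]
    | .inR y c :: .inL z d :: fs, hn =>
      simp only [climb, List.map_cons, frm]
      rw [← ih fs.length (by simp only [List.length_cons] at hn; omega) fs rfl]
      simp [mp]

/-- strictly increasing on `S` -/
def MonoS (f : ℕ → ℕ) (S : List ℕ) : Prop := ∀ a ∈ S, ∀ b ∈ S, a < b → f a < f b

theorem MonoS.cmp {f : ℕ → ℕ} {S : List ℕ} (hf : MonoS f S) {a b : ℕ} (ha : a ∈ S) (hb : b ∈ S) :
    (f a = f b ↔ a = b) ∧ (f a < f b ↔ a < b) := by
  rcases lt_trichotomy a b with h | h | h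
  · have := hf a ha b hb h
    constructor <;> constructor <;> intro <;> omega
  · subst h; simp
  · have := hf b hb a ha h
    constructor <;> constructor <;> intro <;> omega

theorem locate_mp {f : ℕ → ℕ} {S : List ℕ} (hf : MonoS f S) {x : ℕ} (hx : x ∈ S) : ∀ t : Tr,
    (∀ k ∈ keys t, k ∈ S) → ∀ fs : List Fr,
    locate (f x) (mp f t) (fs.map (frm f)) =
      ((locate x t fs).1.map (frm f), mp f (locate x t fs).2.1, mp f (locate x t fs).2.2) := by
  intro t
  induction t with
  | nil => intro _ fs; rfl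
  | node a l r ihl ihr =>
    intro hk fs
    obtain ⟨h1, h2⟩ := hf.cmp hx (hk a (by simp [keys]))
    have h3 := ihl (fun k h => hk k (by simp [keys, h])) (Fr.inL a r :: fs)
    have h4 := ihr (fun k h => hk k (by simp [keys, h])) (Fr.inR a l :: fs)
    simp only [List.map_cons, frm] at h3 h4
    simp only [mp, locate, h1, h2]
    split_ifs
    · rfl
    · exact h3
    · exact h4

theorem splay_mp {f : ℕ → ℕ} {S : List ℕ} (hf : MonoS f S) {x : ℕ} (hx : x ∈ S) {t : Tr}
    (ht : ∀ k ∈ keys t, k ∈ S) : splay (f x) (mp f t) = mp f (splay x t) := by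
  have h := locate_mp hf hx t ht []
  rw [List.map_nil] at h
  rw [splay, h, climb_mp]
  rfl

theorem dep_mp {f : ℕ → ℕ} {S : List ℕ} (hf : MonoS f S) {x : ℕ} (hx : x ∈ S) : ∀ {t : Tr},
    (∀ k ∈ keys t, k ∈ S) → dep (f x) (mp f t) = dep x t := by
  intro t
  induction t with
  | nil => intro _; rfl
  | node a l r ihl ihr =>
    intro hk
    obtain ⟨h1, h2⟩ := hf.cmp hx (hk a (by simp [keys]))
    have h3 := ihl (fun k h => hk k (by simp [keys, h]))
    have h4 := ihr (fun k h => hk k (by simp [keys, h]))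
    simp only [mp, dep, h1, h2, h3, h4]

theorem cost_mp {f : ℕ → ℕ} {S : List ℕ} (hf : MonoS f S) : ∀ (X : List ℕ) {t : Tr}, IsBST t →
    (∀ k ∈ keys t, k ∈ S) → (∀ x ∈ X, x ∈ keys t) →
    costSplay (mp f t) (X.map f) = costSplay t X := by
  intro X
  induction X with
  | nil => intro t _ _ _; rfl
  | cons x X ih =>
    intro t hb ht hX
    have hx := hX x (by simp)
    have hk := splay_keys hb hx
    have h1 := ih (t := splay x t) (by unfold IsBST; rw [hk]; exact hb) (by rw [hk]; exact ht)
      (fun y hy => by rw [hk]; exact hX y (by simp [hy]))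
    simp only [List.map_cons, costSplay]
    rw [dep_mp hf (ht x hx) ht, splay_mp hf (ht x hx) ht, h1]

theorem rot_mp (f : ℕ → ℕ) {T T' : Tr} {s : ℕ} (h : Rot T T' s) :
    ∃ s', Rot (mp f T) (mp f T') s' := by
  induction h with
  | right a b A B C => exact ⟨_, Rot.right (f a) (f b) (mp f A) (mp f B) (mp f C)⟩
  | left a b A B C => exact ⟨_, Rot.left (f a) (f b) (mp f A) (mp f B) (mp f C)⟩
  | inl a L L' R s _ ih => obtain ⟨s', h'⟩ := ih; exact ⟨_, Rot.inl (f a) _ _ (mp f R) s' h'⟩
  | inr a L R R' s _ ih => obtain ⟨s', h'⟩ := ih; exact ⟨_, Rot.inr (f a) (mp f L) _ _ s' h'⟩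

theorem rotN_mp (f : ℕ → ℕ) {T T' : Tr} {e : ℕ} (h : RotN e T T') :
    RotN e (mp f T) (mp f T') := by
  induction h with
  | refl T => exact RotN.refl _
  | step e s T U V h1 _ ih =>
    obtain ⟨s', h2⟩ := rot_mp f h1
    exact RotN.step e s' _ _ _ h2 ih

theorem exec_mp {f : ℕ → ℕ} {S : List ℕ} (hf : MonoS f S) {T : Tr} {X : List ℕ} {c : ℕ}
    (h : Exec T X c) : (∀ k ∈ keys T, k ∈ S) → (∀ x ∈ X, x ∈ S) →
    Exec (mp f T) (X.map f) c := by
  induction h with
  | nil T => intro _ _; exact Exec.nil _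
  | cons T T' x Y e c h1 _ ih =>
    intro hT hX
    have h2 := ih (by rw [rotN_keys h1]; exact hT) (fun y hy => hX y (by simp [hy]))
    have h3 := Exec.cons (mp f T) (mp f T') (f x) (Y.map f) e c (rotN_mp f h1) h2
    rw [dep_mp hf (hX x (by simp)) hT] at h3
    exact h3

/-- the rank -/
def rk (K : List ℕ) (k : ℕ) : ℕ := (K.toFinset.filter (· < k)).card

theorem rk_lt {K : List ℕ} {a b : ℕ} (ha : a ∈ K) (hab : a < b) : rk K a < rk K b := by
  refine Finset.card_lt_card (Finset.ssubset_iff_of_subset ?_ |>.2 ⟨a, ?_, ?_⟩)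
  · intro x hx
    rw [Finset.mem_filter] at hx ⊢
    exact ⟨hx.1, hx.2.trans hab⟩
  · rw [Finset.mem_filter, List.mem_toFinset]; exact ⟨ha, hab⟩
  · simp

theorem rk_lt_length {K : List ℕ} {b : ℕ} (hb : b ∈ K) : rk K b < K.length := by
  refine lt_of_lt_of_le (Finset.card_lt_card (Finset.ssubset_iff_of_subset ?_ |>.2 ⟨b, ?_, ?_⟩))
    (List.toFinset_card_le K)
  · exact Finset.filter_subset _ _
  · rw [List.mem_toFinset]; exact hb
  · simp

theorem map_bst {f : ℕ → ℕ} {t : Tr} (hb : IsBST t) (hf : MonoS f (keys t)) : IsBST (mp f t) := by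
  unfold IsBST
  rw [mp_keys, List.pairwise_map]
  exact hb.imp_of_mem fun {a b} ha hb' h => hf a ha b hb' h

/-- the main theorem -/
theorem transfer {T T' : Tr} (hb : IsBST T) (hb' : IsBST T')
    (hk : (keys T').length ≤ (keys T).length)
    {c B : ℝ} (h : Comp T c B) {X : List ℕ} (hX : ∀ x ∈ X, x ∈ keys T') :
    (costSplay T' X : ℝ) ≤ 140 * c * opt T' X := by
  set g : ℕ → ℕ := fun k => (keys T).getD (rk (keys T') k) 0 with hg
  have hgk : ∀ k ∈ keys T', ∃ hlt : rk (keys T') k < (keys T).length,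
      g k = (keys T)[rk (keys T') k] := by
    intro k hk'
    have h1 := rk_lt_length hk'
    refine ⟨by omega, ?_⟩
    simp only [hg]
    rw [List.getD_eq_getElem]
  have hmono : MonoS g (keys T') := by
    intro a ha b hb1 hab
    obtain ⟨h1, h2⟩ := hgk a ha
    obtain ⟨h3, h4⟩ := hgk b hb1
    rw [h2, h4]
    exact (List.pairwise_iff_getElem.1 hb) _ _ h1 h3 (rk_lt ha hab)
  have hsub : ∀ x ∈ keys (mp g T'), x ∈ keys T := by
    intro x hx
    rw [mp_keys, List.mem_map] at hx
    obtain ⟨k, hk', rfl⟩ := hx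
    obtain ⟨h1, h2⟩ := hgk k hk'
    rw [h2]
    exact List.getElem_mem h1
  have h1 := transferSub hb (map_bst hb' hmono) hsub h (X := X.map g) (fun x hx => by
    rw [List.mem_map] at hx
    obtain ⟨k, hk', rfl⟩ := hx
    rw [mp_keys]
    exact List.mem_map_of_mem (hX k hk'))
  rw [cost_mp hmono X hb' (fun k h => h) hX] at h1
  have h2 := opt_le (exec_mp hmono (opt_spec T' X) (fun k h => h) hX)
  have h3 : (opt (mp g T') (X.map g) : ℝ) ≤ opt T' X := by exact_mod_cast h2
  rcases eq_or_ne (keys T) [] with h0 | hne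
  · have h4 : X = [] := by
      rcases X with _ | ⟨x, Y⟩
      · rfl
      · have h5 := hX x (by simp)
        rw [h0] at hk
        have h6 : keys T' = [] := by
          apply List.length_eq_zero_iff.1
          simpa using hk
        rw [h6] at h5
        simp at h5
    subst h4
    have h5 : opt T' [] = 0 := Nat.le_zero.1 (opt_le (Exec.nil T'))
    rw [h5]; simp [costSplay]
  · have hc := one_le hne h
    nlinarith

end Pool.Agent.R531.Spl
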