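import Pool.Agent.R531.Spl.Rel
import Pool.Agent.Y388.SP.SIM
import Pool.Agent.Y562.SP.PULL

set_option autoImplicit false

/-! The subsequence property. -/

namespace Pool.Agent.R531.Spl

open Pool.Agent.H581R2.Splay Pool.Agent.TH49.Spl Pool.Agent.TH22.SP Pool.Agent.Y395.SP

namespace PT

/-- a marked tree as a tree with external subtrees -/
def ofC : Ctx → PT
  | Ctx.hole t => ext t
  | Ctx.node a l r => node a (ofC l) (ofC r)

theorem ofC_tr (C : Ctx) : (ofC C).tr = erase C := by
  induction C with
  | hole t => rfl
  | node a l r ihl ihr => simp [ofC, tr, erase, ihl, ihr]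

theorem ofC_sz (C : Ctx) : (ofC C).sz = msize C := by
  induction C with
  | hole t => rfl
  | node a l r ihl ihr => simp [ofC, sz, msize, ihl, ihr]

theorem ofC_ks (C : Ctx) (x : ℕ) : Sum.inr x ∈ fl C ↔ x ∈ (ofC C).ks := by
  induction C with
  | hole t => simp [fl, ofC, ks]
  | node a l r ihl ihr => simp [fl, ofC, ks, ihl, ihr]

/-- the frontier as one list -/
def un (f : Tr × List (ℕ × Tr)) : List (Tr ⊕ ℕ) :=
  Sum.inl f.1 :: f.2.flatMap fun x => [Sum.inr x.1, Sum.inl x.2]

theorem fl_eq (C : Ctx) : fl C = un (ofC C).fr := by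
  induction C with
  | hole t => simp [fl, un, ofC, fr]
  | node a l r ihl ihr => simp [fl, un, ofC, fr, ihl, ihr]

theorem un_inj {f g : Tr × List (ℕ × Tr)} (h : un f = un g) : f = g := by
  obtain ⟨t, L⟩ := f
  obtain ⟨t', L'⟩ := g
  simp only [un, List.cons.injEq, Sum.inl.injEq] at h
  obtain ⟨rfl, h⟩ := h
  have h2 : ∀ (L L' : List (ℕ × Tr)),
      (L.flatMap fun x => [(Sum.inr x.1 : Tr ⊕ ℕ), Sum.inl x.2]) =
        (L'.flatMap fun x => [Sum.inr x.1, Sum.inl x.2]) → L = L' := by
    intro L
    induction L with
    | nil =>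
      intro L' h
      cases L' with
      | nil => rfl
      | cons y L' => simp at h
    | cons x L ih =>
      intro L' h
      cases L' with
      | nil => simp at h
      | cons y L' =>
        simp only [List.flatMap_cons, List.cons_append, List.nil_append, List.cons.injEq,
          Sum.inr.injEq, Sum.inl.injEq] at h
        obtain ⟨h3, h4, h5⟩ := h
        rw [ih L' h5]
        congr 1
        exact Prod.ext h3 h4
  rw [h2 L L' h]

/-! ### growing the top part -/

/-- open the first external subtree with a node -/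
def gl : List (ℕ × Tr) → Option (List (ℕ × Tr))
  | [] => none
  | (a, Tr.nil) :: L => (gl L).map fun L' => (a, Tr.nil) :: L'
  | (a, Tr.node b l r) :: L => some ((a, l) :: (b, r) :: L)

/-- the same for frontiers -/
def gf : Tr × List (ℕ × Tr) → Option (Tr × List (ℕ × Tr))
  | (Tr.nil, L) => (gl L).map fun L' => (Tr.nil, L')
  | (Tr.node a l r, L) => some (l, (a, r) :: L)

/-- the same for trees -/
def grow : PT → Option PT
  | ext Tr.nil => none
  | ext (Tr.node a l r) => some (node a (ext l) (ext r))
  | node a l r =>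
    match grow l with
    | some l' => some (node a l' r)
    | none => (grow r).map fun r' => node a l r'

theorem gl_append_some {L1 L1' : List (ℕ × Tr)} (h : gl L1 = some L1') (L2 : List (ℕ × Tr)) :
    gl (L1 ++ L2) = some (L1' ++ L2) := by
  induction L1 generalizing L1' with
  | nil => simp [gl] at h
  | cons x L ih =>
    obtain ⟨a, t⟩ := x
    cases t with
    | nil =>
      simp only [gl, Option.map_eq_some_iff] at h
      obtain ⟨L', h1, rfl⟩ := h
      simp [gl, ih h1]
    | node b l r =>
      simp only [gl, Option.some.injEq] at h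
      subst h
      simp [gl]

theorem gl_append_none {L1 : List (ℕ × Tr)} (h : gl L1 = none) (L2 : List (ℕ × Tr)) :
    gl (L1 ++ L2) = (gl L2).map fun L' => L1 ++ L' := by
  induction L1 with
  | nil => simp
  | cons x L ih =>
    obtain ⟨a, t⟩ := x
    cases t with
    | nil =>
      simp only [gl, Option.map_eq_none_iff] at h
      simp [gl, ih h]
      cases gl L2 <;> simp
    | node b l r => simp [gl] at h

theorem gl_cons (a : ℕ) (t : Tr) (L : List (ℕ × Tr)) :
    gl ((a, t) :: L) = (gf (t, L)).map fun g => (a, g.1) :: g.2 := by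
  cases t with
  | nil => simp [gl, gf]; cases gl L <;> simp
  | node b l r => simp [gl, gf]

theorem grow_fr (p : PT) : (grow p).map fr = gf p.fr := by
  induction p with
  | ext t => cases t <;> simp [grow, gf, gl, fr]
  | node a l r ihl ihr =>
    simp only [grow, fr]
    rcases hl : l.fr with ⟨t0, L⟩
    rw [hl] at ihl
    cases hg : grow l with
    | some l' =>
      rw [hg] at ihl
      simp only [Option.map_some] at ihl ⊢
      cases t0 with
      | nil =>
        simp only [gf] at ihl ⊢
        cases hL : gl L with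
        | none => rw [hL] at ihl; simp at ihl
        | some L' =>
          rw [hL] at ihl
          simp only [Option.map_some, Option.some.injEq] at ihl
          rw [gl_append_some hL]
          simp [fr, ihl]
      | node b u v =>
        simp only [gf, Option.some.injEq] at ihl ⊢
        simp [fr, ihl]
    | none =>
      rw [hg] at ihl
      simp only [Option.map_none] at ihl
      cases t0 with
      | node b u v => simp [gf] at ihl
      | nil =>
        simp only [gf] at ihl ⊢
        cases hL : gl L with
        | some L' => rw [hL] at ihl; simp at ihl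
        | none =>
          rw [gl_append_none hL, gl_cons, ← ihr]
          simp only [Option.map_map]
          cases grow r with
          | none => simp
          | some r' => simp [fr, hl]

theorem grow_spec {p p' : PT} (h : grow p = some p') :
    p'.tr = p.tr ∧ p'.sz = p.sz + 1 ∧ ∀ x ∈ p.ks, x ∈ p'.ks := by
  induction p generalizing p' with
  | ext t =>
    cases t with
    | nil => simp [grow] at h
    | node a l r =>
      simp only [grow, Option.some.injEq] at h
      subst h
      simp [tr, sz, ks]
  | node a l r ihl ihr =>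
    simp only [grow] at h
    cases hg : grow l with
    | some l' =>
      rw [hg] at h
      simp only [Option.some.injEq] at h
      subst h
      obtain ⟨h1, h2, h3⟩ := ihl hg
      refine ⟨by simp [tr, h1], by simp [sz, h2]; omega, ?_⟩
      intro x hx
      simp only [ks, List.mem_append, List.mem_cons] at hx ⊢
      rcases hx with hx | hx
      · exact Or.inl (h3 x hx)
      · exact Or.inr hx
    | none =>
      rw [hg] at h
      simp only [Option.map_eq_some_iff] at h
      obtain ⟨r', h0, rfl⟩ := h
      obtain ⟨h1, h2, h3⟩ := ihr h0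
      refine ⟨by simp [tr, h1], by simp [sz, h2]; omega, ?_⟩
      intro x hx
      simp only [ks, List.mem_append, List.mem_cons] at hx ⊢
      rcases hx with hx | hx | hx
      · exact Or.inl hx
      · exact Or.inr (Or.inl hx)
      · exact Or.inr (Or.inr (h3 x hx))

theorem grow_none {p : PT} (h : grow p = none) : (keys p.tr).length = p.sz := by
  induction p with
  | ext t =>
    cases t with
    | nil => rfl
    | node a l r => simp [grow] at h
  | node a l r ihl ihr =>
    simp only [grow] at h
    cases hg : grow l with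
    | some l' => rw [hg] at h; simp at h
    | none =>
      rw [hg] at h
      simp only [Option.map_eq_none_iff] at h
      have h1 := ihl hg
      have h2 := ihr h
      simp only [tr, keys, sz, List.length_append, List.length_cons, h1, h2]
      omega

theorem four : ∀ (m : ℕ) {p q : PT}, 4 - p.sz = m → p.fr = q.fr → 4 ≤ (keys p.tr).length →
    ∃ p' q' : PT, p'.tr = p.tr ∧ q'.tr = q.tr ∧ p'.fr = q'.fr ∧ 4 ≤ p'.sz ∧ p'.sz ≤ p.sz + m := by
  intro m
  induction m with
  | zero => intro p q hm h _; exact ⟨p, q, rfl, rfl, h, by omega, by omega⟩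
  | succ m ih =>
    intro p q hm h hk
    have h1 := grow_fr p
    have h2 := grow_fr q
    rw [← h, ← h1] at h2
    cases hp : grow p with
    | none =>
      have := grow_none hp
      omega
    | some p1 =>
      cases hq : grow q with
      | none => rw [hp, hq] at h2; simp at h2
      | some q1 =>
        rw [hp, hq] at h2
        simp only [Option.map_some, Option.some.injEq] at h2
        obtain ⟨a1, a2, -⟩ := grow_spec hp
        obtain ⟨b1, b2, -⟩ := grow_spec hq
        obtain ⟨p', q', c1, c2, c3, c4, c5⟩ := ih (p := p1) (q := q1) (by omega) h2.symm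
          (by rw [a1]; exact hk)
        exact ⟨p', q', c1.trans a1, c2.trans b1, c3, c4, by omega⟩

end PT

/-- executions are simulated by splaying a sequence which contains the requests -/
theorem lazy_sim {T : Tr} {X : List ℕ} {w : ℕ} (h : Lazy T X w) : IsBST T →
    4 ≤ (keys T).length →
    ∃ Z : List ℕ, X.Sublist Z ∧ (∀ z ∈ Z, z ∈ keys T) ∧ costSplay T Z ≤ 331 * w := by
  induction h with
  | nil K => intro _ _; exact ⟨[], List.Sublist.refl _, by simp, by simp [costSplay]⟩
  | cons C C' x X q w h1 h2 h3 _ ih =>
    intro hb hk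
    rw [← PT.ofC_tr] at hb hk ih ⊢
    rw [← PT.ofC_sz] at h2
    rw [PT.ofC_ks] at h3
    rw [PT.fl_eq, PT.fl_eq] at h1
    have hf := PT.un_inj h1
    generalize PT.ofC C = p at *
    generalize PT.ofC C' = p2 at *
    have hk2 := PT.keys_congr hf
    obtain ⟨Z', e1, e2, e3⟩ := ih (PT.bst_congr hf hb) (by rw [← hk2]; exact hk)
    obtain ⟨q1, f1, f2⟩ := PT.psplay hb h3
    have f3 := f2 (fun t => t)
    rw [PT.pr_id, PT.pr_id] at f3
    obtain ⟨d1, d2⟩ := PT.pdep hb h3 id
    have hk1 := PT.keys_congr f1
    obtain ⟨q', p', g1, g2, g3, g4, g5⟩ := PT.four _ (p := q1) (q := p2) rfl (f1.trans hf)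
      (by rw [hk1]; exact hk)
    obtain ⟨R, i1, i2, i3⟩ := PT.reset g3 g4 (by rw [g1]; exact PT.bst_congr f1.symm hb)
    rw [g1, g2] at i2
    rw [g1] at i3
    refine ⟨x :: (R ++ Z'), ?_, ?_, ?_⟩
    · exact List.Sublist.cons_cons x (e1.trans (List.sublist_append_right R Z'))
    · intro z hz
      rcases List.mem_cons.1 hz with rfl | hz
      · exact PT.ks_sub p z h3
      · rcases List.mem_append.1 hz with hz | hz
        · rw [← hk1, ← g1]; exact PT.ks_sub q' z (i1 z hz)
        · rw [hk2]; exact e2 z hz
    · simp only [costSplay]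
      rw [f3, costSplay_append, i2]
      have hsz := PT.sz_congr f1
      omega

/-- the simulation -/
theorem simulate {T : Tr} (hb : IsBST T) (hk : 4 ≤ (keys T).length) {X : List ℕ}
    (hX : ∀ x ∈ X, x ∈ keys T) :
    ∃ Z : List ℕ, X.Sublist Z ∧ (∀ z ∈ Z, z ∈ keys T) ∧ costSplay T Z ≤ 331 * opt T X := by
  obtain ⟨w, h1, h2⟩ := Y388.SP.main Y562.SP.PULL.main X 0 (opt T X) T T hb (RotN.refl T)
    (opt_spec T X) hX
  obtain ⟨Z, h3, h4, h5⟩ := lazy_sim h2 hb hk
  exact ⟨Z, h3, h4, by omega⟩

/-- the subsequence property with an additive term -/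
def SubP (T : Tr) (c B : ℝ) : Prop :=
  ∀ Z X : List ℕ, (∀ z ∈ Z, z ∈ keys T) → X.Sublist Z →
    (costSplay T X : ℝ) ≤ c * costSplay T Z + B

theorem subP_comp {T : Tr} (hb : IsBST T) (hk : 4 ≤ (keys T).length) {c B : ℝ} (hc : 0 ≤ c)
    (h : SubP T c B) : Comp T (331 * c) B := by
  intro X hX
  obtain ⟨Z, h1, h2, h3⟩ := simulate hb hk hX
  have h4 := h Z X h2 h1
  have h5 : (costSplay T Z : ℝ) ≤ 331 * opt T X := by exact_mod_cast h3
  nlinarith

theorem dep_rot {x : ℕ} {T T' : Tr} {s : ℕ} (h : Rot T T' s) : IsBST T →
    dep x T ≤ dep x T' + 1 := by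
  induction h with
  | right a b A B C =>
    intro hb
    obtain ⟨h1, h2, h3, h4⟩ := bst_node hb
    have hba : b < a := h3 b (by simp [keys])
    simp only [dep]
    split_ifs <;> omega
  | left a b A B C =>
    intro hb
    obtain ⟨h1, h2, h3, h4⟩ := bst_node hb
    have hba : b < a := h4 a (by simp [keys])
    simp only [dep]
    split_ifs <;> omega
  | inl a L L' R s _ ih =>
    intro hb
    have := ih (bst_node hb).1
    simp only [dep]
    split_ifs <;> omega
  | inr a L R R' s _ ih =>
    intro hb
    have := ih (bst_node hb).2.1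
    simp only [dep]
    split_ifs <;> omega

theorem dep_rotN {x : ℕ} {T T' : Tr} {e : ℕ} (h : RotN e T T') : IsBST T →
    dep x T ≤ dep x T' + e := by
  induction h with
  | refl T => intro _; omega
  | step e s T U V h1 _ ih =>
    intro hb
    have h2 := dep_rot (x := x) h1 hb
    have h3 := ih (by unfold IsBST; rw [rot_keys h1]; exact hb)
    omega

/-- dropping requests at most doubles the optimum -/
theorem drop {V : Tr} {Z : List ℕ} {c : ℕ} (h : Exec V Z c) : ∀ (K : Tr) (s : ℕ) (X : List ℕ),
    IsBST K → RotN s K V → X.Sublist Z → ∃ c' ≤ 2 * c + 2 * s, Exec K X c' := by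
  induction h with
  | nil T =>
    intro K s X _ _ hX
    rw [List.sublist_nil] at hX
    subst hX
    exact ⟨0, by omega, Exec.nil K⟩
  | cons T T' z Z e c h1 _ ih =>
    intro K s X hb hs hX
    cases X with
    | nil => exact ⟨0, by omega, Exec.nil K⟩
    | cons x X =>
      rcases List.sublist_cons_iff.1 hX with h2 | ⟨r, h2, h3⟩
      · obtain ⟨c', h3, h4⟩ := ih K (s + e) (x :: X) hb (rotN_trans hs h1) h2
        exact ⟨c', by omega, h4⟩
      · simp only [List.cons.injEq] at h2
        obtain ⟨rfl, rfl⟩ := h2
        have hb' : IsBST T' := by unfold IsBST; rw [rotN_keys h1, rotN_keys hs]; exact hb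
        obtain ⟨c', h4, h5⟩ := ih T' 0 X hb' (RotN.refl T') h3
        have h6 := dep_rotN (x := x) hs hb
        exact ⟨_, by omega, Exec.cons K T' x X (s + e) c' (rotN_trans hs h1) h5⟩

theorem opt_sub {T : Tr} (hb : IsBST T) {X Z : List ℕ} (h : X.Sublist Z) :
    opt T X ≤ 2 * opt T Z := by
  obtain ⟨c', h1, h2⟩ := drop (opt_spec T Z) T 0 X hb (RotN.refl T) h
  exact (opt_le h2).trans (by omega)

theorem comp_subP {T : Tr} (hb : IsBST T) {c B : ℝ} (hc : 0 ≤ c) (h : Comp T c B) :
    SubP T (4 * c) B := by
  intro Z X hZ hX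
  have h1 := h X (fun x hx => hZ x (hX.subset hx))
  have h2 := opt_sub hb hX
  obtain ⟨d, h3, h4⟩ := serve Z hb hZ
  have h5 := opt_le h4.exec
  have h6 : (opt T X : ℝ) ≤ 4 * costSplay T Z := by
    have : opt T X ≤ 4 * costSplay T Z := by omega
    exact_mod_cast this
  nlinarith

end Pool.Agent.R531.Spl
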