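import Pool.Agent.Y232.SP.WS
import Pool.Agent.R531.Spl.Pot
import Pool.Agent.H581R2.SplayMTR

set_option autoImplicit false

/-! The working set bound for splaying with a small start-up cost. -/

namespace Pool.Agent.R531.Spl

open Pool.Agent.H581R2.Splay Tr Pool.Agent.TH49.Spl Pool.Agent.Y395.SP Pool.Agent.Y232.SP.WS

/-- the potential without the root -/
noncomputable def Q (w : ℕ → ℝ) : Tr → ℝ
  | nil => 0
  | node _ l r => P w l + P w r

/-- the weights of the keys in `E` after the history `h` -/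
noncomputable def wk (E : Finset ℕ) (h : List ℕ) (a : ℕ) : ℝ :=
  if a ∈ E then (if a ∈ h then ((E.card : ℝ) / ((ws h a : ℝ) + 1)) ^ 2 else 1) else 0

theorem ws_lt' {E : Finset ℕ} {h : List ℕ} {a : ℕ} (hE : ∀ y ∈ h, y ∈ E) (ha : a ∈ E) :
    ws h a + 1 ≤ E.card := by
  have h1 : insert a (tw h a) ⊆ E := by
    intro y hy
    rcases Finset.mem_insert.1 hy with h2 | h2
    · rw [h2]; exact ha
    · exact hE y (tw_sub h a y h2)
  have h2 := Finset.card_le_card h1
  rwa [Finset.card_insert_of_notMem (tw_self h a)] at h2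

theorem wk_ge {E : Finset ℕ} {h : List ℕ} (hE : ∀ y ∈ h, y ∈ E) {a : ℕ} (ha : a ∈ E) :
    1 ≤ wk E h a := by
  unfold wk
  rw [if_pos ha]
  split_ifs with hh
  · have h1 : ((ws h a : ℝ) + 1) ≤ E.card := by exact_mod_cast ws_lt' hE ha
    have h2 : 1 ≤ (E.card : ℝ) / ((ws h a : ℝ) + 1) := by
      rw [le_div_iff₀ (by positivity)]; linarith
    nlinarith
  · exact le_refl _

theorem wk_W1 {E : Finset ℕ} {h : List ℕ} (hE : ∀ y ∈ h, y ∈ E) : W1 (wk E h) := by
  intro a
  by_cases ha : a ∈ E
  · exact Or.inr (wk_ge hE ha)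
  · left; unfold wk; rw [if_neg ha]

theorem g_mono {s t : ℝ} (hs : s = 0 ∨ 1 ≤ s) (ht : t = 0 ∨ 1 ≤ t) (h : s ≤ t) : g s ≤ g t := by
  rcases ht with ht | ht
  · rcases hs with hs | hs
    · rw [hs, ht]
    · linarith
  · rw [g_pos ht]; exact g_le hs ht h

theorem wt_mono' {w w' : ℕ → ℝ} (t : Tr) (h : ∀ a ∈ keys t, w' a ≤ w a) : wt w' t ≤ wt w t := by
  induction t with
  | nil => simp [wt]
  | node a l r ihl ihr =>
    simp only [wt]
    have h1 := ihl (fun b hb => h b (by simp [keys, hb]))
    have h2 := ihr (fun b hb => h b (by simp [keys, hb]))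
    have h3 := h a (by simp [keys])
    linarith

theorem P_mono {w w' : ℕ → ℝ} (hw : W1 w) (hw' : W1 w') (t : Tr)
    (h : ∀ a ∈ keys t, w' a ≤ w a) : P w' t ≤ P w t := by
  induction t with
  | nil => simp [P]
  | node a l r ihl ihr =>
    have h1 := ihl (fun b hb => h b (by simp [keys, hb]))
    have h2 := ihr (fun b hb => h b (by simp [keys, hb]))
    have h3 := g_mono (wt_one hw' (node a l r)) (wt_one hw (node a l r)) (wt_mono' _ h)
    simp only [P]
    linarith

theorem P_eq {w : ℕ → ℝ} {S : Tr} {x : ℕ} (hx : x ∈ keys S) : P w S = g (wt w S) + Q w S := by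
  cases S with
  | nil => simp [keys] at hx
  | node a l r => simp only [P, Q]; ring

theorem Q_nn {w : ℕ → ℝ} (hw : W1 w) (t : Tr) : 0 ≤ Q w t := by
  cases t with
  | nil => simp [Q]
  | node a l r => simp only [Q]; have := P_nn hw l; have := P_nn hw r; linarith

/-- one request; the weights of the other keys may decrease afterwards -/
theorem step {w w' : ℕ → ℝ} (hw : W1 w) (hw' : W1 w') {S : Tr} {x : ℕ} (hb : IsBST S)
    (hx : x ∈ keys S) (hxw : 1 ≤ w x) (h : ∀ a, a ≠ x → w' a ≤ w a) :
    (dep x S : ℝ) + Q w' (splay x S) ≤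
      Q w S + 3 * (Real.logb 2 (wt w S) - Real.logb 2 (w x)) + 1 := by
  obtain ⟨h1, h2, h3⟩ := access hw hxw hb hx
  have hx' : x ∈ keys (splay x S) := by rw [h1]; exact hx
  rw [P_eq hx, P_eq hx', h2] at h3
  have h4 : Q w' (splay x S) ≤ Q w (splay x S) := by
    have hb' : IsBST (splay x S) := by unfold IsBST; rw [h1]; exact hb
    obtain ⟨l, r, hlr⟩ := splay_root x S
    rw [hlr] at hb' ⊢
    obtain ⟨_, _, b3, b4⟩ := bst_node hb'
    simp only [Q]
    have q1 := P_mono hw hw' l (fun a ha => h a (by have := b3 a ha; omega))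
    have q2 := P_mono hw hw' r (fun a ha => h a (by have := b4 a ha; omega))
    linarith
  linarith

/-- the total weight -/
theorem wk_total {E : Finset ℕ} (h : List ℕ) (hE : ∀ y ∈ h, y ∈ E) {S : Tr} (hb : IsBST S)
    (hne : E.Nonempty) : wt (wk E h) S ≤ 4 * (E.card : ℝ) ^ 2 := by
  have nod : (keys S).Nodup := List.Pairwise.imp (fun {a b} h => by omega) hb
  have hk : (1 : ℝ) ≤ E.card := by exact_mod_cast hne.card_pos
  rw [wt_eq, ← List.sum_toFinset _ nod]
  have h0 : ∑ a ∈ (keys S).toFinset, wk E h a ≤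
      ∑ a ∈ E, wk E h a := by
    have e1 : ∑ a ∈ (keys S).toFinset, wk E h a = ∑ a ∈ (keys S).toFinset with a ∈ E, wk E h a := by
      rw [Finset.sum_filter]
      refine Finset.sum_congr rfl fun a _ => ?_
      split_ifs with ha
      · rfl
      · unfold wk; rw [if_neg ha]
    rw [e1]
    refine Finset.sum_le_sum_of_subset_of_nonneg ?_ (fun a _ _ => (wk_W1 hE).nonneg a)
    intro a ha
    exact (Finset.mem_filter.1 ha).2
  have h1 : ∀ a ∈ E, wk E h a ≤
      (if a ∈ h then (E.card : ℝ) ^ 2 * (1 / ((ws h a : ℝ) + 1) ^ 2) else 0) + 1 := by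
    intro a ha
    unfold wk
    rw [if_pos ha]
    split_ifs
    · rw [div_pow]
      have : (E.card : ℝ) ^ 2 / ((ws h a : ℝ) + 1) ^ 2 =
        (E.card : ℝ) ^ 2 * (1 / ((ws h a : ℝ) + 1) ^ 2) := by ring
      linarith
    · linarith
  refine h0.trans (le_trans (Finset.sum_le_sum h1) ?_)
  rw [Finset.sum_add_distrib, Finset.sum_const, nsmul_eq_mul, ← Finset.sum_filter,
    ← Finset.mul_sum]
  have h3 : ∑ a ∈ E with a ∈ h, 1 / ((ws h a : ℝ) + 1) ^ 2 ≤
      ∑ a ∈ h.toFinset, 1 / ((ws h a : ℝ) + 1) ^ 2 := by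
    refine Finset.sum_le_sum_of_subset_of_nonneg ?_ (fun _ _ _ => by positivity)
    intro a ha
    rw [Finset.mem_filter] at ha
    rw [List.mem_toFinset]
    exact ha.2
  have h4 : ∑ a ∈ h.toFinset, 1 / ((ws h a : ℝ) + 1) ^ 2 =
      ∑ k ∈ h.toFinset.image (ws h), 1 / ((k : ℝ) + 1) ^ 2 :=
    (Finset.sum_image (f := fun k : ℕ => 1 / ((k : ℝ) + 1) ^ 2)
      (fun a ha b hb hab => ws_inj h ha hb hab)).symm
  have h5 : ∑ k ∈ h.toFinset.image (ws h), 1 / ((k : ℝ) + 1) ^ 2 ≤
      ∑ k ∈ Finset.range (h.length + 1), 1 / ((k : ℝ) + 1) ^ 2 := by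
    refine Finset.sum_le_sum_of_subset_of_nonneg ?_ (fun _ _ _ => by positivity)
    intro k hk
    rw [Finset.mem_image] at hk
    obtain ⟨a, -, rfl⟩ := hk
    rw [Finset.mem_range, Nat.lt_succ_iff, ws_eq]
    refine le_trans (Finset.card_le_card (fun y hy => ?_)) (List.toFinset_card_le h)
    rw [List.mem_toFinset]
    exact tw_sub h a y hy
  have h6 := sum_sq h.length
  have h7 : (0 : ℝ) < 1 / ((h.length : ℝ) + 1) := by positivity
  have h8 : ∑ a ∈ E with a ∈ h, 1 / ((ws h a : ℝ) + 1) ^ 2 ≤ 2 := by linarith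
  nlinarith [mul_le_mul_of_nonneg_left h8 (sq_nonneg (E.card : ℝ))]

theorem log4 {k : ℝ} (hk : 1 ≤ k) : Real.logb 2 (4 * k ^ 2) = 2 + 2 * Real.logb 2 k := by
  rw [Real.logb_mul (by norm_num) (by positivity), logb_four, Real.logb_pow]
  push_cast
  ring

theorem run {E : Finset ℕ} (hne : E.Nonempty) (X : List ℕ) : ∀ (S : Tr) (h : List ℕ), IsBST S →
    (∀ y ∈ h, y ∈ E) → (∀ x ∈ X, x ∈ keys S ∧ x ∈ E) →
      (costSplay S X : ℝ) ≤ Q (wk E h) S + 8 * X.length + 6 * wsum h X +
          6 * (X.toFinset \ h.toFinset).card * Real.logb 2 E.card := by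
  have hn' : (1 : ℝ) ≤ E.card := by exact_mod_cast hne.card_pos
  have hL : (0 : ℝ) ≤ Real.logb 2 E.card := Real.logb_nonneg (by norm_num) hn'
  induction X with
  | nil =>
    intro S h _ hh _
    have := Q_nn (wk_W1 hh) S
    simpa [costSplay, wsum] using this
  | cons x X ih =>
    intro S h hb hh hX
    have hxS : x ∈ keys S := (hX x (by simp)).1
    have hxE : x ∈ E := (hX x (by simp)).2
    obtain ⟨hk, -, -⟩ := access (wk_W1 hh) (wk_ge hh hxE) hb hxS
    have hb' : IsBST (splay x S) := by unfold IsBST; rw [hk]; exact hb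
    have hh' : ∀ y ∈ x :: h, y ∈ E := by
      intro y hy
      rcases List.mem_cons.1 hy with h1 | h1
      · rw [h1]; exact hxE
      · exact hh y h1
    have hi := ih (splay x S) (x :: h) hb' hh' (fun y hy => by
      rw [hk]; exact hX y (by simp [hy]))
    have htot := wk_total h hh hb hne
    have hlog : Real.logb 2 (wt (wk E h) S) ≤ 2 + 2 * Real.logb 2 E.card := by
      rw [← log4 hn']
      refine logb_mono ?_ htot
      have h1 := wk_ge hh hxE
      have h2 : wk E h x ≤ wt (wk E h) S := by
        obtain ⟨s1, s2⟩ := List.append_of_mem hxS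
        obtain ⟨s2, hs⟩ := s2
        rw [wt_eq, hs, List.map_append, List.sum_append, List.map_cons, List.sum_cons]
        have q1 : 0 ≤ (s1.map (wk E h)).sum := List.sum_nonneg (by
          intro y hy
          obtain ⟨z, -, rfl⟩ := List.mem_map.1 hy
          exact (wk_W1 hh).nonneg z)
        have q2 : 0 ≤ (s2.map (wk E h)).sum := List.sum_nonneg (by
          intro y hy
          obtain ⟨z, -, rfl⟩ := List.mem_map.1 hy
          exact (wk_W1 hh).nonneg z)
        linarith
      linarith
    have hstep := step (w := wk E h) (w' := wk E (x :: h)) (wk_W1 hh) (wk_W1 hh') hb hxS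
      (wk_ge hh hxE) (by
        intro a ha
        by_cases haE : a ∈ E
        · unfold wk
          rw [if_pos haE, if_pos haE]
          by_cases hc : a ∈ h
          · rw [if_pos hc, if_pos (List.mem_cons_of_mem _ hc)]
            have h1 : ws h a ≤ ws (x :: h) a := by
              rw [ws_eq, ws_eq, tw_cons_ne h (Ne.symm ha)]
              exact Finset.card_le_card (Finset.subset_insert _ _)
            have h2 : (ws h a : ℝ) ≤ ws (x :: h) a := by exact_mod_cast h1
            have h3 : (E.card : ℝ) / ((ws (x :: h) a : ℝ) + 1) ≤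
                (E.card : ℝ) / ((ws h a : ℝ) + 1) :=
              div_le_div_of_nonneg_left (by positivity) (by positivity) (by linarith)
            exact pow_le_pow_left₀ (by positivity) h3 2
          · have hc' : a ∉ x :: h := by
              rw [List.mem_cons]; tauto
            rw [if_neg hc, if_neg hc']
        · unfold wk
          rw [if_neg haE, if_neg haE])
    have hws : (0 : ℝ) ≤ Real.logb 2 ((ws h x : ℝ) + 1) := by
      apply Real.logb_nonneg (by norm_num)
      have : (0 : ℝ) ≤ ws h x := by positivity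
      linarith
    simp only [costSplay, wsum, List.length_cons, List.toFinset_cons]
    simp only [List.toFinset_cons] at hi
    push_cast
    by_cases hxA : x ∈ h
    · have hxA' : x ∈ h.toFinset := List.mem_toFinset.2 hxA
      have e1 : insert x h.toFinset = h.toFinset := Finset.insert_eq_of_mem hxA'
      rw [e1] at hi
      have e2 : (insert x X.toFinset) \ h.toFinset = X.toFinset \ h.toFinset :=
        Finset.insert_sdiff_of_mem _ hxA'
      rw [e2]
      have e3 : Real.logb 2 (wk E h x) =
          2 * (Real.logb 2 E.card - Real.logb 2 ((ws h x : ℝ) + 1)) := by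
        unfold wk
        rw [if_pos hxE, if_pos hxA, Real.logb_pow, Real.logb_div (by positivity) (by positivity)]
        push_cast
        ring
      rw [e3] at hstep
      linarith
    · have hxA' : x ∉ h.toFinset := fun hc => hxA (List.mem_toFinset.1 hc)
      have e2 : ((insert x X.toFinset) \ h.toFinset).card =
          (X.toFinset \ insert x h.toFinset).card + 1 := by
        rw [Finset.insert_sdiff_of_notMem _ hxA']
        have : insert x (X.toFinset \ h.toFinset) = insert x (X.toFinset \ insert x h.toFinset) := by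
          ext y
          simp only [Finset.mem_insert, Finset.mem_sdiff]
          tauto
        rw [this, Finset.card_insert_of_notMem (by simp)]
      rw [e2]
      have e3 : Real.logb 2 (wk E h x) = 0 := by
        unfold wk
        rw [if_pos hxE, if_neg hxA, Real.logb_one]
      rw [e3] at hstep
      push_cast
      linarith

end Pool.Agent.R531.Spl
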