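import Pool.Agent.R531.Spl.Eqv

set_option autoImplicit false

/-! Walks in the rotation graph. -/

namespace Pool.Agent.R531.Spl

open Pool.Agent.H581R2.Splay Pool.Agent.TH49.Spl Pool.Agent.TH22.SP Pool.Agent.Y395.SP

/-- `RotAt d T T'`: `T'` arises from `T` by one rotation, which moves a node whose depth in `T` is at
least 1 and at most `d` above its parent -/
inductive RotAt : ℕ → Tr → Tr → Prop
  | right (d a b : ℕ) (A B C : Tr) :
      RotAt (d + 1) (Tr.node a (Tr.node b A B) C) (Tr.node b A (Tr.node a B C))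
  | left (d a b : ℕ) (A B C : Tr) :
      RotAt (d + 1) (Tr.node b A (Tr.node a B C)) (Tr.node a (Tr.node b A B) C)
  | inl (d a : ℕ) (L L' R : Tr) : RotAt d L L' → RotAt (d + 1) (Tr.node a L R) (Tr.node a L' R)
  | inr (d a : ℕ) (L R R' : Tr) : RotAt d R R' → RotAt (d + 1) (Tr.node a L R) (Tr.node a L R')

/-- `Walk d T Y`: there are trees `T = T_0, T_1, …, T_m`, each equal to the preceding one or obtained
from it by one rotation which moves up a node of depth at most `d`, and `Y` lists the root keys of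
`T_1, …, T_m` -/
inductive Walk (d : ℕ) : Tr → List ℕ → Prop
  | nil (T : Tr) : Walk d T []
  | stay (y : ℕ) (l r : Tr) (Y : List ℕ) :
      Walk d (Tr.node y l r) Y → Walk d (Tr.node y l r) (y :: Y)
  | rot (T : Tr) (y : ℕ) (l r : Tr) (Y : List ℕ) :
      RotAt d T (Tr.node y l r) → Walk d (Tr.node y l r) Y → Walk d T (y :: Y)

theorem RotAt.rot {d : ℕ} {T T' : Tr} (h : RotAt d T T') : ∃ s, Rot T T' s := by
  induction h with
  | right d a b A B C => exact ⟨_, Rot.right a b A B C⟩
  | left d a b A B C => exact ⟨_, Rot.left a b A B C⟩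
  | inl d a L L' R _ ih => obtain ⟨s, hs⟩ := ih; exact ⟨_, Rot.inl a _ _ R s hs⟩
  | inr d a L R R' _ ih => obtain ⟨s, hs⟩ := ih; exact ⟨_, Rot.inr a L _ _ s hs⟩

theorem Walk.exec {d : ℕ} {T : Tr} {Y : List ℕ} (h : Walk d T Y) : IsBST T →
    (∀ y ∈ Y, y ∈ keys T) ∧ ∃ c ≤ 3 * Y.length, Exec T Y c := by
  induction h with
  | nil T => intro _; exact ⟨by simp, 0, by simp, Exec.nil T⟩
  | stay y l r Y _ ih =>
    intro hb
    obtain ⟨h1, c, h2, h3⟩ := ih hb
    refine ⟨?_, _, ?_, Exec.cons _ _ y Y 0 c (RotN.refl _) h3⟩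
    · intro z hz
      rcases List.mem_cons.1 hz with rfl | hz
      · simp [keys]
      · exact h1 z hz
    · rw [dep_a, List.length_cons]; omega
  | rot T y l r Y hr _ ih =>
    intro hb
    obtain ⟨s, hs⟩ := hr.rot
    have hk := rot_keys hs
    obtain ⟨h1, c, h2, h3⟩ := ih (by unfold IsBST; rw [hk]; exact hb)
    refine ⟨?_, _, ?_, Exec.cons _ _ y Y 1 c (rotN_one hs) h3⟩
    · intro z hz
      rw [← hk]
      rcases List.mem_cons.1 hz with rfl | hz
      · simp [keys]
      · exact h1 z hz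
    · have h4 := dep_rot (x := y) hs hb
      rw [dep_a] at h4
      rw [List.length_cons]; omega

namespace PT

theorem foldl_fr (L : List (ℕ × Tr)) : ∀ acc : PT,
    (L.foldl st acc).fr = (acc.fr.1, acc.fr.2 ++ L) := by
  induction L with
  | nil => intro acc; simp
  | cons x L ih => intro acc; simp [List.foldl_cons, ih, st, fr]

theorem lp_fr (f : Tr × List (ℕ × Tr)) : (lp f).fr = f := by
  rw [lp, foldl_fr]; simp [fr]

/-- an arrangement with a given root -/
theorem rooted {p : PT} {x : ℕ} (hx : x ∈ p.ks) : ∃ B D : PT, (node x B D).fr = p.fr := by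
  rw [ks_eq, List.mem_map] at hx
  obtain ⟨⟨x', t⟩, h1, rfl⟩ := hx
  obtain ⟨L1, L2, h2⟩ := List.append_of_mem h1
  refine ⟨lp (p.fr.1, L1), lp (t, L2), ?_⟩
  simp only [fr, lp_fr]
  rw [← h2]

theorem split_list {x : ℕ} : ∀ {L1 L1' L2 L2' : List (ℕ × Tr)} {t t' : Tr},
    L1 ++ (x, t) :: L2 = L1' ++ (x, t') :: L2' → x ∉ L1.map Prod.fst → x ∉ L1'.map Prod.fst →
    L1 = L1' ∧ t = t' ∧ L2 = L2' := by
  intro L1
  induction L1 with
  | nil =>
    intro L1' L2 L2' t t' h _ h2
    cases L1' with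
    | nil => simpa using h
    | cons y L1' =>
      simp only [List.nil_append, List.cons_append, List.cons.injEq] at h
      exfalso; apply h2; rw [← h.1]; simp
  | cons z L1 ih =>
    intro L1' L2 L2' t t' h h1 h2
    cases L1' with
    | nil =>
      simp only [List.nil_append, List.cons_append, List.cons.injEq] at h
      exfalso; apply h1; rw [h.1]; simp
    | cons y L1' =>
      simp only [List.cons_append, List.cons.injEq] at h
      obtain ⟨h3, h4⟩ := h
      simp only [List.map_cons, List.mem_cons, not_or] at h1 h2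
      obtain ⟨h5, h6, h7⟩ := ih h4 h1.2 h2.2
      exact ⟨by rw [h3, h5], h6, h7⟩

theorem split {x : ℕ} {A B A' B' : PT} (hb : IsBST (node x A B).tr)
    (h : (node x A B).fr = (node x A' B').fr) : A.fr = A'.fr ∧ B.fr = B'.fr := by
  have hb' := bst_congr h hb
  have h1 : x ∉ A.fr.2.map Prod.fst := by
    rw [← ks_eq]; intro hx
    have := (bst_node (by simpa only [tr] using hb)).2.2.1 x (ks_sub A x hx)
    omega
  have h2 : x ∉ A'.fr.2.map Prod.fst := by
    rw [← ks_eq]; intro hx
    have := (bst_node (by simpa only [tr] using hb')).2.2.1 x (ks_sub A' x hx)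
    omega
  simp only [fr, Prod.mk.injEq] at h
  obtain ⟨h3, h4⟩ := h
  obtain ⟨h5, h6, h7⟩ := split_list h4 h1 h2
  exact ⟨Prod.ext h3 h5, Prod.ext h6 h7⟩

/-- the same tree, more nodes in the top part -/
inductive Re : PT → PT → Prop
  | ext (p : PT) : Re (ext p.tr) p
  | node (a : ℕ) (l r l' r' : PT) : Re l l' → Re r r' → Re (node a l r) (node a l' r')

theorem Re.refl (p : PT) : Re p p := by
  induction p with
  | ext t => exact Re.ext (PT.ext t)
  | node a l r ihl ihr => exact Re.node a l r l r ihl ihr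

theorem Re.tr_eq {p q : PT} (h : Re p q) : q.tr = p.tr := by
  induction h with
  | ext p => rfl
  | node a l r l' r' _ _ ihl ihr => simp [tr, ihl, ihr]

theorem Re.mv {p q u : PT} (h : Re p u) (hm : Mv p q) : ∃ u', Mv u u' ∧ Re q u' := by
  cases hm with
  | rr a b A B C =>
    cases h with
    | node _ _ _ l' r' h1 h2 =>
      cases h1 with
      | node _ _ _ A' B' h3 h4 =>
        exact ⟨_, Mv.rr a b A' B' r', Re.node _ _ _ _ _ h3 (Re.node _ _ _ _ _ h4 h2)⟩
  | rl a b A B C =>
    cases h with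
    | node _ _ _ l' r' h1 h2 =>
      cases h2 with
      | node _ _ _ B' C' h3 h4 =>
        exact ⟨_, Mv.rl a b l' B' C', Re.node _ _ _ _ _ (Re.node _ _ _ _ _ h1 h3) h4⟩
  | zf x y z A B C D =>
    cases h with
    | node _ _ _ A' r' h1 h2 =>
      cases h2 with
      | node _ _ _ m D' h3 h4 =>
        cases h3 with
        | node _ _ _ B' C' h5 h6 =>
          exact ⟨_, Mv.zf x y z A' B' C' D',
            Re.node _ _ _ _ _ h1 (Re.node _ _ _ _ _ h5 (Re.node _ _ _ _ _ h6 h4))⟩
  | zb x y z A B C D =>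
    cases h with
    | node _ _ _ A' r' h1 h2 =>
      cases h2 with
      | node _ _ _ B' m h3 h4 =>
        cases h4 with
        | node _ _ _ C' D' h5 h6 =>
          exact ⟨_, Mv.zb x y z A' B' C' D',
            Re.node _ _ _ _ _ h1 (Re.node _ _ _ _ _ (Re.node _ _ _ _ _ h3 h5) h6)⟩

theorem Re.mvs {n : ℕ} {k p : PT} (hm : Mvs n k p) : ∀ {u : PT}, Re k u →
    ∃ p', Re p p' ∧ p'.fr = u.fr := by
  induction hm with
  | refl p => intro u h; exact ⟨u, h, rfl⟩
  | step n k q p h1 _ ih =>
    intro u h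
    obtain ⟨u', h2, h3⟩ := h.mv h1
    obtain ⟨p', h4, h5⟩ := ih h3
    exact ⟨p', h4, h5.trans h2.fr⟩

theorem Re.transport {k u p : PT} (h : Re k u) (hf : k.fr = p.fr) :
    ∃ p', Re p p' ∧ p'.fr = u.fr := by
  obtain ⟨n, _, h1⟩ := connect hf
  exact Re.mvs h1 h

theorem union : ∀ (k c : PT), k.tr = c.tr → ∃ u, Re k u ∧ Re c u ∧ u.sz ≤ k.sz + c.sz := by
  intro k
  induction k with
  | ext t =>
    intro c h
    simp only [tr] at h
    subst h
    exact ⟨c, Re.ext c, Re.refl c, by simp⟩
  | node a l r ihl ihr =>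
    intro c h
    cases c with
    | ext t =>
      simp only [tr] at h
      subst h
      exact ⟨node a l r, Re.refl _, Re.ext (node a l r), by simp⟩
    | node b l' r' =>
      simp only [tr, Tr.node.injEq] at h
      obtain ⟨rfl, h1, h2⟩ := h
      obtain ⟨u1, a1, a2, a3⟩ := ihl l' h1
      obtain ⟨u2, b1, b2, b3⟩ := ihr r' h2
      exact ⟨node a u1 u2, Re.node _ _ _ _ _ a1 b1, Re.node _ _ _ _ _ a2 b2, by
        simp only [sz]; omega⟩

theorem Mv.rotAt {p q : PT} (h : Mv p q) : RotAt 2 p.tr q.tr := by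
  cases h with
  | rr a b A B C => exact RotAt.right 1 a b A.tr B.tr C.tr
  | rl a b A B C => exact RotAt.left 1 a b A.tr B.tr C.tr
  | zf x y z A B C D => exact RotAt.inr 1 x A.tr _ _ (RotAt.right 0 y z B.tr C.tr D.tr)
  | zb x y z A B C D => exact RotAt.inr 1 x A.tr _ _ (RotAt.left 0 y z B.tr C.tr D.tr)

theorem walk_l {n : ℕ} {p q : PT} (h : Mvs n p q) (y : ℕ) (R : Tr) {Y : List ℕ}
    (hw : Walk 3 (Tr.node y q.tr R) Y) :
    Walk 3 (Tr.node y p.tr R) (List.replicate n y ++ Y) := by
  induction h with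
  | refl p => simpa using hw
  | step n p q r h1 _ ih =>
    rw [List.replicate_succ, List.cons_append]
    exact Walk.rot _ y _ _ _ (RotAt.inl 2 y _ _ R h1.rotAt) (ih hw)

theorem walk_r {n : ℕ} {p q : PT} (h : Mvs n p q) (y : ℕ) (L : Tr) {Y : List ℕ}
    (hw : Walk 3 (Tr.node y L q.tr) Y) :
    Walk 3 (Tr.node y L p.tr) (List.replicate n y ++ Y) := by
  induction h with
  | refl p => simpa using hw
  | step n p q r h1 _ ih =>
    rw [List.replicate_succ, List.cons_append]
    exact Walk.rot _ y _ _ _ (RotAt.inr 2 y L _ _ h1.rotAt) (ih hw)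

/-- rearranging both subtrees of the root -/
theorem walk_lr {y : ℕ} {A B A' B' : PT} (hA : A.fr = A'.fr) (hB : B.fr = B'.fr) :
    ∃ n ≤ 6 * (A.sz + B.sz), ∀ Y : List ℕ, Walk 3 (node y A' B').tr Y →
      Walk 3 (node y A B).tr (List.replicate n y ++ Y) := by
  obtain ⟨n, hn, h1⟩ := connect hA
  obtain ⟨m, hm, h2⟩ := connect hB
  refine ⟨n + m, by omega, fun Y hY => ?_⟩
  rw [List.replicate_add, List.append_assoc]
  exact walk_l h1 y B.tr (walk_r h2 y A'.tr hY)

end PT

/-- `Y` arises from `X` by inserting repetitions of the preceding key (of `ρ` at the beginning) -/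
inductive Rp : ℕ → List ℕ → List ℕ → Prop
  | nil (ρ : ℕ) : Rp ρ [] []
  | rep (ρ : ℕ) (X Y : List ℕ) : Rp ρ X Y → Rp ρ X (ρ :: Y)
  | step (ρ x : ℕ) (X Y : List ℕ) : Rp x X Y → Rp ρ (x :: X) (x :: Y)

theorem Rp.reps {ρ : ℕ} {X Y : List ℕ} (h : Rp ρ X Y) (n : ℕ) :
    Rp ρ X (List.replicate n ρ ++ Y) := by
  induction n with
  | zero => simpa using h
  | succ n ih => rw [List.replicate_succ, List.cons_append]; exact Rp.rep ρ X _ ih

theorem climb_root (x : ℕ) : ∀ (fs : List Fr) (l r : Tr), ∃ l' r', climb x fs l r = Tr.node x l' r' := by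
  intro fs
  induction hn : fs.length using Nat.strong_induction_on generalizing fs with
  | _ n ih =>
    intro l r
    match fs, hn with
    | [], hn => exact ⟨_, _, rfl⟩
    | [Fr.inL y c], hn => exact ⟨_, _, rfl⟩
    | [Fr.inR y c], hn => exact ⟨_, _, rfl⟩
    | Fr.inL y c :: Fr.inL z d :: fs, hn =>
      simp only [climb]
      exact ih fs.length (by simp only [List.length_cons] at hn; omega) fs rfl _ _
    | Fr.inR y c :: Fr.inR z d :: fs, hn =>
      simp only [climb]
      exact ih fs.length (by simp only [List.length_cons] at hn; omega) fs rfl _ _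
    | Fr.inL y c :: Fr.inR z d :: fs, hn =>
      simp only [climb]
      exact ih fs.length (by simp only [List.length_cons] at hn; omega) fs rfl _ _
    | Fr.inR y c :: Fr.inL z d :: fs, hn =>
      simp only [climb]
      exact ih fs.length (by simp only [List.length_cons] at hn; omega) fs rfl _ _

theorem Rp.cost {ρ : ℕ} {X Y : List ℕ} (h : Rp ρ X Y) : ∀ l r : Tr,
    costSplay (Tr.node ρ l r) Y + X.length = costSplay (Tr.node ρ l r) X + Y.length := by
  induction h with
  | nil ρ => intro l r; rfl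
  | rep ρ X Y _ ih =>
    intro l r
    have h1 : splay ρ (Tr.node ρ l r) = Tr.node ρ l r := by simp [splay, locate, climb]
    rw [costSplay, h1, dep_a, List.length_cons]
    have := ih l r
    omega
  | step ρ x X Y _ ih =>
    intro l r
    obtain ⟨l', r', h1⟩ := climb_root x (locate x (Tr.node ρ l r) []).1
      (locate x (Tr.node ρ l r) []).2.1 (locate x (Tr.node ρ l r) []).2.2
    have h2 : splay x (Tr.node ρ l r) = Tr.node x l' r' := h1
    rw [costSplay, costSplay, h2, List.length_cons, List.length_cons]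
    have := ih l' r'
    omega

open PT in
theorem lazy_walk {K : Tr} {X : List ℕ} {w : ℕ} (h : Lazy K X w) : IsBST K →
    ∀ (ρ : ℕ) (l r k : PT), k.tr = K → (PT.node ρ l r).fr = k.fr →
    ∃ Y : List ℕ, Walk 3 (PT.node ρ l r).tr Y ∧ Rp ρ X Y ∧
      Y.length ≤ 12 * (PT.node ρ l r).sz + 25 * w := by
  induction h with
  | nil K => intro _ ρ l r k _ _; exact ⟨[], Walk.nil _, Rp.nil ρ, by simp⟩
  | cons C C' x X q w h1 h2 h3 _ ih =>
    intro hb ρ l r k hk hp
    rw [← PT.ofC_tr] at hb hk ih
    rw [← PT.ofC_sz] at h2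
    rw [PT.ofC_ks] at h3
    rw [PT.fl_eq, PT.fl_eq] at h1
    have hf := PT.un_inj h1
    generalize PT.ofC C = c at *
    generalize PT.ofC C' = c' at *
    -- the next arrangement
    obtain ⟨B, D, hBD⟩ := PT.rooted h3
    obtain ⟨u, hu1, hu2, hu3⟩ := PT.union k c hk
    have hbk : IsBST k.tr := by rw [hk]; exact hb
    have hbu : IsBST u.tr := by rw [hu1.tr_eq]; exact hbk
    obtain ⟨p1, hp1, hp2⟩ := hu1.transport hp.symm
    obtain ⟨q1, hq1, hq2⟩ := hu2.transport hBD.symm
    cases hp1 with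
    | node _ _ _ l1 r1 hl1 hr1 =>
    cases hq1 with
    | node _ _ _ B1 D1 hB1 hD1 =>
    have hbp : IsBST (PT.node ρ l1 r1).tr := PT.bst_congr hp2.symm hbu
    have hbq : IsBST (PT.node x B1 D1).tr := PT.bst_congr hq2.symm hbu
    have htrp : (PT.node ρ l r).tr = (PT.node ρ l1 r1).tr := by
      simp [PT.tr, hl1.tr_eq, hr1.tr_eq]
    have htrq : (PT.node x B D).tr = (PT.node x B1 D1).tr := by
      simp [PT.tr, hB1.tr_eq, hD1.tr_eq]
    have hszp : (PT.node ρ l r).sz = k.sz := PT.sz_congr hp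
    have hszp1 := PT.sz_congr hp2
    have hszq1 := PT.sz_congr hq2
    have hszB := PT.sz_congr hBD
    have hszf := PT.sz_congr hf
    have hpos : 1 ≤ c.sz := by
      have := (PT.pdep hb h3 id).2
      omega
    -- the rest of the walk
    obtain ⟨Y', y1, y2, y3⟩ := ih (PT.bst_congr hf hb) x B D c' rfl (hBD.trans hf)
    rw [htrq] at y1
    rw [htrp]
    rcases lt_trichotomy ρ x with hlt | heq | hgt
    · -- `x` is in the right part
      have hx1 : x ∈ r1.ks := by
        have h4 : x ∈ (PT.node x B1 D1).ks := by simp [PT.ks]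
        rw [PT.ks_congr (hq2.trans hp2.symm)] at h4
        simp only [PT.ks, List.mem_append, List.mem_cons] at h4
        rcases h4 with h4 | h4 | h4
        · have := (bst_node (by simpa only [PT.tr] using hbp)).2.2.1 x (PT.ks_sub l1 x h4)
          omega
        · omega
        · exact h4
      obtain ⟨E, F, hEF⟩ := PT.rooted hx1
      obtain ⟨n1, hn1, w1⟩ := PT.walk_lr (y := ρ) (A := l1) (B := r1) (A' := l1)
        (B' := PT.node x E F) rfl hEF.symm
      have hfr : (PT.node x (PT.node ρ l1 E) F).fr = (PT.node x B1 D1).fr := by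
        rw [hq2, ← hp2]
        have h5 : (PT.node ρ l1 (PT.node x E F)).fr = (PT.node ρ l1 r1).fr := by
          simp only [PT.fr] at hEF ⊢
          rw [← hEF]
        rw [← h5]
        simp [PT.fr]
      have hb2 : IsBST (PT.node x (PT.node ρ l1 E) F).tr := PT.bst_congr hfr.symm hbq
      obtain ⟨hA, hB⟩ := PT.split hb2 hfr
      obtain ⟨n2, hn2, w2⟩ := PT.walk_lr (y := x) hA hB
      have w3 := w2 Y' y1
      have w4 : Walk 3 (PT.node ρ l1 (PT.node x E F)).tr (x :: (List.replicate n2 x ++ Y')) :=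
        Walk.rot _ x _ _ _ (RotAt.left 2 x ρ l1.tr E.tr F.tr) w3
      refine ⟨_, w1 _ w4, (Rp.step ρ x X _ (y2.reps n2)).reps n1, ?_⟩
      have hsz2 := PT.sz_congr hfr
      simp only [List.length_append, List.length_replicate, List.length_cons]
      simp only [PT.sz] at *
      omega
    · -- `x` is the root
      subst heq
      obtain ⟨hA, hB⟩ := PT.split hbp (hp2.trans hq2.symm)
      obtain ⟨n1, hn1, w1⟩ := PT.walk_lr (y := ρ) hA hB
      have w4 : Walk 3 (PT.node ρ B1 D1).tr (ρ :: Y') := Walk.stay ρ _ _ _ y1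
      refine ⟨_, w1 _ w4, (Rp.step ρ ρ X _ y2).reps n1, ?_⟩
      simp only [List.length_append, List.length_replicate, List.length_cons]
      simp only [PT.sz] at *
      omega
    · -- `x` is in the left part
      have hx1 : x ∈ l1.ks := by
        have h4 : x ∈ (PT.node x B1 D1).ks := by simp [PT.ks]
        rw [PT.ks_congr (hq2.trans hp2.symm)] at h4
        simp only [PT.ks, List.mem_append, List.mem_cons] at h4
        rcases h4 with h4 | h4 | h4
        · exact h4
        · omega
        · have := (bst_node (by simpa only [PT.tr] using hbp)).2.2.2 x (PT.ks_sub r1 x h4)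
          omega
      obtain ⟨E, F, hEF⟩ := PT.rooted hx1
      obtain ⟨n1, hn1, w1⟩ := PT.walk_lr (y := ρ) (A := l1) (B := r1) (A' := PT.node x E F)
        (B' := r1) hEF.symm rfl
      have hfr : (PT.node x E (PT.node ρ F r1)).fr = (PT.node x B1 D1).fr := by
        rw [hq2, ← hp2]
        have h5 : (PT.node ρ (PT.node x E F) r1).fr = (PT.node ρ l1 r1).fr := by
          simp only [PT.fr] at hEF ⊢
          rw [← hEF]
        rw [← h5]
        simp [PT.fr]
      have hb2 : IsBST (PT.node x E (PT.node ρ F r1)).tr := PT.bst_congr hfr.symm hbq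
      obtain ⟨hA, hB⟩ := PT.split hb2 hfr
      obtain ⟨n2, hn2, w2⟩ := PT.walk_lr (y := x) hA hB
      have w3 := w2 Y' y1
      have w4 : Walk 3 (PT.node ρ (PT.node x E F) r1).tr (x :: (List.replicate n2 x ++ Y')) :=
        Walk.rot _ x _ _ _ (RotAt.right 2 ρ x E.tr F.tr r1.tr) w3
      refine ⟨_, w1 _ w4, (Rp.step ρ x X _ (y2.reps n2)).reps n1, ?_⟩
      have hsz2 := PT.sz_congr hfr
      simp only [List.length_append, List.length_replicate, List.length_cons]
      simp only [PT.sz] at *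
      omega

end Pool.Agent.R531.Spl
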